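import Mathlib

/-!
# Row B1: power series with controlled coefficients (MEDIUM, ONLY MATHLIB)

Plan: `apx_mul`: Cauchy product: both series converge absolutely for `|v| ≤ h`
(`|a i v^i| ≤ K (i+1)^e (1/R)^i`, `R ≥ 2`: `summable_pow_mul_geometric_of_norm_lt_one`);
`c n = ∑_{(i,j) ∈ antidiagonal n} a i * b j`, at most `n + 1` terms, each at most `K K' (n+1)^(e+e') (1/(R h))^n`;
`summable_norm_sum_mul_antidiagonal_of_summable_norm`, `tsum_mul_tsum_eq_tsum_sum_antidiagonal_of_summable_norm`.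
`apx_add`: `K + K'`, exponents `max` (take `e + e'`).  `apx_neg_arg`: `a i * (-1)^i`.  `apx_const`.
`apx_poly`: `G = ∑_{i < N} C (a i) * X^i`; the tail is `∑' i, a (i + N) v^(i + N)`, at most
`K (1/R)^N ∑' i, (i + N + 1)^e (1/2)^i ≤ K (N + 1)^e (1/R)^N ∑' i, (i + 1)^e (1/2)^i`.
-/

namespace CM68

open Finset Polynomial

/-- `f` is a power series in `|v| ≤ h` with coefficients `≤ K (i + 1)^e (R h)^(-i)` -/
def Apx (h R K : ℝ) (e : ℕ) (f : ℝ → ℝ) : Prop :=
  ∃ a : ℕ → ℝ, (∀ i, |a i| ≤ K * ((i : ℝ) + 1) ^ e * (1 / (R * h)) ^ i) ∧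
    ∀ v : ℝ, |v| ≤ h → HasSum (fun i => a i * v ^ i) (f v)

/-- the constant of the truncation -/
noncomputable def ce (e : ℕ) : ℝ := ∑' i : ℕ, ((i : ℝ) + 1) ^ e * (1 / 2) ^ i

variable {h R K K' : ℝ} {e e' : ℕ} {f f' : ℝ → ℝ}

private theorem B1_sum (e : ℕ) : Summable fun i : ℕ => ((i : ℝ) + 1) ^ e * (1 / 2) ^ i := by
  have h := (summable_nat_add_iff 1).2
    (summable_pow_mul_geometric_of_norm_lt_one e (r := (1 / 2 : ℝ)) (by norm_num))
  refine (h.mul_left 2).congr fun i => ?_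
  push_cast
  rw [pow_succ]
  ring

theorem ce_pos (e : ℕ) : 1 ≤ ce e := by
  have h := (B1_sum e).le_tsum 0 (fun j _ => by positivity)
  unfold ce
  simpa using h

theorem apx_one (hh : 0 < h) (hR : 2 ≤ R) : Apx h R 1 0 fun _ => 1 := by
  refine ⟨fun i => if i = 0 then 1 else 0, fun i => ?_, fun v _ => ?_⟩
  · have hR0 : 0 < R := by linarith
    rcases Nat.eq_zero_or_pos i with h0 | h0
    · subst h0
      simp
    · have h1 : i ≠ 0 := by omega
      simp only [if_neg h1, abs_zero]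
      positivity
  · have := hasSum_single (f := fun i : ℕ => (if i = 0 then (1 : ℝ) else 0) * v ^ i) 0
      (fun b hb => by simp [hb])
    simpa using this

theorem apx_mono (hh : 0 < h) (hR : 2 ≤ R) (hK : K ≤ K') (he : e ≤ e') (hK0 : 0 ≤ K)
    (hf : Apx h R K e f) : Apx h R K' e' f := by
  obtain ⟨a, ha, hs⟩ := hf
  have hR0 : 0 < R := by linarith
  refine ⟨a, fun i => (ha i).trans ?_, hs⟩
  have h1 : (1 : ℝ) ≤ (i : ℝ) + 1 := by
    have : (0 : ℝ) ≤ i := Nat.cast_nonneg _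
    linarith
  exact mul_le_mul_of_nonneg_right (mul_le_mul hK (pow_le_pow_right₀ h1 he) (by positivity)
    (hK0.trans hK)) (by positivity)

theorem apx_mul (hh : 0 < h) (hR : 2 ≤ R) (hK : 0 ≤ K) (hK' : 0 ≤ K') (hf : Apx h R K e f)
    (hf' : Apx h R K' e' f') : Apx h R (K * K') (e + e' + 1) fun v => f v * f' v := by
  obtain ⟨a, ha, hs⟩ := hf
  obtain ⟨b, hb, hs'⟩ := hf'
  have hR0 : 0 < R := by linarith
  obtain ⟨q, hq⟩ : ∃ q : ℝ, q = 1 / (R * h) := ⟨_, rfl⟩
  have hq0 : 0 ≤ q := by rw [hq]; positivity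
  rw [← hq] at ha hb
  refine ⟨fun n => ∑ p ∈ antidiagonal n, a p.1 * b p.2, fun n => ?_, fun v hv => ?_⟩
  · rw [← hq]
    have h1 : ∀ p ∈ antidiagonal n, |a p.1 * b p.2| ≤ K * K' * ((n : ℝ) + 1) ^ (e + e') * q ^ n := by
      intro p hp
      have hp' : p.1 + p.2 = n := mem_antidiagonal.1 hp
      have e1 : ((p.1 : ℝ) + 1) ≤ (n : ℝ) + 1 := by
        have : (p.1 : ℝ) ≤ n := by exact_mod_cast (by omega : p.1 ≤ n)
        linarith
      have e2 : ((p.2 : ℝ) + 1) ≤ (n : ℝ) + 1 := by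
        have : (p.2 : ℝ) ≤ n := by exact_mod_cast (by omega : p.2 ≤ n)
        linarith
      have e3 : |a p.1| ≤ K * ((n : ℝ) + 1) ^ e * q ^ p.1 := by
        refine (ha p.1).trans ?_
        have : ((p.1 : ℝ) + 1) ^ e ≤ ((n : ℝ) + 1) ^ e := pow_le_pow_left₀ (by positivity) e1 e
        exact mul_le_mul_of_nonneg_right (mul_le_mul_of_nonneg_left this hK) (by positivity)
      have e4 : |b p.2| ≤ K' * ((n : ℝ) + 1) ^ e' * q ^ p.2 := by
        refine (hb p.2).trans ?_
        have : ((p.2 : ℝ) + 1) ^ e' ≤ ((n : ℝ) + 1) ^ e' := pow_le_pow_left₀ (by positivity) e2 e'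
        exact mul_le_mul_of_nonneg_right (mul_le_mul_of_nonneg_left this hK') (by positivity)
      rw [abs_mul]
      calc |a p.1| * |b p.2| ≤ (K * ((n : ℝ) + 1) ^ e * q ^ p.1) *
            (K' * ((n : ℝ) + 1) ^ e' * q ^ p.2) :=
            mul_le_mul e3 e4 (abs_nonneg _) (by positivity)
        _ = K * K' * ((n : ℝ) + 1) ^ (e + e') * q ^ n := by
            rw [← hp', pow_add, pow_add]
            ring
    refine (abs_sum_le_sum_abs _ _).trans ((sum_le_sum h1).trans (le_of_eq ?_))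
    rw [sum_const, Nat.card_antidiagonal, nsmul_eq_mul, pow_succ]
    push_cast
    ring
  · have h1 := hs v hv
    have h2 := hs' v hv
    have n1 : Summable fun i => ‖a i * v ^ i‖ := summable_norm_iff.2 h1.summable
    have n2 : Summable fun i => ‖b i * v ^ i‖ := summable_norm_iff.2 h2.summable
    have h3 := tsum_mul_tsum_eq_tsum_sum_antidiagonal_of_summable_norm n1 n2
    have h4 := (summable_norm_sum_mul_antidiagonal_of_summable_norm n1 n2).of_norm
    rw [h1.tsum_eq, h2.tsum_eq] at h3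
    have h5 : (fun n => ∑ kl ∈ antidiagonal n, a kl.1 * v ^ kl.1 * (b kl.2 * v ^ kl.2)) =
        fun n => (∑ p ∈ antidiagonal n, a p.1 * b p.2) * v ^ n := by
      funext n
      rw [sum_mul]
      refine sum_congr rfl fun p hp => ?_
      rw [← mem_antidiagonal.1 hp, pow_add]
      ring
    rw [h5] at h4
    have h6 : f v * f' v = ∑' n, (∑ p ∈ antidiagonal n, a p.1 * b p.2) * v ^ n := by
      rw [h3]
      exact congrArg tsum h5
    show HasSum (fun n => (∑ p ∈ antidiagonal n, a p.1 * b p.2) * v ^ n) (f v * f' v)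
    rw [h6]
    exact h4.hasSum

theorem apx_add (hh : 0 < h) (hR : 2 ≤ R) (hf : Apx h R K e f) (hf' : Apx h R K' e f') :
    Apx h R (K + K') e fun v => f v + f' v := by
  obtain ⟨a, ha, hs⟩ := hf
  obtain ⟨b, hb, hs'⟩ := hf'
  refine ⟨fun i => a i + b i, fun i => ?_, fun v hv => ?_⟩
  · refine (abs_add_le _ _).trans ((add_le_add (ha i) (hb i)).trans (le_of_eq ?_))
    ring
  · have h1 := (hs v hv).add (hs' v hv)
    have h2 : (fun i => (a i + b i) * v ^ i) = fun i => a i * v ^ i + b i * v ^ i := by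
      funext i
      ring
    rw [h2]
    exact h1

theorem apx_neg_arg (hf : Apx h R K e f) : Apx h R K e fun v => f (-v) := by
  obtain ⟨a, ha, hs⟩ := hf
  refine ⟨fun i => a i * (-1) ^ i, fun i => ?_, fun v hv => ?_⟩
  · rw [abs_mul, abs_pow, abs_neg, abs_one, one_pow, mul_one]
    exact ha i
  · have h1 := hs (-v) (by rwa [abs_neg])
    have h2 : (fun i => a i * (-1) ^ i * v ^ i) = fun i => a i * (-v) ^ i := by
      funext i
      rw [mul_assoc, ← mul_pow]
      congr 2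
      ring
    rw [h2]
    exact h1

theorem apx_sign (hf : Apx h R K e f) (k : ℕ) : Apx h R K e fun v => (-1) ^ k * f v := by
  obtain ⟨a, ha, hs⟩ := hf
  refine ⟨fun i => (-1) ^ k * a i, fun i => ?_, fun v hv => ?_⟩
  · rw [abs_mul, abs_pow, abs_neg, abs_one, one_pow, one_mul]
    exact ha i
  · have h1 := (hs v hv).mul_left ((-1) ^ k)
    have h2 : (fun i => (-1) ^ k * a i * v ^ i) = fun i => (-1) ^ k * (a i * v ^ i) := by
      funext i
      ring
    rw [h2]
    exact h1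

theorem apx_poly (hh : 0 < h) (hR : 2 ≤ R) (hK : 0 ≤ K) (hf : Apx h R K e f) {N : ℕ} (hN : 1 ≤ N) :
    ∃ G : ℝ[X], G.natDegree < N ∧ ∀ v : ℝ, |v| ≤ h →
      |f v - G.eval v| ≤ K * ce e * ((N : ℝ) + 1) ^ e * (1 / R) ^ N := by
  obtain ⟨a, ha, hs⟩ := hf
  have hR0 : 0 < R := by linarith
  refine ⟨∑ i ∈ range N, C (a i) * X ^ i, ?_, fun v hv => ?_⟩
  · have h1 : (∑ i ∈ range N, C (a i) * X ^ i : ℝ[X]).natDegree ≤ N - 1 := by
      refine natDegree_sum_le_of_forall_le _ _ fun i hi => ?_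
      refine (natDegree_C_mul_X_pow_le _ _).trans ?_
      have := mem_range.1 hi
      omega
    omega
  · have h1 : (∑ i ∈ range N, C (a i) * X ^ i : ℝ[X]).eval v = ∑ i ∈ range N, a i * v ^ i := by
      rw [eval_finsetSum]
      refine sum_congr rfl fun i _ => ?_
      rw [eval_mul, eval_C, eval_pow, eval_X]
    rw [h1]
    have h2 : HasSum (fun i => a (i + N) * v ^ (i + N)) (f v - ∑ i ∈ range N, a i * v ^ i) := by
      have h3 := (hasSum_nat_add_iff (f := fun i => a i * v ^ i) N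
        (g := f v - ∑ i ∈ range N, a i * v ^ i)).2 (by
          rw [sub_add_cancel]
          exact hs v hv)
      exact h3
    have h4 : HasSum (fun i : ℕ => K * ((N : ℝ) + 1) ^ e * (1 / R) ^ N *
        (((i : ℝ) + 1) ^ e * (1 / 2) ^ i)) (K * ((N : ℝ) + 1) ^ e * (1 / R) ^ N * ce e) :=
      (B1_sum e).hasSum.mul_left _
    have h5 := h2.norm_le_of_bounded h4 fun i => ?_
    · rw [Real.norm_eq_abs] at h5
      refine h5.trans (le_of_eq ?_)
      ring
    · rw [Real.norm_eq_abs, abs_mul, abs_pow]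
      have b1 := ha (i + N)
      have b2 : |v| ^ (i + N) ≤ h ^ (i + N) := pow_le_pow_left₀ (abs_nonneg _) hv _
      have b3 : (1 / (R * h)) ^ (i + N) * h ^ (i + N) = (1 / R) ^ i * (1 / R) ^ N := by
        rw [← mul_pow, ← pow_add]
        congr 1
        field_simp
      have b4 : (((i + N : ℕ) : ℝ) + 1) ^ e ≤ (((i : ℝ) + 1) * ((N : ℝ) + 1)) ^ e := by
        refine pow_le_pow_left₀ (by positivity) ?_ e
        push_cast
        nlinarith [mul_nonneg (Nat.cast_nonneg (α := ℝ) i) (Nat.cast_nonneg (α := ℝ) N)]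
      have b5 : (1 / R) ^ i ≤ (1 / 2 : ℝ) ^ i :=
        pow_le_pow_left₀ (by positivity) (one_div_le_one_div_of_le (by norm_num) hR) i
      calc |a (i + N)| * |v| ^ (i + N)
          ≤ (K * (((i + N : ℕ) : ℝ) + 1) ^ e * (1 / (R * h)) ^ (i + N)) * h ^ (i + N) :=
            mul_le_mul b1 b2 (by positivity) (by positivity)
        _ = K * (((i + N : ℕ) : ℝ) + 1) ^ e * ((1 / R) ^ i * (1 / R) ^ N) := by
            rw [mul_assoc, b3]
        _ ≤ K * (((i : ℝ) + 1) * ((N : ℝ) + 1)) ^ e * ((1 / 2) ^ i * (1 / R) ^ N) := by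
            refine mul_le_mul (mul_le_mul_of_nonneg_left b4 hK) ?_ (by positivity) (by positivity)
            exact mul_le_mul_of_nonneg_right b5 (by positivity)
        _ = _ := by
            rw [mul_pow]
            ring

end CM68
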