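import Pool.Agent.LibCM68.A1
import Pool.Agent.LibCM68.A2
import Pool.Agent.LibCM2.B1

/-!
# Row B2: the tails are such power series (MEDIUM)

Plan: `1 / (a + v)^k = ∑' i, (i + (k-1)).choose (k-1) * (-1)^i * (1 / a^(k+i)) * v^i` for `|v| < a`
(`hasSum_choose_mul_geometric_of_norm_lt_one`, `r = -v / a`, see the proof of `taylorK` in LibCM68/A2.lean).  Sum over `m`:
`a i = (-1)^i (i + (k-1)).choose (k-1) * ∑' m, 1 / a m ^ (k + i)`; `(i + (k-1)).choose (k-1) ≤ (i + 1)^(k-1)` (`choose_shift` with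
`i = 0`), `∑' m, 1 / a m ^ (k+i) ≤ (1/(R h))^i ∑' m, 1 / a m ^ k ≤ 2 (1/(R h))^i`.  Exchange of the two sums: the double series converges
absolutely (`HasSum.sigma`/`Summable.prod..`, `tsum_comm'`; bound `2^k (1/2)^i`-type times `1 / a m ^ k`).
`apx_tl`: `h = q n / 2`, `R = 2 r + 1`, `a m = c + q n / 2 + q (r n + 1 + m) ≥ R h`, `≥ m + 1`.
`apx_tl'`: `q n - (q n / 2 + v + c) + q (r n + 1 + m) = (q n / 2 - c + q (r n + 1 + m)) + (-v)`, `c ≤ q`.
-/

namespace CM68

open Finset Polynomial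

theorem apx_sum {a : ℕ → ℝ} {h R : ℝ} (hh : 0 < h) (hR : 2 ≤ R) (ha : ∀ m, R * h ≤ a m)
    (ha' : ∀ m : ℕ, (m : ℝ) + 1 ≤ a m) {k : ℕ} (hk : 2 ≤ k) :
    Apx h R 2 k fun v => ∑' m : ℕ, 1 / (a m + v) ^ k := by
  classical
  obtain ⟨K, rfl⟩ : ∃ K, k = K + 1 := ⟨k - 1, by omega⟩
  have hRh : 0 < R * h := by positivity
  have ha0 : ∀ m, 0 < a m := fun m => lt_of_lt_of_le hRh (ha m)
  obtain ⟨hs, hs2⟩ := tl_sum ha' hk
  have hchoose : ∀ i : ℕ, ((i + K).choose K : ℝ) ≤ ((i : ℝ) + 1) ^ K := by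
    intro i
    have h1 := choose_shift K i 0
    rw [zero_add, zero_add, Nat.choose_self, mul_one] at h1
    exact_mod_cast h1
  -- the sums over `m`
  have hle : ∀ i m : ℕ, 1 / a m ^ (K + 1 + i) ≤ (1 / (R * h)) ^ i * (1 / a m ^ (K + 1)) := by
    intro i m
    have h1 : 1 / a m ≤ 1 / (R * h) := one_div_le_one_div_of_le hRh (ha m)
    have h2 : 0 ≤ 1 / a m := (one_div_pos.2 (ha0 m)).le
    calc 1 / a m ^ (K + 1 + i) = (1 / a m) ^ i * (1 / a m ^ (K + 1)) := by
          rw [pow_add, one_div_pow, one_div_mul_one_div, mul_comm]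
      _ ≤ (1 / (R * h)) ^ i * (1 / a m ^ (K + 1)) :=
          mul_le_mul_of_nonneg_right (pow_le_pow_left₀ h2 h1 i)
            (one_div_pos.2 (pow_pos (ha0 m) _)).le
  have hsi : ∀ i : ℕ, Summable fun m : ℕ => 1 / a m ^ (K + 1 + i) := fun i =>
    Summable.of_nonneg_of_le (fun m => (one_div_pos.2 (pow_pos (ha0 m) _)).le) (hle i)
      (hs.mul_left _)
  refine ⟨fun i => ((i + K).choose K : ℝ) * (-1) ^ i * ∑' m : ℕ, 1 / a m ^ (K + 1 + i), ?_, ?_⟩
  · intro i
    have h1 : 0 ≤ ∑' m : ℕ, 1 / a m ^ (K + 1 + i) :=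
      tsum_nonneg fun m => (one_div_pos.2 (pow_pos (ha0 m) _)).le
    have h2 : ∑' m : ℕ, 1 / a m ^ (K + 1 + i) ≤ (1 / (R * h)) ^ i * 2 := by
      refine ((hsi i).tsum_le_tsum (hle i) (hs.mul_left _)).trans ?_
      rw [tsum_mul_left]
      exact mul_le_mul_of_nonneg_left hs2 (by positivity)
    have h3 : ((i + K).choose K : ℝ) ≤ ((i : ℝ) + 1) ^ (K + 1) := by
      refine (hchoose i).trans (pow_le_pow_right₀ ?_ (Nat.le_succ K))
      have : (0 : ℝ) ≤ i := Nat.cast_nonneg i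
      linarith
    rw [abs_mul, abs_mul, abs_pow, abs_neg, abs_one, one_pow, mul_one, abs_of_nonneg h1,
      abs_of_nonneg (Nat.cast_nonneg _)]
    calc ((i + K).choose K : ℝ) * ∑' m : ℕ, 1 / a m ^ (K + 1 + i)
        ≤ ((i : ℝ) + 1) ^ (K + 1) * ((1 / (R * h)) ^ i * 2) :=
          mul_le_mul h3 h2 h1 (by positivity)
      _ = 2 * ((i : ℝ) + 1) ^ (K + 1) * (1 / (R * h)) ^ i := by ring
  · intro v hv
    have hR0 : 0 < R := by linarith
    have hva : ∀ m, |v / a m| ≤ 1 / R := by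
      intro m
      rw [abs_div, abs_of_pos (ha0 m), div_le_div_iff₀ (ha0 m) hR0, one_mul]
      calc |v| * R ≤ h * R := mul_le_mul_of_nonneg_right hv hR0.le
        _ = R * h := mul_comm _ _
        _ ≤ a m := ha m
    have hR12 : 1 / R ≤ 1 / 2 := one_div_le_one_div_of_le (by norm_num) hR
    -- the double series
    set F : ℕ × ℕ → ℝ := fun p => ((p.2 + K).choose K : ℝ) * (-1) ^ p.2 *
      (1 / a p.1 ^ (K + 1 + p.2)) * v ^ p.2 with hF
    have hFn : ∀ p : ℕ × ℕ, ‖F p‖ ≤ (1 / a p.1 ^ (K + 1)) * (((p.2 : ℝ) + 1) ^ K * (1 / R) ^ p.2) := by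
      rintro ⟨m, i⟩
      have e : F (m, i) = ((i + K).choose K : ℝ) * (-1) ^ i * ((1 / a m ^ (K + 1)) *
          (v / a m) ^ i) := by
        simp only [hF]
        rw [div_pow, pow_add]
        have := (ha0 m).ne'
        field_simp
      rw [e, Real.norm_eq_abs, abs_mul, abs_mul, abs_mul, abs_pow, abs_pow, abs_neg, abs_one,
        one_pow, mul_one, abs_of_nonneg (Nat.cast_nonneg _),
        abs_of_pos (one_div_pos.2 (pow_pos (ha0 m) _))]
      calc ((i + K).choose K : ℝ) * (1 / a m ^ (K + 1) * |v / a m| ^ i)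
          = (1 / a m ^ (K + 1)) * (((i + K).choose K : ℝ) * |v / a m| ^ i) := by ring
        _ ≤ (1 / a m ^ (K + 1)) * (((i : ℝ) + 1) ^ K * (1 / R) ^ i) := by
            refine mul_le_mul_of_nonneg_left ?_ (one_div_pos.2 (pow_pos (ha0 m) _)).le
            exact mul_le_mul (hchoose i) (pow_le_pow_left₀ (abs_nonneg _) (hva m) i)
              (by positivity) (by positivity)
    have hg : Summable fun i : ℕ => ((i : ℝ) + 1) ^ K * (1 / R) ^ i := by
      have hr1 : ‖(1 / R : ℝ)‖ < 1 := by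
        rw [Real.norm_eq_abs, abs_of_pos (by positivity)]
        linarith
      have h1 := summable_pow_mul_geometric_of_norm_lt_one K hr1
      have h2 := (summable_nat_add_iff 1).2 h1
      have h3 := h2.mul_left R
      refine h3.congr fun i => ?_
      push_cast
      rw [pow_succ]
      field_simp
    have hFs : Summable F := by
      refine Summable.of_norm_bounded ?_ hFn
      refine hs.mul_of_nonneg hg ?_ ?_
      · exact fun m => (one_div_pos.2 (pow_pos (ha0 m) _)).le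
      · intro i
        positivity
    have hrow : ∀ m : ℕ, HasSum (fun i => F (m, i)) (1 / (a m + v) ^ (K + 1)) := by
      intro m
      have hx : ‖-(v / a m)‖ < 1 := by
        rw [norm_neg, Real.norm_eq_abs]
        linarith [hva m]
      have h1 := (hasSum_choose_mul_geometric_of_norm_lt_one K hx).mul_left (1 / a m ^ (K + 1))
      have h2 : 1 / a m ^ (K + 1) * (1 / (1 - -(v / a m)) ^ (K + 1)) = 1 / (a m + v) ^ (K + 1) := by
        rw [one_div_mul_one_div, ← mul_pow]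
        congr 2
        have := (ha0 m).ne'
        field_simp
        ring
      rw [h2] at h1
      have h3 : (fun i => F (m, i)) = fun i => 1 / a m ^ (K + 1) *
          (((i + K).choose K : ℝ) * (-(v / a m)) ^ i) := by
        funext i
        simp only [hF]
        rw [neg_pow (v / a m), div_pow, pow_add]
        have := (ha0 m).ne'
        field_simp
      rw [h3]
      exact h1
    have h1 : HasSum (fun m => 1 / (a m + v) ^ (K + 1)) (∑' p, F p) :=
      hFs.hasSum.prod_fiberwise hrow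
    have h2 : HasSum (fun p : ℕ × ℕ => F p.swap) (∑' p, F p) :=
      (Equiv.prodComm ℕ ℕ).hasSum_iff.2 hFs.hasSum
    have h3 : ∀ i : ℕ, HasSum (fun m => F (i, m).swap)
        (((i + K).choose K : ℝ) * (-1) ^ i * (∑' m : ℕ, 1 / a m ^ (K + 1 + i)) * v ^ i) := by
      intro i
      exact ((hsi i).hasSum.mul_left (((i + K).choose K : ℝ) * (-1) ^ i)).mul_right (v ^ i)
    have h4 := h2.prod_fiberwise h3
    rw [← h1.tsum_eq] at h4
    exact h4

theorem apx_tl {q n r k c : ℕ} (hq : 1 ≤ q) (hn : 1 ≤ n) (hr : 1 ≤ r) (hk : 2 ≤ k) :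
    Apx ((q : ℝ) * n / 2) (2 * r + 1) 2 k
      fun v => tl q k (r * n) ((q : ℝ) * n / 2 + v + c) := by
  have hqR : (1 : ℝ) ≤ q := by exact_mod_cast hq
  have hnR : (1 : ℝ) ≤ n := by exact_mod_cast hn
  have hrR : (1 : ℝ) ≤ r := by exact_mod_cast hr
  have hc0 : (0 : ℝ) ≤ c := Nat.cast_nonneg c
  have hqn : 0 < (q : ℝ) * n := by positivity
  have hqrn : 0 < (q : ℝ) * (r * n) := by positivity
  have h1 := apx_sum (h := (q : ℝ) * n / 2) (R := 2 * r + 1)
    (a := fun m => (c : ℝ) + (q : ℝ) * n / 2 + (q : ℝ) * (((r * n : ℕ) : ℝ) + 1 + m))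
    (by positivity) (by linarith) (fun m => by
      have hm : (0 : ℝ) ≤ m := Nat.cast_nonneg m
      have h2 : 0 ≤ (q : ℝ) * (1 + m) := by positivity
      push_cast
      nlinarith) (fun m => by
      have hm : (0 : ℝ) ≤ m := Nat.cast_nonneg m
      have h2 : (1 + m : ℝ) ≤ (q : ℝ) * (1 + m) := by nlinarith
      push_cast
      nlinarith) hk
  have h2 : (fun v : ℝ => tl q k (r * n) ((q : ℝ) * n / 2 + v + c)) = fun v =>
      ∑' m : ℕ, 1 / ((fun m : ℕ => (c : ℝ) + (q : ℝ) * n / 2 +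
        (q : ℝ) * (((r * n : ℕ) : ℝ) + 1 + m)) m + v) ^ k := by
    funext v
    unfold tl
    refine tsum_congr fun m => ?_
    congr 2
    ring
  rw [h2]
  exact h1

theorem apx_tl' {q n r k c : ℕ} (hq : 1 ≤ q) (hn : 1 ≤ n) (hr : 1 ≤ r) (hk : 2 ≤ k) (hc : c ≤ q) :
    Apx ((q : ℝ) * n / 2) (2 * r + 1) 2 k
      fun v => tl q k (r * n) ((q : ℝ) * n - ((q : ℝ) * n / 2 + v + c)) := by
  have hqR : (1 : ℝ) ≤ q := by exact_mod_cast hq
  have hnR : (1 : ℝ) ≤ n := by exact_mod_cast hn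
  have hrR : (1 : ℝ) ≤ r := by exact_mod_cast hr
  have hcq : (c : ℝ) ≤ q := by exact_mod_cast hc
  have hqn : 0 < (q : ℝ) * n := by positivity
  have hqrn : 1 ≤ (q : ℝ) * (r * n) := by
    have h3 : (1 : ℝ) ≤ r * n := by nlinarith
    nlinarith
  have h1 := apx_neg_arg (apx_sum (h := (q : ℝ) * n / 2) (R := 2 * r + 1)
    (a := fun m => (q : ℝ) * n / 2 - c + (q : ℝ) * (((r * n : ℕ) : ℝ) + 1 + m))
    (by positivity) (by linarith) (fun m => by
      have hm : (0 : ℝ) ≤ m := Nat.cast_nonneg m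
      have h2 : 0 ≤ (q : ℝ) * m := by positivity
      push_cast
      nlinarith) (fun m => by
      have hm : (0 : ℝ) ≤ m := Nat.cast_nonneg m
      have h2 : (m : ℝ) ≤ (q : ℝ) * m := by nlinarith
      push_cast
      nlinarith) hk)
  have h2 : (fun v : ℝ => tl q k (r * n) ((q : ℝ) * n - ((q : ℝ) * n / 2 + v + c))) = fun v =>
      ∑' m : ℕ, 1 / ((fun m : ℕ => (q : ℝ) * n / 2 - c +
        (q : ℝ) * (((r * n : ℕ) : ℝ) + 1 + m)) m + -v) ^ k := by
    funext v
    unfold tl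
    refine tsum_congr fun m => ?_
    congr 2
    ring
  rw [h2]
  exact h1

end CM68
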