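import Pool.Agent.LibCM2.Defs

/-!
# Row C1: the exponents (MEDIUM, nearly ONLY MATHLIB)

Plan: `mem_expo`: each `β i ≤ ∑ β ≤ g`.  `monos_down`, `zero_mem`: `mem_monos`.
`card_monos`: `Fin N → ℕ` and `Fin M → ℕ` together are the functions on `Fin (N + M)` (or `Fin N ⊕ Fin M`), with sum `≤ g`; adding one
more coordinate `g - ∑` they are the functions on `N + M + 1` points with sum `g`, i.e. `Finset.piAntidiag univ g`
(`Finset.card_piAntidiag`?) or `Sym (Fin (N+M+1)) g` (`Sym.card_sym_eq_choose`), or induction: the number `a (n, g)` of functions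
`Fin n → ℕ` with sum `≤ g` is `(n + g).choose g` (`Fin.consEquiv`/`Fin.cons`, `∑_{i ≤ g} a (n, g - i) = a (n + 1, g)`,
`Nat.sum_range_choose_...` hockey stick `Nat.sum_Icc_choose`).
-/

namespace CM68

open Finset

theorem mem_expo {N g : ℕ} {β : Fin N → ℕ} : β ∈ expo N g ↔ ∑ i, β i ≤ g := by
  constructor
  · intro h
    exact (Finset.mem_filter.1 h).2
  · intro h
    refine Finset.mem_filter.2 ⟨?_, h⟩
    rw [Fintype.mem_piFinset]
    intro i
    rw [Finset.mem_range]
    have h1 : β i ≤ ∑ i, β i := Finset.single_le_sum (fun _ _ => Nat.zero_le _) (Finset.mem_univ i)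
    omega

theorem mem_monos {N M g : ℕ} {μ : Mon N M} : μ ∈ monos N M g ↔ ∑ i, μ.1 i + ∑ i, μ.2 i ≤ g := by
  constructor
  · intro h
    exact (Finset.mem_filter.1 h).2
  · intro h
    refine Finset.mem_filter.2 ⟨?_, h⟩
    rw [Finset.mem_product]
    exact ⟨mem_expo.2 (by omega), mem_expo.2 (by omega)⟩

theorem monos_down {N M g : ℕ} {μ ν : Mon N M} (hμ : μ ∈ monos N M g) (h : ν ≤ μ) :
    ν ∈ monos N M g := by
  rw [mem_monos] at hμ ⊢
  have h1 : ∑ i, ν.1 i ≤ ∑ i, μ.1 i := Finset.sum_le_sum fun i _ => h.1 i
  have h2 : ∑ i, ν.2 i ≤ ∑ i, μ.2 i := Finset.sum_le_sum fun i _ => h.2 i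
  omega

theorem zero_mem_monos (N M g : ℕ) : (0 : Mon N M) ∈ monos N M g := by
  rw [mem_monos]
  simp

private theorem C1_hockey (n g : ℕ) :
    ∑ j ∈ range (g + 1), (n + j).choose j = (n + 1 + g).choose g := by
  induction g with
  | zero => simp
  | succ g ih =>
    rw [Finset.sum_range_succ, ih, show n + 1 + (g + 1) = (n + 1 + g) + 1 by ring,
      Nat.choose_succ_succ, show n + (g + 1) = n + 1 + g by ring]

private theorem C1_card_expo (n g : ℕ) : (expo n g).card = (n + g).choose g := by
  induction n generalizing g with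
  | zero =>
    have : expo 0 g = {fun i => i.elim0} := by
      ext β
      rw [mem_expo, Finset.mem_singleton]
      constructor
      · intro _
        funext i
        exact i.elim0
      · intro _
        simp
    rw [this]
    simp
  | succ n ih =>
    have hmap : ∀ β ∈ expo (n + 1) g, β 0 ∈ range (g + 1) := by
      intro β hβ
      rw [mem_expo, Fin.sum_univ_succ] at hβ
      rw [Finset.mem_range]
      omega
    rw [Finset.card_eq_sum_card_fiberwise hmap]
    have hfib : ∀ i ∈ range (g + 1), ((expo (n + 1) g).filter fun β => β 0 = i).card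
        = (n + (g - i)).choose (g - i) := by
      intro i hi
      rw [Finset.mem_range] at hi
      rw [← ih (g - i)]
      refine Finset.card_bij' (fun β _ => Fin.tail β) (fun γ _ => Fin.cons i γ) ?_ ?_ ?_ ?_
      · intro β hβ
        rw [Finset.mem_filter, mem_expo, Fin.sum_univ_succ] at hβ
        rw [mem_expo]
        have h1 : ∑ j, Fin.tail β j = ∑ j : Fin n, β j.succ := rfl
        rw [h1]
        omega
      · intro γ hγ
        rw [mem_expo] at hγ
        rw [Finset.mem_filter, mem_expo, Fin.sum_univ_succ]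
        simp only [Fin.cons_zero, Fin.cons_succ]
        refine ⟨?_, trivial⟩
        omega
      · intro β hβ
        rw [Finset.mem_filter] at hβ
        rw [← hβ.2]
        exact Fin.cons_self_tail β
      · intro γ _
        exact Fin.tail_cons (α := fun _ => ℕ) i γ
    rw [Finset.sum_congr rfl hfib]
    have hr := Finset.sum_range_reflect (fun j => (n + j).choose j) (g + 1)
    simp only [Nat.add_sub_cancel] at hr
    rw [hr, C1_hockey]

theorem card_monos (N M g : ℕ) : (monos N M g).card = (N + M + g).choose g := by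
  rw [← C1_card_expo (N + M) g]
  refine Finset.card_bij' (fun μ _ => Fin.append μ.1 μ.2)
    (fun β _ => (fun i => β (Fin.castAdd M i), fun i => β (Fin.natAdd N i))) ?_ ?_ ?_ ?_
  · intro μ hμ
    rw [mem_monos] at hμ
    rw [mem_expo, Fin.sum_univ_add]
    simpa using hμ
  · intro β hβ
    rw [mem_expo, Fin.sum_univ_add] at hβ
    rw [mem_monos]
    exact hβ
  · intro μ _
    simp
  · intro β _
    funext i
    refine Fin.addCases (fun i => ?_) (fun i => ?_) i
    · simp
    · simp

theorem card_expo_le (N g : ℕ) : (expo N g).card ≤ (g + 1) ^ N := by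
  have h1 : (expo N g).card ≤ (Fintype.piFinset fun _ : Fin N => range (g + 1)).card :=
    Finset.card_filter_le _ _
  rw [Fintype.card_piFinset] at h1
  simpa using h1

end CM68
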