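import Pool.Agent.LibCM2.Defs

/-!
# Row S5: the products of the sizes (MEDIUM; template LibCM68/S3.lean)

`UA2` (rows (i)): `Bw * exp d * Q₁^i`, `Bw = B (win)^g`; `EB2` (rows (iv)).
-/

namespace CM68

open Finset

/-- the sizes of the rows (i) -/
noncomputable def UA2 (D : Dat2) (d Q₁ : ℕ) (Bw : ℝ) (a : D.RA2 d) : ℝ :=
  Bw * (Real.exp d * (Q₁ : ℝ) ^ (a.2 : ℕ))

/-- the sizes of the rows (iv) -/
noncomputable def EB2 (r d K Q₂ ec : ℕ) (Mw : ℝ) (i : ℕ) : ℝ :=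
  Mw * (((d : ℝ) + 1) ^ ec * (1 / (2 * (r : ℝ) + 1)) ^ (d - i)) * (Real.exp K * (Q₂ : ℝ) ^ i)

theorem UA2_one (D : Dat2) {d Q₁ : ℕ} {Bw : ℝ} (h1 : 1 ≤ Q₁) (hB : 1 ≤ Bw) (a : D.RA2 d) :
    1 ≤ UA2 D d Q₁ Bw a := by
  have h1' : (1 : ℝ) ≤ Q₁ := by exact_mod_cast h1
  unfold UA2
  exact one_le_mul_of_one_le_of_one_le hB
    (one_le_mul_of_one_le_of_one_le (Real.one_le_exp (Nat.cast_nonneg _)) (one_le_pow₀ h1'))

private theorem S5_sum (d : ℕ) : ∑ k : Fin d, ((k : ℕ) : ℝ) = (d : ℝ) * (d - 1) / 2 := by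
  rw [Fin.sum_univ_eq_sum_range (fun k : ℕ => (k : ℝ))]
  induction d with
  | zero => simp
  | succ d ih =>
    rw [Finset.sum_range_succ, ih]
    push_cast
    ring

theorem UA2_prod (D : Dat2) {d Q₁ : ℕ} {Bw : ℝ} (h1 : 1 ≤ Q₁) (hB : 1 ≤ Bw) :
    Real.log (∏ a, UA2 D d Q₁ Bw a) ≤
      (D.Ms.erase 0).card * (d * Real.log Bw + (d : ℝ) ^ 2 + (d : ℝ) ^ 2 / 2 * Real.log Q₁) := by
  have h1' : (1 : ℝ) ≤ Q₁ := by exact_mod_cast h1
  have l1 : 0 ≤ Real.log Q₁ := Real.log_nonneg h1'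
  rw [Real.log_prod (fun a _ => ne_of_gt (lt_of_lt_of_le one_pos (UA2_one D h1 hB a)))]
  have e0 : ∀ x : D.RA2 d, Real.log (UA2 D d Q₁ Bw x) =
      (Real.log Bw + d) + ((x.2 : ℕ) : ℝ) * Real.log Q₁ := by
    intro x
    unfold UA2
    rw [Real.log_mul (by positivity) (by positivity),
      Real.log_mul (Real.exp_ne_zero _) (by positivity), Real.log_exp, Real.log_pow]
    ring
  have e1 : ∑ x : D.RA2 d, Real.log (UA2 D d Q₁ Bw x) =
      (D.Ms.erase 0).card * (d * (Real.log Bw + d) + (d : ℝ) * (d - 1) / 2 * Real.log Q₁) := by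
    rw [Finset.sum_congr rfl fun k _ => e0 k, Fintype.sum_prod_type]
    simp only [Finset.sum_add_distrib, Finset.sum_const, ← Finset.sum_mul,
      S5_sum, Finset.card_univ, Fintype.card_fin, Fintype.card_coe, nsmul_eq_mul]
    ring
  rw [e1]
  have hd : (0 : ℝ) ≤ d := Nat.cast_nonneg _
  have f1 : (d : ℝ) * (Real.log Bw + d) + (d : ℝ) * (d - 1) / 2 * Real.log Q₁ ≤
      d * Real.log Bw + (d : ℝ) ^ 2 + (d : ℝ) ^ 2 / 2 * Real.log Q₁ := by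
    nlinarith [mul_nonneg hd l1]
  exact mul_le_mul_of_nonneg_left f1 (Nat.cast_nonneg _)

theorem EB2_pos {r d K Q₂ ec : ℕ} {Mw : ℝ} (hQ : 1 ≤ Q₂) (hM : 1 ≤ Mw) (i : ℕ) :
    0 < EB2 r d K Q₂ ec Mw i := by
  have h2 : (1 : ℝ) ≤ Q₂ := by exact_mod_cast hQ
  unfold EB2
  positivity

theorem EB2_prod {r d K Q₂ ec : ℕ} {Mw : ℝ} (hQ : 1 ≤ Q₂) (hM : 1 ≤ Mw) (hK : K ≤ d) :
    Real.log (∏ i : Fin K, EB2 r d K Q₂ ec Mw i) ≤
      K * (Real.log Mw + ec * Real.log ((d : ℝ) + 1)) + (K : ℝ) ^ 2 +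
        (K : ℝ) ^ 2 / 2 * Real.log Q₂ -
      ((d : ℝ) * K - (K : ℝ) ^ 2 / 2) * Real.log (2 * r + 1) := by
  have h2 : (1 : ℝ) ≤ Q₂ := by exact_mod_cast hQ
  have hr0 : (0 : ℝ) ≤ r := Nat.cast_nonneg _
  have l2 : 0 ≤ Real.log Q₂ := Real.log_nonneg h2
  have l3 : 0 ≤ Real.log (2 * (r : ℝ) + 1) := Real.log_nonneg (by linarith)
  rw [Real.log_prod (f := fun i : Fin K => EB2 r d K Q₂ ec Mw (i : ℕ))
    (fun i _ => ne_of_gt (EB2_pos hQ hM (i : ℕ)))]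
  have key : ∀ i : Fin K, Real.log (EB2 r d K Q₂ ec Mw i) =
      (Real.log Mw + ec * Real.log ((d : ℝ) + 1) - (d : ℝ) * Real.log (2 * r + 1) + K) +
        ((i : ℕ) : ℝ) * (Real.log Q₂ + Real.log (2 * r + 1)) := by
    intro i
    have hi : (i : ℕ) ≤ d := by have := i.2; omega
    unfold EB2
    rw [Real.log_mul (by positivity) (by positivity),
      Real.log_mul (by positivity) (by positivity),
      Real.log_mul (by positivity) (by positivity),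
      Real.log_mul (Real.exp_ne_zero _) (by positivity), Real.log_exp, Real.log_pow, Real.log_pow,
      Real.log_pow, one_div, Real.log_inv, Nat.cast_sub hi]
    ring
  rw [Finset.sum_congr rfl fun k _ => key k]
  simp only [Finset.sum_add_distrib, Finset.sum_const, ← Finset.sum_mul,
      S5_sum, Finset.card_univ, Fintype.card_fin, nsmul_eq_mul]
  have hK0 : (0 : ℝ) ≤ K := Nat.cast_nonneg _
  have m2 : (K : ℝ) * (K - 1) / 2 * (Real.log Q₂ + Real.log (2 * r + 1)) ≤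
      (K : ℝ) ^ 2 / 2 * (Real.log Q₂ + Real.log (2 * r + 1)) := by
    apply mul_le_mul_of_nonneg_right _ (by linarith)
    nlinarith
  nlinarith [m2]

end CM68
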