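import Pool.Agent.LibCM68.A5
import Pool.Agent.LibCM2.C1

/-!
# Row H1: Taylor's formula at the partial sums (MEDIUM)

Plan: `(p + a)^m = ∑_{n ≤ m} C(m, n) p^(m-n) a^n` (`add_pow`) for every variable; the product over the variables
(`Finset.prod_univ_sum`, `Fintype.piFinset`), all `ν ≤ μ`, are in `Ms` (`monos_down`), and for `ν ∈ Ms`, not `ν ≤ μ`, `bn μ ν = 0`
(`Nat.choose_eq_zero_of_lt`).  So `∑_{ν ∈ Ms} bn μ ν p^(μ-ν) a^ν = (p + a)^μ` (`binom_id`), and `∑_ν H ν * Av ν =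
∑_μ co μ x (p + a)^μ` (`Finset.sum_comm`), with `x = j % q`; `pS + aS = s_k((x + c) % q)` (`split`, LibCM68/A1, at `j + c`;
`(j + c) % q = (j % q + c) % q > 0`), `pT + aT = T_k` (`splitT`, LibCM68/A5, `j + c < q n`); `hrel`.
-/

namespace CM68

open Finset

private theorem H1_pow (N : ℕ) (μ : Fin N → ℕ) (p a : Fin N → ℝ) :
    ∏ i, (p i + a i) ^ μ i = ∑ ν ∈ Fintype.piFinset fun i => range (μ i + 1),
      ((∏ i, (μ i).choose (ν i) : ℕ) : ℝ) * (∏ i, p i ^ (μ i - ν i)) * ∏ i, a i ^ ν i := by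
  have h1 : ∀ i, (p i + a i) ^ μ i =
      ∑ n ∈ range (μ i + 1), ((μ i).choose n : ℝ) * p i ^ (μ i - n) * a i ^ n := by
    intro i
    rw [add_comm, add_pow]
    exact Finset.sum_congr rfl fun n _ => by ring
  rw [Finset.prod_congr rfl fun i _ => h1 i, Finset.prod_univ_sum]
  refine Finset.sum_congr rfl fun ν _ => ?_
  rw [Finset.prod_mul_distrib, Finset.prod_mul_distrib]
  push_cast
  rfl

private theorem H1_zero {N : ℕ} {μ ν : Fin N → ℕ}
    (h : ν ∉ Fintype.piFinset fun i => range (μ i + 1)) :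
    (∏ i, (μ i).choose (ν i) : ℕ) = 0 := by
  rw [Fintype.mem_piFinset] at h
  push Not at h
  obtain ⟨i, hi⟩ := h
  rw [Finset.mem_range, not_lt] at hi
  exact Finset.prod_eq_zero (Finset.mem_univ i) (Nat.choose_eq_zero_of_lt (by omega))

theorem binom_id {N M g : ℕ} {μ : Mon N M} (hμ : μ ∈ monos N M g) (p a : Fin N → ℝ)
    (p' a' : Fin M → ℝ) :
    ∑ ν ∈ monos N M g, (bn μ ν : ℝ) * ((∏ i, p i ^ (μ.1 i - ν.1 i)) * ∏ i, p' i ^ (μ.2 i - ν.2 i)) *
      ((∏ i, a i ^ ν.1 i) * ∏ i, a' i ^ ν.2 i) =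
    (∏ i, (p i + a i) ^ μ.1 i) * ∏ i, (p' i + a' i) ^ μ.2 i := by
  classical
  rw [H1_pow N μ.1 p a, H1_pow M μ.2 p' a', Finset.sum_mul_sum, ← Finset.sum_product']
  have hS : (Fintype.piFinset fun i => range (μ.1 i + 1)) ×ˢ
      (Fintype.piFinset fun i => range (μ.2 i + 1)) ⊆ monos N M g := by
    intro ν hν
    rw [Finset.mem_product, Fintype.mem_piFinset, Fintype.mem_piFinset] at hν
    refine monos_down hμ (Prod.mk_le_mk.2 ⟨fun i => ?_, fun i => ?_⟩)
    · exact Nat.lt_succ_iff.1 (Finset.mem_range.1 (hν.1 i))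
    · exact Nat.lt_succ_iff.1 (Finset.mem_range.1 (hν.2 i))
  rw [← Finset.sum_subset hS]
  · refine Finset.sum_congr rfl fun ν _ => ?_
    unfold bn
    push_cast
    ring
  · intro ν _ hν
    rw [Finset.mem_product, not_and_or] at hν
    unfold bn
    rcases hν with hν | hν
    · rw [H1_zero hν]
      simp
    · rw [H1_zero hν]
      simp

theorem H_rel (D : Dat2) {n : ℕ} (T : ℕ) {j : ℕ} (hj : j ∈ D.Nd n) :
    ∑ ν ∈ D.Ms, D.H n T ν j * D.Av n T ν j = 0 := by
  have hj' := Finset.mem_filter.1 (show j ∈ (range (D.q * (n - 1))).filter fun j => j % D.q ∈ D.I from hj)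
  have hjr := Finset.mem_range.1 hj'.1
  have hx := hj'.2
  have hq := D.hq
  have hjc : ∀ c, c < D.q → j + c < D.q * n := by
    intro c hc
    have hn : 1 ≤ n := by
      rcases Nat.eq_zero_or_pos n with h | h
      · subst h
        simp at hjr
      · exact h
    have h1 : D.q * n = D.q * (n - 1) + D.q := by
      conv_lhs => rw [show n = (n - 1) + 1 by omega]
      ring
    omega
  rw [← D.hrel _ hx]
  have h1 : ∀ ν ∈ D.Ms, D.H n T ν j * D.Av n T ν j = ∑ μ ∈ D.Ms, (D.co μ (j % D.q) : ℝ) *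
      ((bn μ ν : ℝ) * ((∏ i, D.pS T i j ^ (μ.1 i - ν.1 i)) * ∏ i, D.pT n T i j ^ (μ.2 i - ν.2 i)) *
        ((∏ i, D.aS T i j ^ ν.1 i) * ∏ i, D.aT n T i j ^ ν.2 i)) := by
    intro ν _
    unfold Dat2.H Dat2.Av
    rw [Finset.sum_mul]
    exact Finset.sum_congr rfl fun μ _ => by ring
  rw [Finset.sum_congr rfl h1, Finset.sum_comm]
  refine Finset.sum_congr rfl fun μ hμ => ?_
  rw [← Finset.mul_sum]
  congr 1
  have h2 := binom_id (show μ ∈ monos D.N D.M D.g from hμ) (fun i => D.pS T i j) (fun i => D.aS T i j)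
    (fun i => D.pT n T i j) (fun i => D.aT n T i j)
  refine h2.trans ?_
  congr 1
  · refine Finset.prod_congr rfl fun i _ => ?_
    congr 1
    have h3 : 0 < (j + D.cs i) % D.q := by
      have h4 := D.hxs _ hx i
      rwa [Nat.mod_add_mod] at h4
    rw [Nat.mod_add_mod]
    exact (split (by omega) (D.hks i).1 T h3).symm
  · refine Finset.prod_congr rfl fun i _ => ?_
    congr 1
    have h3 : 0 < (j + D.ct i) % D.q := by
      have h4 := D.hxt _ hx i
      rwa [Nat.mod_add_mod] at h4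
    rw [Nat.mod_add_mod]
    exact (splitT (by omega) (D.hkt i).1 T h3 (hjc _ (D.hct i))).symm

end CM68
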