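import Pool.Agent.LibCM2.C1

/-!
# Row S4: the size of the `H ν` (MEDIUM)

Plan: at a node the numbers `j + c - q (n + T) + q i` are integers, not divisible by `q`, so of absolute value `≥ 1`: every
term of `pT` is at most `1`, `|pT| ≤ win n T`; `0 ≤ pS ≤ (j + c) / q + T + 1 ≤ win n T` (`q m + y % q ≥ 1`; `j + c < q n`).  So
`|H ν j| ≤ (∑_μ |co μ x| bn μ ν) * (win)^g` (`win ≥ 1`, exponents `≤ g` in total).
-/

namespace CM68

open Finset

private theorem S4_node (D : Dat2) {n j : ℕ} (hj : j ∈ D.Nd n) :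
    j % D.q ∈ D.I ∧ ∀ c < D.q, j + c < D.q * n := by
  have h := hj
  unfold Dat2.Nd P at h
  rw [Finset.mem_filter, Finset.mem_range] at h
  obtain ⟨h1, h2⟩ := h
  refine ⟨h2, fun c hc => ?_⟩
  rcases Nat.eq_zero_or_pos n with hn | hn
  · rw [hn] at h1
    simp at h1
  · obtain ⟨m, rfl⟩ : ∃ m, n = m + 1 := ⟨n - 1, by omega⟩
    rw [Nat.add_sub_cancel] at h1
    rw [Nat.mul_succ]
    omega

theorem pS_le (D : Dat2) {n T j : ℕ} (hj : j ∈ D.Nd n) (i : Fin D.N) :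
    |D.pS T i j| ≤ win n T := by
  obtain ⟨hI, hlt⟩ := S4_node D hj
  have hc := D.hcs i
  have hjc := hlt _ hc
  have hpos : 0 < (j + D.cs i) % D.q := by
    have h := D.hxs _ hI i
    rwa [Nat.mod_add_mod] at h
  have hq : 0 < D.q := by have := D.hq; omega
  have hdiv : (j + D.cs i) / D.q < n := by
    rw [Nat.div_lt_iff_lt_mul hq, mul_comm]
    exact hjc
  unfold Dat2.pS ps
  have hterm : ∀ m ∈ range ((j + D.cs i) / D.q + T + 1),
      |1 / ((D.q : ℝ) * m + (((j + D.cs i) % D.q : ℕ) : ℝ)) ^ D.ks i| ≤ 1 := by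
    intro m _
    have h1 : (1 : ℝ) ≤ (D.q : ℝ) * m + (((j + D.cs i) % D.q : ℕ) : ℝ) := by
      have h2 : (1 : ℝ) ≤ (((j + D.cs i) % D.q : ℕ) : ℝ) := by exact_mod_cast hpos
      have h3 : (0 : ℝ) ≤ (D.q : ℝ) * m := by positivity
      linarith
    have h4 : (1 : ℝ) ≤ ((D.q : ℝ) * m + (((j + D.cs i) % D.q : ℕ) : ℝ)) ^ D.ks i :=
      one_le_pow₀ h1
    rw [abs_of_nonneg (by positivity)]
    rw [div_le_one (by linarith)]
    exact h4
  refine (Finset.abs_sum_le_sum_abs _ _).trans ((Finset.sum_le_card_nsmul _ _ _ hterm).trans ?_)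
  rw [Finset.card_range, nsmul_eq_mul, mul_one]
  have : (j + D.cs i) / D.q + T + 1 ≤ win n T := by
    unfold win
    omega
  exact_mod_cast this

theorem pT_le (D : Dat2) {n T j : ℕ} (hj : j ∈ D.Nd n) (i : Fin D.M) :
    |D.pT n T i j| ≤ win n T := by
  obtain ⟨hI, hlt⟩ := S4_node D hj
  have hpos : 0 < (j + D.ct i) % D.q := by
    have h := D.hxt _ hI i
    rwa [Nat.mod_add_mod] at h
  unfold Dat2.pT rr
  have hterm : ∀ a ∈ range (win n T),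
      |1 / (((j + D.ct i : ℕ) : ℝ) - (D.q : ℝ) * (n + T) + D.q * a) ^ D.kt i| ≤ 1 := by
    intro a _
    have e : ((j + D.ct i : ℕ) : ℝ) - (D.q : ℝ) * (n + T) + D.q * a =
        ((((j + D.ct i : ℕ) : ℤ) + (D.q : ℤ) * ((a : ℤ) - (n + T)) : ℤ) : ℝ) := by
      push_cast
      ring
    have hne : (((j + D.ct i : ℕ) : ℤ) + (D.q : ℤ) * ((a : ℤ) - (n + T)) : ℤ) ≠ 0 := by
      intro h0
      have hd : (D.q : ℤ) ∣ ((j + D.ct i : ℕ) : ℤ) := by
        refine ⟨-((a : ℤ) - (n + T)), ?_⟩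
        linear_combination h0
      have hd' : D.q ∣ j + D.ct i := by exact_mod_cast hd
      have := Nat.mod_eq_zero_of_dvd hd'
      omega
    rw [e, abs_div, abs_one, abs_pow]
    have h1 : (1 : ℝ) ≤ |((((j + D.ct i : ℕ) : ℤ) + (D.q : ℤ) * ((a : ℤ) - (n + T)) : ℤ) : ℝ)| := by
      rw [← Int.cast_abs]
      exact_mod_cast Int.one_le_abs hne
    have h4 := one_le_pow₀ (n := D.kt i) h1
    rw [div_le_one (by linarith)]
    exact h4
  refine (Finset.abs_sum_le_sum_abs _ _).trans ((Finset.sum_le_card_nsmul _ _ _ hterm).trans ?_)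
  rw [Finset.card_range, nsmul_eq_mul, mul_one]

private theorem S4_prod {N : ℕ} {W : ℝ} (f : Fin N → ℝ) (hf : ∀ i, |f i| ≤ W)
    (a : Fin N → ℕ) : |∏ i, f i ^ a i| ≤ W ^ ∑ i, a i := by
  rw [Finset.abs_prod, ← Finset.prod_pow_eq_pow_sum]
  refine Finset.prod_le_prod (fun i _ => abs_nonneg _) fun i _ => ?_
  rw [abs_pow]
  exact pow_le_pow_left₀ (abs_nonneg _) (hf i) _

theorem H_le (D : Dat2) {B : ℝ}
    (hB : ∀ ν ∈ D.Ms, ∀ x < D.q, ∑ μ ∈ D.Ms, |(D.co μ x : ℝ)| * (bn μ ν : ℝ) ≤ B)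
    {n T j : ℕ} (hj : j ∈ D.Nd n) {ν : Mon D.N D.M} (hν : ν ∈ D.Ms) :
    |D.H n T ν j| ≤ B * (win n T : ℝ) ^ D.g := by
  have hq : 0 < D.q := by have := D.hq; omega
  have hW : (1 : ℝ) ≤ (win n T : ℝ) := by
    have : 1 ≤ win n T := by unfold win; omega
    exact_mod_cast this
  have hBx := hB ν hν (j % D.q) (Nat.mod_lt _ hq)
  have hWg : (0 : ℝ) ≤ (win n T : ℝ) ^ D.g := by positivity
  unfold Dat2.H
  refine (Finset.abs_sum_le_sum_abs _ _).trans ?_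
  have hterm : ∀ μ ∈ D.Ms, |(D.co μ (j % D.q) : ℝ) * (bn μ ν : ℝ) *
      ((∏ i, D.pS T i j ^ (μ.1 i - ν.1 i)) * ∏ i, D.pT n T i j ^ (μ.2 i - ν.2 i))| ≤
      |(D.co μ (j % D.q) : ℝ)| * (bn μ ν : ℝ) * (win n T : ℝ) ^ D.g := by
    intro μ hμ
    have hμ' : ∑ i, μ.1 i + ∑ i, μ.2 i ≤ D.g := mem_monos.1 hμ
    have h1 := S4_prod (fun i => D.pS T i j) (fun i => pS_le D hj i) (fun i => μ.1 i - ν.1 i)
    have h2 := S4_prod (fun i => D.pT n T i j) (fun i => pT_le D hj i) (fun i => μ.2 i - ν.2 i)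
    have hs1 : ∑ i, (μ.1 i - ν.1 i) ≤ ∑ i, μ.1 i := Finset.sum_le_sum fun i _ => Nat.sub_le _ _
    have hs2 : ∑ i, (μ.2 i - ν.2 i) ≤ ∑ i, μ.2 i := Finset.sum_le_sum fun i _ => Nat.sub_le _ _
    rw [abs_mul, abs_mul, abs_mul, Nat.abs_cast]
    refine mul_le_mul_of_nonneg_left ?_ (by positivity)
    calc |∏ i, D.pS T i j ^ (μ.1 i - ν.1 i)| * |∏ i, D.pT n T i j ^ (μ.2 i - ν.2 i)|
        ≤ (win n T : ℝ) ^ (∑ i, (μ.1 i - ν.1 i)) * (win n T : ℝ) ^ (∑ i, (μ.2 i - ν.2 i)) :=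
          mul_le_mul h1 h2 (abs_nonneg _) (by positivity)
      _ = (win n T : ℝ) ^ (∑ i, (μ.1 i - ν.1 i) + ∑ i, (μ.2 i - ν.2 i)) := by rw [pow_add]
      _ ≤ (win n T : ℝ) ^ D.g := pow_le_pow_right₀ hW (by omega)
  refine (Finset.sum_le_sum hterm).trans ?_
  rw [← Finset.sum_mul]
  exact mul_le_mul_of_nonneg_right hBx hWg

end CM68
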