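import Pool.Agent.LibCM68.D0
import Pool.Agent.LibCM2.B3
import Pool.Agent.LibCM2.H1
import Pool.Agent.LibCM2.S4

/-!
# Row SM2: the rows (iv) are small modulo the rows (i) (SHORT/MEDIUM)

`H_rel`: `H 0 j = - ∑_{ν ≠ 0} H ν j * Av ν j` (`Av 0 = 1`).  With `G ν` from `Av_poly`, `m = d - i ≥ 1` (`i < d`):
`v' j = - ∑_{ν ∈ Ms.erase 0} H ν j * C(j, i) * (Av ν j - G ν (j))`; `v' - rowB = ∑_ν H ν j * (G ν * Φ)(j)`, `Φ` the polynomial of
`C(j, i)` (`choose_poly`), `natDegree (G ν * Φ) < d`, so by `exists_choose` it is a combination of the rows (i).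
Size: `H_le`, `(m + 1)^ec ≤ (d + 1)^ec`.
-/

namespace CM68

open Finset Polynomial

theorem span2 (D : Dat2) {n T d : ℕ} {p : ℝ[X]} (hp : p.natDegree < d) {ν : Mon D.N D.M}
    (hν : ν ∈ D.Ms.erase 0) :
    (fun j : D.Nd n => D.H n T ν (j : ℕ) * p.eval ((j : ℕ) : ℝ)) ∈ D.rsp n T d := by
  obtain ⟨a, ha⟩ := exists_choose hp
  have h1 : (fun j : D.Nd n => D.H n T ν (j : ℕ) * p.eval ((j : ℕ) : ℝ)) =
      ∑ k : Fin d, a k • fun j : D.Nd n => D.rowA n T d (⟨ν, hν⟩, k) (j : ℕ) := by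
    funext j
    rw [Finset.sum_apply, ha, Finset.mul_sum]
    refine Finset.sum_congr rfl fun k _ => ?_
    rw [Pi.smul_apply, smul_eq_mul]
    unfold Dat2.rowA
    ring
  rw [h1]
  exact Submodule.sum_mem _ fun k _ => Submodule.smul_mem _ _
    (Submodule.subset_span ⟨(⟨ν, hν⟩, k), rfl⟩)

private theorem SM2_Av0 (D : Dat2) (n T j : ℕ) : D.Av n T 0 j = 1 := by
  unfold Dat2.Av
  simp

theorem rows_small2 (D : Dat2) {n r d i : ℕ} (hn : 1 ≤ n) (hr : 1 ≤ r) (hi : i < d) {B : ℝ}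
    (hB : ∀ ν ∈ D.Ms, ∀ x < D.q, ∑ μ ∈ D.Ms, |(D.co μ x : ℝ)| * (bn μ ν : ℝ) ≤ B) :
    ∃ v' : D.Nd n → ℝ, (v' - fun j : D.Nd n => D.rowB n (r * n) i j) ∈ D.rsp n (r * n) d ∧
      ∀ j : D.Nd n, |v' j| ≤
        (D.Ms.card * (B * (win n (r * n) : ℝ) ^ D.g) * (D.Kc * ce D.ec)) *
          (((d : ℝ) + 1) ^ D.ec * (1 / (2 * (r : ℝ) + 1)) ^ (d - i)) * ((j : ℕ).choose i : ℝ) := by
  classical
  obtain ⟨Ψ, hΨ, hΨ'⟩ := choose_poly i
  obtain ⟨m, hm⟩ : ∃ m, m = d - i := ⟨_, rfl⟩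
  have hm1 : 1 ≤ m := by omega
  have hG : ∀ ν : Mon D.N D.M, ∃ G : ℝ[X], ν ∈ D.Ms → G.natDegree < m ∧
      ∀ j : ℕ, j < D.q * (n - 1) → |D.Av n (r * n) ν j - G.eval (j : ℝ)| ≤
        D.Kc * ce D.ec * ((m : ℝ) + 1) ^ D.ec * (1 / (2 * (r : ℝ) + 1)) ^ m := by
    intro ν
    by_cases hν : ν ∈ D.Ms
    · obtain ⟨G, h1, h2⟩ := Av_poly D hn hr hm1 hν
      exact ⟨G, fun _ => ⟨h1, h2⟩⟩
    · exact ⟨0, fun h => absurd h hν⟩
  choose G hG using hG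
  have h0 : (0 : Mon D.N D.M) ∈ D.Ms := zero_mem_monos _ _ _
  have hnode : ∀ j : D.Nd n, (j : ℕ) < D.q * (n - 1) := by
    intro j
    exact mem_range.1 (mem_filter.1 j.2).1
  have hrel : ∀ j : D.Nd n, D.H n (r * n) 0 (j : ℕ) =
      - ∑ ν ∈ D.Ms.erase 0, D.H n (r * n) ν (j : ℕ) * D.Av n (r * n) ν (j : ℕ) := by
    intro j
    have h1 := H_rel D (n := n) (r * n) j.2
    rw [← Finset.add_sum_erase _ _ h0, SM2_Av0, mul_one] at h1
    linarith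
  refine ⟨fun j => - ∑ ν ∈ D.Ms.erase 0, D.H n (r * n) ν (j : ℕ) *
    (((j : ℕ).choose i : ℝ) * (D.Av n (r * n) ν (j : ℕ) - (G ν).eval ((j : ℕ) : ℝ))), ?_, ?_⟩
  · have h1 : ((fun j : D.Nd n => - ∑ ν ∈ D.Ms.erase 0, D.H n (r * n) ν (j : ℕ) *
        (((j : ℕ).choose i : ℝ) * (D.Av n (r * n) ν (j : ℕ) - (G ν).eval ((j : ℕ) : ℝ)))) -
        fun j : D.Nd n => D.rowB n (r * n) i j) =
        ∑ ν ∈ D.Ms.erase 0, fun j : D.Nd n => D.H n (r * n) ν (j : ℕ) *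
          (G ν * Ψ).eval ((j : ℕ) : ℝ) := by
      funext j
      rw [Pi.sub_apply, Finset.sum_apply]
      show - ∑ ν ∈ D.Ms.erase 0, D.H n (r * n) ν (j : ℕ) *
        (((j : ℕ).choose i : ℝ) * (D.Av n (r * n) ν (j : ℕ) - (G ν).eval ((j : ℕ) : ℝ))) -
        D.rowB n (r * n) i j = _
      unfold Dat2.rowB
      rw [hrel j, neg_mul, sub_neg_eq_add, Finset.sum_mul, neg_add_eq_sub,
        ← Finset.sum_sub_distrib]
      refine Finset.sum_congr rfl fun ν _ => ?_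
      rw [eval_mul, hΨ']
      ring
    rw [h1]
    refine Submodule.sum_mem _ fun ν hν => span2 D ?_ hν
    have h2 := (hG ν (Finset.mem_of_mem_erase hν)).1
    have h3 : (G ν * Ψ).natDegree ≤ (G ν).natDegree + Ψ.natDegree := natDegree_mul_le
    omega
  · intro j
    obtain ⟨Bw, hBw⟩ : ∃ Bw : ℝ, Bw = B * (win n (r * n) : ℝ) ^ D.g := ⟨_, rfl⟩
    have hHle : ∀ ν ∈ D.Ms, |D.H n (r * n) ν (j : ℕ)| ≤ Bw := by
      intro ν hν
      rw [hBw]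
      exact H_le D hB j.2 hν
    have hBw0 : 0 ≤ Bw := (abs_nonneg _).trans (hHle 0 h0)
    obtain ⟨Ed, hEd⟩ : ∃ Ed : ℝ, Ed = D.Kc * ce D.ec * (((d : ℝ) + 1) ^ D.ec *
      (1 / (2 * (r : ℝ) + 1)) ^ m) := ⟨_, rfl⟩
    have hKc : 0 ≤ D.Kc := by
      unfold Dat2.Kc
      positivity
    have hce : 0 ≤ ce D.ec := le_trans zero_le_one (ce_pos _)
    have hρ : 0 ≤ (1 / (2 * (r : ℝ) + 1)) ^ m := by positivity
    have hEd0 : 0 ≤ Ed := by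
      rw [hEd]
      positivity
    have hAG : ∀ ν ∈ D.Ms, |D.Av n (r * n) ν (j : ℕ) - (G ν).eval ((j : ℕ) : ℝ)| ≤ Ed := by
      intro ν hν
      refine ((hG ν hν).2 (j : ℕ) (hnode j)).trans ?_
      rw [hEd]
      have hmd : (m : ℝ) ≤ d := by
        have : m ≤ d := by omega
        exact_mod_cast this
      have h4 : ((m : ℝ) + 1) ^ D.ec ≤ ((d : ℝ) + 1) ^ D.ec :=
        pow_le_pow_left₀ (by positivity) (by linarith) _
      calc D.Kc * ce D.ec * ((m : ℝ) + 1) ^ D.ec * (1 / (2 * (r : ℝ) + 1)) ^ m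
          = (D.Kc * ce D.ec) * (((m : ℝ) + 1) ^ D.ec * (1 / (2 * (r : ℝ) + 1)) ^ m) := by ring
        _ ≤ (D.Kc * ce D.ec) * (((d : ℝ) + 1) ^ D.ec * (1 / (2 * (r : ℝ) + 1)) ^ m) :=
            mul_le_mul_of_nonneg_left (mul_le_mul_of_nonneg_right h4 hρ) (by positivity)
    have hC0 : (0 : ℝ) ≤ ((j : ℕ).choose i : ℝ) := Nat.cast_nonneg _
    have hterm : ∀ ν ∈ D.Ms.erase 0, |D.H n (r * n) ν (j : ℕ) *
        (((j : ℕ).choose i : ℝ) * (D.Av n (r * n) ν (j : ℕ) - (G ν).eval ((j : ℕ) : ℝ)))| ≤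
        Bw * (((j : ℕ).choose i : ℝ) * Ed) := by
      intro ν hν
      have hν' := Finset.mem_of_mem_erase hν
      rw [abs_mul, abs_mul, Nat.abs_cast]
      exact mul_le_mul (hHle ν hν') (mul_le_mul_of_nonneg_left (hAG ν hν') hC0)
        (by positivity) hBw0
    show |- ∑ ν ∈ D.Ms.erase 0, D.H n (r * n) ν (j : ℕ) *
      (((j : ℕ).choose i : ℝ) * (D.Av n (r * n) ν (j : ℕ) - (G ν).eval ((j : ℕ) : ℝ)))| ≤ _
    rw [abs_neg]
    refine (Finset.abs_sum_le_sum_abs _ _).trans ((Finset.sum_le_sum hterm).trans ?_)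
    rw [Finset.sum_const, nsmul_eq_mul]
    have hcard : ((D.Ms.erase 0).card : ℝ) ≤ D.Ms.card := by
      exact_mod_cast Finset.card_le_card (Finset.erase_subset _ _)
    calc ((D.Ms.erase 0).card : ℝ) * (Bw * (((j : ℕ).choose i : ℝ) * Ed))
        ≤ (D.Ms.card : ℝ) * (Bw * (((j : ℕ).choose i : ℝ) * Ed)) :=
          mul_le_mul_of_nonneg_right hcard (by positivity)
      _ = _ := by
          rw [hEd, hBw, hm]
          ring

end CM68
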