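import Mathlib

/-!
# Row Z7: Casorati's lemma for polynomials in several sums (STRONG, ONLY MATHLIB; template LibCM68/Z3.lean)

`F` a field over `ℝ` with an automorphism `σ`, whose fixed elements are real.  `A t l = ∑_{l' < l} σ^l' (ρ t)`, so
`A t (l + 1) = σ (A t l) + ρ t`.  `E` is a finite set of pairs `(β, i)`, closed downwards in `β`.
Claim: no nontrivial relation over `F` between the functions `A^β σ^l (f i)`, `(β, i) ∈ E`, for `l < card E`.
Plan: induction on `card E`, for all `E, c`.  Take `(β*, i*) ∈ E` with `|β*| = ∑ β* t` maximal; `E' = E.erase (β*, i*)` is closed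
downwards (`γ ≤ β`, `γ = β*` implies `β = β*` by maximality).
* If `c (β*, i*) = 0`: the relations `l < card E'` and the induction hypothesis.
* If not, divide all `c` by it, so `c (β*, i*) = 1`.  Let `R l` be the relation.  By `A (l+1) = σ (A l) + ρ` and the binomial
  theorem `∏ t, A t (l+1) ^ β t = ∑_{γ ≤ β} bn β γ * ρ^(β - γ) * σ (∏ t, A t l ^ γ t)` (`Finset.prod_univ_sum`), so `R (l + 1)` is
  `∑_{(γ, i) ∈ E} c' (γ, i) * σ (A^γ σ^l (f i))`, `c' (γ, i) = ∑_{(β, i) ∈ E, γ ≤ β} bn β γ * ρ^(β-γ) * c (β, i)`, and `σ (R l)` is the same with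
  `σ (c (γ, i))` (`l + 1 < card E`).  `c' (β*, i*) = c (β*, i*) = 1 = σ 1` (maximality).  Apply `σ.symm` to the difference: a relation on `E'`
  for `l < card E'` with coefficients `σ.symm (c' - σ c)`; induction hypothesis: `c' (γ, i) = σ (c (γ, i))` for all `(γ, i) ∈ E`.
* So for `|γ| = |β*|` `c (γ, i)` is `σ`-fixed, hence real (`hconst`).
* If `|β*| ≥ 1`: take `t` with `β* t ≥ 1`, `γ = β* - e_t` (`Function.update`); only the `β = γ + e_t'` occur in `c' (γ, i*)` besides `γ` itself
  (`|β| ≤ |β*| = |γ| + 1`): `σ (c (γ, i*)) - c (γ, i*) = ∑_{t'} (γ t' + 1) * c (γ + e_t', i*) * ρ t'` (`c` read as `0` outside `E`), real coefficients, the one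
  of `ρ t` is `β* t ≥ 1`: contradiction with `hns`.
* If `|β*| = 0`: all `(β, i) ∈ E` have `β = 0`; `R 0` is `∑ c (0, i) * f i = 0` with real coefficients, one of them `1`: contradiction with `hf`.
-/

namespace CM68

open Finset

private noncomputable def Z7_A {F : Type*} [Field F] (σ : F ≃+* F) {N : ℕ} (ρ : Fin N → F)
    (t : Fin N) (l : ℕ) : F := ∑ l' ∈ range l, (⇑σ)^[l'] (ρ t)

private theorem Z7_A_succ {F : Type*} [Field F] (σ : F ≃+* F) {N : ℕ} (ρ : Fin N → F)
    (t : Fin N) (l : ℕ) : Z7_A σ ρ t (l + 1) = σ (Z7_A σ ρ t l) + ρ t := by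
  unfold Z7_A
  rw [Finset.sum_range_succ', map_sum]
  simp only [Function.iterate_succ_apply', Function.iterate_zero, id_eq]

private noncomputable def Z7_K {F : Type*} [Field F] {N : ℕ} (ρ : Fin N → F)
    (β γ : Fin N → ℕ) : F := ∏ t, (((β t).choose (γ t) : ℕ) : F) * ρ t ^ (β t - γ t)

private theorem Z7_K_zero {F : Type*} [Field F] {N : ℕ} (ρ : Fin N → F) {β γ : Fin N → ℕ}
    (h : ¬ γ ≤ β) : Z7_K ρ β γ = 0 := by
  rw [Pi.le_def, not_forall] at h
  obtain ⟨t, ht⟩ := h
  unfold Z7_K
  refine Finset.prod_eq_zero (Finset.mem_univ t) ?_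
  rw [Nat.choose_eq_zero_of_lt (not_le.1 ht), Nat.cast_zero, zero_mul]

private theorem Z7_K_self {F : Type*} [Field F] {N : ℕ} (ρ : Fin N → F) (β : Fin N → ℕ) :
    Z7_K ρ β β = 1 := by
  unfold Z7_K
  refine Finset.prod_eq_one fun t _ => ?_
  rw [Nat.choose_self, Nat.sub_self, pow_zero, Nat.cast_one, mul_one]

private theorem Z7_K_succ {F : Type*} [Field F] {N : ℕ} (ρ : Fin N → F) (γ : Fin N → ℕ)
    (t : Fin N) : Z7_K ρ (γ + Pi.single t 1) γ = ((γ t + 1 : ℕ) : F) * ρ t := by
  unfold Z7_K
  rw [Finset.prod_eq_single t]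
  · rw [Pi.add_apply, Pi.single_eq_same, Nat.choose_succ_self_right, Nat.add_sub_cancel_left,
      pow_one]
  · intro b _ hb
    rw [Pi.add_apply, Pi.single_eq_of_ne hb, add_zero, Nat.choose_self, Nat.sub_self, pow_zero,
      Nat.cast_one, mul_one]
  · intro hh
    exact absurd (Finset.mem_univ t) hh

private theorem Z7_M_succ {F : Type*} [Field F] (σ : F ≃+* F) {N : ℕ} (ρ : Fin N → F)
    (β : Fin N → ℕ) (l : ℕ) :
    ∏ t, Z7_A σ ρ t (l + 1) ^ β t =
      ∑ γ ∈ Fintype.piFinset fun t => range (β t + 1),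
        Z7_K ρ β γ * σ (∏ t, Z7_A σ ρ t l ^ γ t) := by
  have h1 : ∀ t, Z7_A σ ρ t (l + 1) ^ β t = ∑ m ∈ range (β t + 1),
      ((((β t).choose m : ℕ) : F) * ρ t ^ (β t - m)) * σ (Z7_A σ ρ t l) ^ m := by
    intro t
    rw [Z7_A_succ, add_pow]
    exact Finset.sum_congr rfl fun m _ => by ring
  rw [Finset.prod_congr rfl fun t _ => h1 t, Finset.prod_univ_sum]
  refine Finset.sum_congr rfl fun γ _ => ?_
  rw [Finset.prod_mul_distrib, map_prod]
  congr 1
  exact Finset.prod_congr rfl fun t _ => by rw [map_pow]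

private noncomputable def Z7_g {F : Type*} [Field F] (σ : F ≃+* F) {S N : ℕ} (f : Fin S → F)
    (ρ : Fin N → F) (p : (Fin N → ℕ) × Fin S) (l : ℕ) : F :=
  (∏ t, Z7_A σ ρ t l ^ p.1 t) * (⇑σ)^[l] (f p.2)

private noncomputable def Z7_T {F : Type*} [Field F] {S N : ℕ} (ρ : Fin N → F)
    (p q : (Fin N → ℕ) × Fin S) : F := if q.2 = p.2 then Z7_K ρ p.1 q.1 else 0

private theorem Z7_T_ne {F : Type*} [Field F] {S N : ℕ} (ρ : Fin N → F)
    {p q : (Fin N → ℕ) × Fin S} (h : Z7_T ρ p q ≠ 0) : q.2 = p.2 ∧ q.1 ≤ p.1 := by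
  unfold Z7_T at h
  by_cases h1 : q.2 = p.2
  · refine ⟨h1, ?_⟩
    by_contra h2
    rw [if_pos h1, Z7_K_zero ρ h2] at h
    exact h rfl
  · rw [if_neg h1] at h
    exact absurd rfl h

private theorem Z7_T_self {F : Type*} [Field F] {S N : ℕ} (ρ : Fin N → F)
    (p : (Fin N → ℕ) × Fin S) : Z7_T ρ p p = 1 := by
  unfold Z7_T
  rw [if_pos rfl, Z7_K_self]

private theorem Z7_g_succ {F : Type*} [Field F] (σ : F ≃+* F) {S N : ℕ} (f : Fin S → F)
    (ρ : Fin N → F) (E : Finset ((Fin N → ℕ) × Fin S))
    (hE : ∀ p ∈ E, ∀ γ : Fin N → ℕ, γ ≤ p.1 → (γ, p.2) ∈ E)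
    {p : (Fin N → ℕ) × Fin S} (hp : p ∈ E) (l : ℕ) :
    Z7_g σ f ρ p (l + 1) = ∑ q ∈ E, Z7_T ρ p q * σ (Z7_g σ f ρ q l) := by
  classical
  have h1 : Z7_g σ f ρ p (l + 1) = ∑ γ ∈ Fintype.piFinset fun t => range (p.1 t + 1),
      Z7_T ρ p (γ, p.2) * σ (Z7_g σ f ρ (γ, p.2) l) := by
    unfold Z7_g
    rw [Z7_M_succ, Finset.sum_mul]
    refine Finset.sum_congr rfl fun γ _ => ?_
    have h2 : Z7_T ρ p (γ, p.2) = Z7_K ρ p.1 γ := if_pos rfl
    rw [h2, map_mul, Function.iterate_succ_apply' (⇑σ) l (f p.2)]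
    ring
  have h3 : ∑ γ ∈ Fintype.piFinset fun t => range (p.1 t + 1),
      Z7_T ρ p (γ, p.2) * σ (Z7_g σ f ρ (γ, p.2) l) =
      ∑ q ∈ (Fintype.piFinset fun t => range (p.1 t + 1)).image fun γ => (γ, p.2),
        Z7_T ρ p q * σ (Z7_g σ f ρ q l) := by
    rw [Finset.sum_image]
    intro a _ b _ hab
    exact (Prod.ext_iff.1 hab).1
  rw [h1, h3]
  refine Finset.sum_subset ?_ ?_
  · intro q hq
    obtain ⟨γ, hγ, rfl⟩ := Finset.mem_image.1 hq
    refine hE p hp γ fun t => ?_
    have h9 : γ t < p.1 t + 1 := Finset.mem_range.1 (Fintype.mem_piFinset.1 hγ t)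
    exact Nat.le_of_lt_succ h9
  · intro q _ hq
    have h4 : Z7_T ρ p q = 0 := by
      by_contra h5
      obtain ⟨h6, h7⟩ := Z7_T_ne ρ h5
      refine hq (Finset.mem_image.2 ⟨q.1, ?_, ?_⟩)
      · rw [Fintype.mem_piFinset]
        intro t
        exact Finset.mem_range.2 (Nat.lt_succ_of_le (h7 t))
      · rw [← h6]
    rw [h4, zero_mul]

private theorem Z7_eq {N : ℕ} {β γ : Fin N → ℕ} (h : γ ≤ β) (hs : ∑ t, β t ≤ ∑ t, γ t) :
    γ = β := by
  funext t
  by_contra hne
  have h1 : γ t < β t := lt_of_le_of_ne (h t) hne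
  have h2 : ∑ t, γ t < ∑ t, β t :=
    Finset.sum_lt_sum (fun i _ => h i) ⟨t, Finset.mem_univ t, h1⟩
  omega

private theorem Z7_eq1 {N : ℕ} {β γ : Fin N → ℕ} (h : γ ≤ β) (hs : ∑ t, β t ≤ ∑ t, γ t + 1) :
    γ = β ∨ ∃ t, β = γ + Pi.single t 1 := by
  by_cases hne : γ = β
  · exact Or.inl hne
  · right
    have h0 : ∃ t, γ t < β t := by
      by_contra h1
      push Not at h1
      exact hne (funext fun t => le_antisymm (h t) (h1 t))
    obtain ⟨t, ht⟩ := h0
    refine ⟨t, ?_⟩
    have h2 : γ + Pi.single t 1 ≤ β := by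
      intro b
      rcases eq_or_ne b t with rfl | hb
      · rw [Pi.add_apply, Pi.single_eq_same]
        exact ht
      · rw [Pi.add_apply, Pi.single_eq_of_ne hb, add_zero]
        exact h b
    have h3 : ∑ b, (γ + Pi.single t 1 : Fin N → ℕ) b = ∑ b, γ b + 1 := by
      simp only [Pi.add_apply]
      rw [Finset.sum_add_distrib, Finset.sum_pi_single']
      simp
    exact (Z7_eq h2 (by rw [h3]; exact hs)).symm

private theorem Z7_main {F : Type*} [Field F] [Algebra ℝ F] (σ : F ≃+* F)
    (hconst : ∀ g : F, σ g = g → ∃ r : ℝ, g = algebraMap ℝ F r)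
    {S N : ℕ} (f : Fin S → F) (hf : LinearIndependent ℝ f) (ρ : Fin N → F)
    (hns : ∀ (a : Fin N → ℝ) (g : F), σ g - g = ∑ k, algebraMap ℝ F (a k) * ρ k → a = 0)
    (n : ℕ) : ∀ (E : Finset ((Fin N → ℕ) × Fin S)), E.card = n →
    (∀ p ∈ E, ∀ γ : Fin N → ℕ, γ ≤ p.1 → (γ, p.2) ∈ E) →
    ∀ (c : (Fin N → ℕ) × Fin S → F),
    (∀ l < n, ∑ p ∈ E, c p * Z7_g σ f ρ p l = 0) → ∀ p ∈ E, c p = 0 := by
  classical
  induction n with
  | zero =>
    intro E hEc _ c _ p hp
    rw [Finset.card_eq_zero.1 hEc] at hp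
    exact absurd hp (Finset.notMem_empty p)
  | succ n ih =>
    intro E hEc hE c h
    have hne : E.Nonempty := by
      rw [← Finset.card_pos, hEc]
      omega
    obtain ⟨P, hP, hmax⟩ := Finset.exists_max_image E (fun p => ∑ t, p.1 t) hne
    have hTP : ∀ p ∈ E, ∀ q ∈ E, ∑ t, q.1 t = ∑ t, P.1 t → Z7_T ρ p q ≠ 0 → p = q := by
      intro p hp q _ hq1 hT
      obtain ⟨h6, h7⟩ := Z7_T_ne ρ hT
      have h8 := Z7_eq h7 (by rw [hq1]; exact hmax p hp)
      exact Prod.ext h8.symm h6.symm
    have hE' : ∀ p ∈ E.erase P, ∀ γ : Fin N → ℕ, γ ≤ p.1 → (γ, p.2) ∈ E.erase P := by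
      intro p hp γ hγ
      have hpE := Finset.mem_of_mem_erase hp
      refine Finset.mem_erase.2 ⟨?_, hE p hpE γ hγ⟩
      intro heq
      have h1 : γ = P.1 := congrArg Prod.fst heq
      have h2 : p.2 = P.2 := (Prod.ext_iff.1 heq).2
      have h3 := Z7_eq hγ (by rw [h1]; exact hmax p hpE)
      exact Finset.ne_of_mem_erase hp (Prod.ext (h3.symm.trans h1) h2)
    have hcard' : (E.erase P).card = n := by
      rw [Finset.card_erase_of_mem hP, hEc, Nat.add_sub_cancel]
    have hsplit : ∀ (c : (Fin N → ℕ) × Fin S → F) (g : (Fin N → ℕ) × Fin S → F), c P = 0 →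
        ∑ p ∈ E.erase P, c p * g p = ∑ p ∈ E, c p * g p := by
      intro c g hc
      rw [← Finset.add_sum_erase E (fun p => c p * g p) hP, hc, zero_mul, zero_add]
    by_cases hx : c P = 0
    · have h1 := ih (E.erase P) hcard' hE' c fun l hl => by
        rw [hsplit c (fun p => Z7_g σ f ρ p l) hx]
        exact h l (by omega)
      intro p hp
      by_cases hpP : p = P
      · rw [hpP, hx]
      · exact h1 p (Finset.mem_erase.2 ⟨hpP, hp⟩)
    · exfalso
      set d : (Fin N → ℕ) × Fin S → F := fun p => c p / c P with hd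
      have hR : ∀ l < n + 1, ∑ p ∈ E, d p * Z7_g σ f ρ p l = 0 := by
        intro l hl
        have h1 : ∑ p ∈ E, d p * Z7_g σ f ρ p l = (∑ p ∈ E, c p * Z7_g σ f ρ p l) / c P := by
          rw [Finset.sum_div]
          exact Finset.sum_congr rfl fun i _ => by simp only [hd]; ring
        rw [h1, h l hl, zero_div]
      have hdP : d P = 1 := div_self hx
      set d' : (Fin N → ℕ) × Fin S → F := fun q => ∑ p ∈ E, d p * Z7_T ρ p q with hd'
      have hd'top : ∀ q ∈ E, ∑ t, q.1 t = ∑ t, P.1 t → d' q = d q := by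
        intro q hq hq1
        show ∑ p ∈ E, d p * Z7_T ρ p q = d q
        rw [Finset.sum_eq_single_of_mem q hq, Z7_T_self, mul_one]
        intro p hp hpq
        have h1 : Z7_T ρ p q = 0 := by
          by_contra h2
          exact hpq (hTP p hp q hq hq1 h2)
        rw [h1, mul_zero]
      have hR' : ∀ l < n, ∑ q ∈ E, (d' q - σ (d q)) * σ (Z7_g σ f ρ q l) = 0 := by
        intro l hl
        have e1 := hR (l + 1) (by omega)
        have e0 := congrArg σ (hR l (by omega))
        rw [map_sum, map_zero] at e0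
        have e2 : ∑ p ∈ E, d p * Z7_g σ f ρ p (l + 1) =
            ∑ q ∈ E, d' q * σ (Z7_g σ f ρ q l) := by
          have e3 : ∀ p ∈ E, d p * Z7_g σ f ρ p (l + 1) =
              ∑ q ∈ E, d p * Z7_T ρ p q * σ (Z7_g σ f ρ q l) := by
            intro p hp
            rw [Z7_g_succ σ f ρ E hE hp, Finset.mul_sum]
            exact Finset.sum_congr rfl fun q _ => by ring
          rw [Finset.sum_congr rfl e3, Finset.sum_comm]
          refine Finset.sum_congr rfl fun q _ => ?_
          rw [← Finset.sum_mul]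
        have e4 : ∑ q ∈ E, (d' q - σ (d q)) * σ (Z7_g σ f ρ q l) =
            ∑ p ∈ E, d p * Z7_g σ f ρ p (l + 1) - ∑ q ∈ E, σ (d q * Z7_g σ f ρ q l) := by
          rw [e2, ← Finset.sum_sub_distrib]
          refine Finset.sum_congr rfl fun q _ => ?_
          rw [map_mul]
          ring
        rw [e4, e1, e0, sub_zero]
      have hfix : ∀ q ∈ E, d' q = σ (d q) := by
        have h1 := ih (E.erase P) hcard' hE' (fun q => σ.symm (d' q - σ (d q))) fun l hl => by
          have hPz : σ.symm (d' P - σ (d P)) = 0 := by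
            rw [hd'top P hP rfl, hdP, map_one, sub_self, map_zero]
          rw [hsplit (fun q => σ.symm (d' q - σ (d q))) (fun p => Z7_g σ f ρ p l) hPz]
          have e1 := congrArg σ.symm (hR' l hl)
          rw [map_sum, map_zero] at e1
          rw [← e1]
          refine Finset.sum_congr rfl fun q _ => ?_
          rw [map_mul, RingEquiv.symm_apply_apply]
        intro q hq
        by_cases hqP : q = P
        · rw [hqP, hd'top P hP rfl, hdP, map_one]
        · have h2 := h1 q (Finset.mem_erase.2 ⟨hqP, hq⟩)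
          have h3 := (map_eq_zero_iff σ.symm σ.symm.injective).1 h2
          exact sub_eq_zero.1 h3
      have hreal : ∀ q ∈ E, ∑ t, q.1 t = ∑ t, P.1 t → ∃ r : ℝ, d q = algebraMap ℝ F r := by
        intro q hq hq1
        refine hconst _ ?_
        rw [← hfix q hq, hd'top q hq hq1]
      by_cases hz : ∃ t, P.1 t ≠ 0
      · obtain ⟨t, ht⟩ := hz
        set γ : Fin N → ℕ := Function.update P.1 t (P.1 t - 1) with hγ
        have hγle : γ ≤ P.1 := by
          intro b
          rcases eq_or_ne b t with rfl | hb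
          · rw [hγ, Function.update_self]
            exact Nat.sub_le _ _
          · rw [hγ, Function.update_of_ne hb]
        have hγt : γ + Pi.single t 1 = P.1 := by
          funext b
          rcases eq_or_ne b t with rfl | hb
          · rw [Pi.add_apply, Pi.single_eq_same, hγ, Function.update_self]
            exact Nat.sub_add_cancel (Nat.one_le_iff_ne_zero.2 ht)
          · rw [Pi.add_apply, Pi.single_eq_of_ne hb, hγ, Function.update_of_ne hb, add_zero]
        have hsum : ∀ t', ∑ b, (γ + Pi.single t' 1 : Fin N → ℕ) b = ∑ b, γ b + 1 := by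
          intro t'
          simp only [Pi.add_apply]
          rw [Finset.sum_add_distrib, Finset.sum_pi_single']
          simp
        have hsumP : ∑ b, P.1 b = ∑ b, γ b + 1 := by
          rw [← hγt]
          exact hsum t
        have hq0 : (γ, P.2) ∈ E := hE P hP γ hγle
        set Q : Fin N → (Fin N → ℕ) × Fin S := fun t' => (γ + Pi.single t' 1, P.2) with hQ
        have hQinj : Function.Injective Q := by
          intro a b hab
          have h1 : γ + Pi.single a 1 = γ + Pi.single b 1 := congrArg Prod.fst hab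
          have h2 := congrFun (add_left_cancel h1) a
          rw [Pi.single_eq_same] at h2
          by_contra hne'
          rw [Pi.single_eq_of_ne hne'] at h2
          exact one_ne_zero h2
        have hex : ∀ t', ∃ r : ℝ, (if Q t' ∈ E then d (Q t') else 0) = algebraMap ℝ F r := by
          intro t'
          by_cases hm : Q t' ∈ E
          · rw [if_pos hm]
            exact hreal _ hm ((hsum t').trans hsumP.symm)
          · rw [if_neg hm]
            exact ⟨0, (map_zero _).symm⟩
        choose r hr using hex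
        have hTQ : ∀ t', Z7_T ρ (Q t') (γ, P.2) = ((γ t' + 1 : ℕ) : F) * ρ t' := by
          intro t'
          unfold Z7_T
          rw [if_pos rfl]
          exact Z7_K_succ ρ γ t'
        have hd'q : d' (γ, P.2) = d (γ, P.2) +
            ∑ t', algebraMap ℝ F (r t' * (γ t' + 1 : ℕ)) * ρ t' := by
          show ∑ p ∈ E, d p * Z7_T ρ p (γ, P.2) = _
          rw [← Finset.add_sum_erase E _ hq0, Z7_T_self, mul_one]
          congr 1
          have h1 : ∑ p ∈ (Finset.univ.image Q).filter (fun p => p ∈ E),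
              d p * Z7_T ρ p (γ, P.2) = ∑ p ∈ E.erase (γ, P.2), d p * Z7_T ρ p (γ, P.2) := by
            refine Finset.sum_subset ?_ ?_
            · intro p hp
              obtain ⟨hp1, hp2⟩ := Finset.mem_filter.1 hp
              obtain ⟨t', _, rfl⟩ := Finset.mem_image.1 hp1
              refine Finset.mem_erase.2 ⟨?_, hp2⟩
              intro heq
              have h2 : γ + Pi.single t' 1 = γ := congrArg Prod.fst heq
              have h3 := hsum t'
              rw [h2] at h3
              omega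
            · intro p hp hp'
              have hpE := Finset.mem_of_mem_erase hp
              have h4 : Z7_T ρ p (γ, P.2) = 0 := by
                by_contra h5
                obtain ⟨h6, h7⟩ := Z7_T_ne ρ h5
                have h8 : ∑ b, p.1 b ≤ ∑ b, γ b + 1 := by
                  rw [← hsumP]
                  exact hmax p hpE
                rcases Z7_eq1 h7 h8 with h9 | ⟨t', h9⟩
                · exact Finset.ne_of_mem_erase hp (Prod.ext h9.symm h6.symm)
                · have h10 : p = Q t' := Prod.ext h9 h6.symm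
                  refine hp' (Finset.mem_filter.2 ⟨Finset.mem_image.2 ⟨t', Finset.mem_univ _,
                    h10.symm⟩, hpE⟩)
              rw [h4, mul_zero]
          rw [← h1, Finset.sum_filter, Finset.sum_image (fun a _ b _ hab => hQinj hab)]
          refine Finset.sum_congr rfl fun t' _ => ?_
          rw [map_mul, ← hr t', hTQ, map_natCast]
          split_ifs
          · ring
          · ring
        have h1 := hfix _ hq0
        rw [hd'q] at h1
        have h2 := hns (fun t' => r t' * (γ t' + 1 : ℕ)) (d (γ, P.2))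
          (by linear_combination -h1)
        have h3 : r t * (γ t + 1 : ℕ) = 0 := congrFun h2 t
        have h4 : r t = 0 := by
          rcases mul_eq_zero.1 h3 with h5 | h5
          · exact h5
          · exact absurd h5 (Nat.cast_ne_zero.2 (Nat.succ_ne_zero _))
        have h5 := hr t
        have h6 : Q t = P := Prod.ext hγt rfl
        rw [h6, if_pos hP, hdP, h4, map_zero] at h5
        exact one_ne_zero h5
      · push Not at hz
        have hall : ∀ p ∈ E, p.1 = 0 := by
          intro p hp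
          have h1 := hmax p hp
          rw [Finset.sum_eq_zero fun t _ => hz t] at h1
          funext t
          have h2 : p.1 t ≤ ∑ b, p.1 b :=
            Finset.single_le_sum (f := fun b => p.1 b) (fun _ _ => Nat.zero_le _)
              (Finset.mem_univ t)
          show p.1 t = 0
          omega
        have hPz : P.1 = 0 := hall P hP
        have hex : ∀ i : Fin S, ∃ r : ℝ,
            (if ((0 : Fin N → ℕ), i) ∈ E then d (0, i) else 0) = algebraMap ℝ F r := by
          intro i
          by_cases hm : ((0 : Fin N → ℕ), i) ∈ E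
          · rw [if_pos hm]
            exact hreal _ hm (by rw [hPz])
          · rw [if_neg hm]
            exact ⟨0, (map_zero _).symm⟩
        choose r hr using hex
        have h0 := hR 0 (by omega)
        have hEi : E = (Finset.univ.image fun i : Fin S => ((0 : Fin N → ℕ), i)).filter
            (fun p => p ∈ E) := by
          ext p
          constructor
          · intro hp
            exact Finset.mem_filter.2 ⟨Finset.mem_image.2 ⟨p.2, Finset.mem_univ _,
              Prod.ext (hall p hp).symm rfl⟩, hp⟩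
          · intro hp
            exact (Finset.mem_filter.1 hp).2
        have h1 : ∑ i, r i • f i = 0 := by
          have h2 : ∑ p ∈ E, d p * Z7_g σ f ρ p 0 =
              ∑ i : Fin S, (if ((0 : Fin N → ℕ), i) ∈ E then d (0, i) else 0) * f i := by
            conv_lhs => rw [hEi]
            rw [Finset.sum_filter, Finset.sum_image (fun a _ b _ hab => (Prod.ext_iff.1 hab).2)]
            refine Finset.sum_congr rfl fun i _ => ?_
            have h3 : Z7_g σ f ρ ((0 : Fin N → ℕ), i) 0 = f i := by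
              unfold Z7_g
              simp
            rw [h3]
            split_ifs
            · rfl
            · rw [zero_mul]
          rw [← h0, h2]
          exact Finset.sum_congr rfl fun i _ => by rw [hr i, Algebra.smul_def]
        have h4 := Fintype.linearIndependent_iff.1 hf r h1 P.2
        have h5 := hr P.2
        have h6 : ((0 : Fin N → ℕ), P.2) = P := Prod.ext hPz.symm rfl
        rw [h6, if_pos hP, hdP, h4, map_zero] at h5
        exact one_ne_zero h5

theorem cas4 {F : Type*} [Field F] [Algebra ℝ F] (σ : F ≃+* F)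
    (hσ : ∀ r : ℝ, σ (algebraMap ℝ F r) = algebraMap ℝ F r)
    (hconst : ∀ g : F, σ g = g → ∃ r : ℝ, g = algebraMap ℝ F r)
    {S N : ℕ} (f : Fin S → F) (hf : LinearIndependent ℝ f) (ρ : Fin N → F)
    (hns : ∀ (a : Fin N → ℝ) (g : F), σ g - g = ∑ k, algebraMap ℝ F (a k) * ρ k → a = 0)
    (E : Finset ((Fin N → ℕ) × Fin S))
    (hE : ∀ p ∈ E, ∀ γ : Fin N → ℕ, γ ≤ p.1 → (γ, p.2) ∈ E)
    (c : (Fin N → ℕ) × Fin S → F)
    (h : ∀ l < E.card, ∑ p ∈ E, c p *
      (∏ t, (∑ l' ∈ range l, (⇑σ)^[l'] (ρ t)) ^ p.1 t) * (⇑σ)^[l] (f p.2) = 0) :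
    ∀ p ∈ E, c p = 0 := by
  refine Z7_main σ hconst f hf ρ hns E.card E rfl hE c fun l hl => ?_
  rw [← h l hl]
  refine Finset.sum_congr rfl fun p _ => ?_
  unfold Z7_g Z7_A
  rw [mul_assoc]

end CM68
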