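import Pool.Agent.LibCM68.Z2
import Pool.Agent.LibCM68.Z4a
import Pool.Agent.LibCM2.C1
import Pool.Agent.LibCM2.Z7

/-!
# Row Z8: the zero estimate (STRONG; template LibCM68/Z4.lean, proved)

Suppose `u ≠ 0`.  `S' = finrank W ≤ S`, `f : Fin S' → ℝ[X]` a basis of `W` with `f i₀ = u` (extend the independent family `{u}`; or
any basis, and replace one basis vector with non-zero coordinate by `u`).  `E = {(β, i) : ∑ β < e} ∪ {(β, i₀) : ∑ β = e}`,
closed downwards, `L = card E ≤ card (expo N e) * S`; `Cs = univ.image cs` (`card ≤ N`), `Δ = DP q T w L Cs`.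
Matrix with rows `l < L` and columns `(β, i) ∈ E`: `taylor (l q) (f i) * ∏ t, (g t l)^(β t) * Δ^(e - ∑ β)`, `g t l` from `DP_sum` for
`k = ks t`, `c = cs t`; degree `≤ d₁ + e * (w * L * N)`.
For a node `j ∈ P q (n - L) I` expand the relation at `j + q l` with `ps q T k (j + q l + c) = ps q T k (j + c) + A t l`
(`ps_shift`), `A t l = ∑_{l' < l} 1 / (j + (c + q (T + 1 + l')))^k`, in powers of the `A t l` (binomial theorem): coefficient of
`A^γ`: `∑ γ = e`: `α γ x * u(j + q l)`; `∑ γ < e`: `z γ (j + q l)` with `z γ = ∑_{β ≥ γ, ∑ β < e} bn * p^(β-γ) • w' x β +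
∑_{β ≥ γ, ∑ β = e} (bn * p^(β-γ) * α β x) • u ∈ W`, `p t = ps q T (ks t) (j + cs t)` real numbers.  So the vector with the coordinates of the `z γ`
and the `α γ x` (not all zero) is in the kernel of the matrix at `y = j` (`taylor_eval`; all multiplied by `Δ(j)^e`).
So the determinant vanishes at `I.card (n - L)` nodes (`card_nodes`) and is `0`.  In `F = FractionRing ℝ[X]` there is a vector
`c' ≠ 0` on `E` with `∑ c' (β, i) * algebraMap (..) = 0` for all `l < L`; `cas4` with `σ = SG q`,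
`ρ t = 1 / algebraMap (X + C (c + q (T+1)))^k`, `c p = algebraMap Δ ^ e * c' p` gives `c = 0`, a contradiction
(`hns` from `nonsum` with `Φ = univ.image (fun t => (ks t, cs t))` and `hinj`).
-/

namespace CM68

open Finset Polynomial

private theorem Z8_det_deg {ι : Type*} [Fintype ι] [DecidableEq ι] (M : Matrix ι ι ℝ[X]) (b : ℕ)
    (h : ∀ i j, (M i j).natDegree ≤ b) : M.det.natDegree ≤ Fintype.card ι * b := by
  rw [Matrix.det_apply']
  refine natDegree_sum_le_of_forall_le _ _ ?_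
  intro σ _
  refine natDegree_mul_le.trans ?_
  rw [natDegree_intCast, zero_add]
  refine (natDegree_prod_le _ _).trans ?_
  refine (Finset.sum_le_sum fun j _ => h _ _).trans ?_
  simp

private theorem Z8_iter (h : ℝ) (p : ℝ[X]) (l : ℕ) :
    (⇑(SG h))^[l] (algebraMap ℝ[X] (FractionRing ℝ[X]) p) =
      algebraMap ℝ[X] (FractionRing ℝ[X]) (taylor (h * l) p) := by
  induction l with
  | zero => simp
  | succ l ih =>
    rw [Function.iterate_succ_apply', ih, SG_alg, taylor_taylor]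
    congr 2
    push_cast
    congr 1
    ring

private theorem Z8_iter_rho (h y : ℝ) (k l : ℕ) :
    (⇑(SG h))^[l] (1 / algebraMap ℝ[X] (FractionRing ℝ[X]) (X + C y) ^ k) =
      1 / algebraMap ℝ[X] (FractionRing ℝ[X]) (X + C (y + h * l)) ^ k := by
  induction l with
  | zero => simp
  | succ l ih =>
    rw [Function.iterate_succ_apply', ih, map_div₀, map_one, map_pow, SG_alg, map_add, taylor_X, taylor_C]
    congr 3
    rw [add_assoc, ← C_add]
    congr 2
    push_cast
    ring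

/-- the entries of the matrix -/
private noncomputable def Z8_m (h : ℝ) {S' N : ℕ} (e : ℕ) (f : Fin S' → ℝ[X]) (Δ : ℝ[X])
    (g : Fin N → ℕ → ℝ[X]) (l : ℕ) (p : (Fin N → ℕ) × Fin S') : ℝ[X] :=
  taylor (h * l) (f p.2) * ((∏ t, g t l ^ p.1 t) * Δ ^ (e - ∑ t, p.1 t))

/-- the matrix -/
private noncomputable def Z8_M (h : ℝ) {S' N : ℕ} (e : ℕ) (f : Fin S' → ℝ[X]) (Δ : ℝ[X])
    (g : Fin N → ℕ → ℝ[X]) (E : Finset ((Fin N → ℕ) × Fin S')) : Matrix E E ℝ[X] :=
  fun a b => Z8_m h e f Δ g ((E.equivFin a : Fin E.card) : ℕ) b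

private theorem Z8_m_alg (h : ℝ) {S' N : ℕ} (e : ℕ) (f : Fin S' → ℝ[X]) (Δ : ℝ[X])
    (g : Fin N → ℕ → ℝ[X]) (l : ℕ) (p : (Fin N → ℕ) × Fin S') (hp : ∑ t, p.1 t ≤ e)
    {F : Type*} [CommRing F] (A : ℝ[X] →+* F) (Z : Fin N → F)
    (hZ : ∀ t, A (g t l) = A Δ * Z t) :
    A (Z8_m h e f Δ g l p) = A Δ ^ e * ((∏ t, Z t ^ p.1 t) * A (taylor (h * l) (f p.2))) := by
  unfold Z8_m
  have h1 : ∏ t, A (g t l) ^ p.1 t = A Δ ^ (∑ t, p.1 t) * ∏ t, Z t ^ p.1 t := by
    rw [← Finset.prod_pow_eq_pow_sum, ← Finset.prod_mul_distrib]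
    refine Finset.prod_congr rfl fun t _ => ?_
    rw [hZ t, mul_pow]
  rw [map_mul, map_mul, map_prod, map_pow]
  simp only [map_pow]
  rw [h1]
  have h2 : A Δ ^ e = A Δ ^ (∑ t, p.1 t) * A Δ ^ (e - ∑ t, p.1 t) := by
    rw [← pow_add, Nat.add_sub_cancel' hp]
  rw [h2]
  ring

private theorem Z8_det_ne {q T S' N e : ℕ} (hq : 1 ≤ q) (f : Fin S' → ℝ[X])
    (hf : LinearIndependent ℝ f) (ks cs : Fin N → ℕ)
    (hφ : Function.Injective fun i => (ks i, cs i)) (h1 : ∀ i, 1 ≤ ks i) (hC : ∀ i, cs i < q)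
    (E : Finset ((Fin N → ℕ) × Fin S'))
    (hE : ∀ p ∈ E, ∀ γ : Fin N → ℕ, γ ≤ p.1 → (γ, p.2) ∈ E)
    (hEe : ∀ p ∈ E, ∑ t, p.1 t ≤ e)
    (Δ : ℝ[X]) (hΔ : Δ ≠ 0) (g : Fin N → ℕ → ℝ[X])
    (hg : ∀ t, ∀ l < E.card, algebraMap ℝ[X] (FractionRing ℝ[X]) (g t l) =
      algebraMap ℝ[X] (FractionRing ℝ[X]) Δ * ∑ l' ∈ range l,
        1 / algebraMap ℝ[X] (FractionRing ℝ[X])
          (X + C ((cs t : ℝ) + (q : ℝ) * (T + 1 + l'))) ^ ks t) :
    (Z8_M (q : ℝ) e f Δ g E).det ≠ 0 := by
  classical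
  intro hdet
  have hq0 : (0 : ℝ) < q := by exact_mod_cast hq
  set A := algebraMap ℝ[X] (FractionRing ℝ[X]) with hA
  have hdet2 : (A.mapMatrix (Z8_M (q : ℝ) e f Δ g E)).det = 0 := by
    rw [← RingHom.map_det, hdet, map_zero]
  obtain ⟨v, hv0, hv⟩ := Matrix.exists_mulVec_eq_zero_iff.2 hdet2
  have hAinj : Function.Injective A := IsFractionRing.injective ℝ[X] (FractionRing ℝ[X])
  have hΔ' : A Δ ≠ 0 := by
    intro h0
    exact hΔ (hAinj (by rw [h0, map_zero]))
  have hlin : LinearIndependent ℝ (fun i => A (f i)) := by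
    have h2 := hf.map' (IsScalarTower.toAlgHom ℝ ℝ[X] (FractionRing ℝ[X])).toLinearMap
      (LinearMap.ker_eq_bot.2 (fun x y hxy => hAinj hxy))
    exact h2
  have key := cas4 (SG (q : ℝ)) (SG_real (q : ℝ)) (SG_const hq0) (fun i => A (f i)) hlin
    (fun t : Fin N => 1 / A (X + C ((cs t : ℝ) + (q : ℝ) * (T + 1))) ^ ks t)
    (by
      intro a g' hg'
      have h3 := nonsum hq0 ((q : ℝ) * (T + 1)) (univ.image fun i => (ks i, cs i))
        (by
          intro p hp
          obtain ⟨i, _, rfl⟩ := mem_image.1 hp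
          exact h1 i)
        (by
          intro p hp
          obtain ⟨i, _, rfl⟩ := mem_image.1 hp
          exact_mod_cast hC i)
        (Function.extend (fun i => (ks i, cs i)) a 0) g'
        (by
          rw [hg', sum_image hφ.injOn]
          apply Finset.sum_congr rfl
          intro k _
          rw [hφ.extend_apply])
      funext k
      have h4 := h3 (ks k, cs k) (mem_image_of_mem (fun i => (ks i, cs i)) (mem_univ k))
      have h5 := hφ.extend_apply a 0 k
      rw [h5] at h4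
      exact h4)
    E hE (fun p => if hp : p ∈ E then A Δ ^ e * v ⟨p, hp⟩ else 0)
    (by
      intro l hl
      have h5 := congrFun hv (E.equivFin.symm ⟨l, hl⟩)
      rw [Matrix.mulVec, dotProduct, Pi.zero_apply] at h5
      rw [← h5]
      rw [← Finset.sum_coe_sort E]
      apply Finset.sum_congr rfl
      intro b _
      rw [dif_pos b.2]
      have h6 : ∀ (t : Fin N) (l' : ℕ),
          (⇑(SG (q : ℝ)))^[l'] (1 / A (X + C ((cs t : ℝ) + (q : ℝ) * (T + 1))) ^ ks t)
            = 1 / A (X + C ((cs t : ℝ) + (q : ℝ) * (T + 1 + l'))) ^ ks t := by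
        intro t l'
        rw [Z8_iter_rho]
        congr 5
        ring
      simp only [h6]
      have h7 : (Z8_M (q : ℝ) e f Δ g E) (E.equivFin.symm ⟨l, hl⟩) b =
          Z8_m (q : ℝ) e f Δ g l b := by
        simp [Z8_M]
      rw [RingHom.mapMatrix_apply, Matrix.map_apply, h7,
        Z8_m_alg (q : ℝ) e f Δ g l b (hEe b b.2) A _ (fun t => hg t l hl), Z8_iter]
      ring)
  apply hv0
  funext b
  have h8 := key b b.2
  rw [dif_pos b.2] at h8
  simp only [mul_eq_zero] at h8
  rcases h8 with h8 | h8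
  · exact absurd h8 (pow_ne_zero _ hΔ')
  · exact h8

private theorem Z8_basis (W : Submodule ℝ ℝ[X]) [Module.Finite ℝ W] (u : ℝ[X]) (hu : u ∈ W)
    (hu0 : u ≠ 0) : ∃ (S' : ℕ) (f : Fin S' → ℝ[X]) (i₀ : Fin S'), S' = Module.finrank ℝ W ∧
      LinearIndependent ℝ f ∧ (∀ i, f i ∈ W) ∧
      (∀ p ∈ W, ∃ ν : Fin S' → ℝ, p = ∑ i, ν i • f i) ∧ f i₀ = u := by
  classical
  let u' : W := ⟨u, hu⟩
  have hu' : u' ≠ 0 := fun h => hu0 (congrArg Subtype.val h)
  have hli : LinearIndepOn ℝ id ({u'} : Set W) := LinearIndepOn.singleton hu'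
  let b := Module.Basis.extend hli
  have hmem : u' ∈ hli.extend (Set.subset_univ ({u'} : Set W)) :=
    hli.subset_extend _ (Set.mem_singleton u')
  have : Fintype (hli.extend (Set.subset_univ ({u'} : Set W))) :=
    FiniteDimensional.fintypeBasisIndex b
  have hcard := Module.finrank_eq_card_basis b
  let ε := Fintype.equivFinOfCardEq hcard.symm
  let b' := b.reindex ε
  refine ⟨_, fun i => (b' i : ℝ[X]), ε ⟨u', hmem⟩, rfl, ?_, fun i => (b' i).2, ?_, ?_⟩
  · exact b'.linearIndependent.map' W.subtype (Submodule.ker_subtype W)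
  · intro p hp
    refine ⟨fun i => b'.repr ⟨p, hp⟩ i, ?_⟩
    have h1 := congrArg (W.subtype) (b'.sum_repr ⟨p, hp⟩)
    rw [map_sum] at h1
    simp only [map_smul, Submodule.subtype_apply] at h1
    exact h1.symm
  · have h2 : b' (ε ⟨u', hmem⟩) = u' := by
      rw [Module.Basis.reindex_apply, Equiv.symm_apply_apply]
      exact Module.Basis.extend_apply_self hli ⟨u', hmem⟩
    exact congrArg Subtype.val h2

/-- the coefficients of the expansion -/
private noncomputable def Z8_B {N : ℕ} (p : Fin N → ℝ) (β γ : Fin N → ℕ) : ℝ :=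
  ∏ t, (((β t).choose (γ t) : ℕ) : ℝ) * p t ^ (β t - γ t)

private theorem Z8_B_zero {N : ℕ} (p : Fin N → ℝ) (β γ : Fin N → ℕ) (h : ∃ t, β t < γ t) :
    Z8_B p β γ = 0 := by
  obtain ⟨t, ht⟩ := h
  refine Finset.prod_eq_zero (Finset.mem_univ t) ?_
  rw [Nat.choose_eq_zero_of_lt ht, Nat.cast_zero, zero_mul]

private theorem Z8_B_self {N : ℕ} (p : Fin N → ℝ) (β : Fin N → ℕ) : Z8_B p β β = 1 := by
  refine Finset.prod_eq_one fun t _ => ?_
  rw [Nat.choose_self, Nat.sub_self, pow_zero, Nat.cast_one, one_mul]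

private theorem Z8_B_top {N : ℕ} (p : Fin N → ℝ) (β γ : Fin N → ℕ) (h : ∑ t, β t ≤ ∑ t, γ t)
    (hne : β ≠ γ) : Z8_B p β γ = 0 := by
  apply Z8_B_zero
  by_contra hcon
  push Not at hcon
  apply hne
  have h1 : ∑ t, β t = ∑ t, γ t := le_antisymm h (Finset.sum_le_sum fun t _ => hcon t)
  have h2 := (Finset.sum_eq_sum_iff_of_le (fun t (_ : t ∈ (univ : Finset (Fin N))) => hcon t)).1 h1.symm
  funext t
  exact (h2 t (mem_univ t)).symm

private theorem Z8_expand {N e : ℕ} (p A : Fin N → ℝ) (β : Fin N → ℕ) (hβ : β ∈ expo N e) :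
    ∏ t, (p t + A t) ^ β t = ∑ γ ∈ expo N e, Z8_B p β γ * ∏ t, A t ^ γ t := by
  classical
  have h1 : ∏ t, (p t + A t) ^ β t = ∑ γ ∈ Fintype.piFinset (fun t => range (β t + 1)),
      Z8_B p β γ * ∏ t, A t ^ γ t := by
    have h2 : ∀ t, (p t + A t) ^ β t = ∑ m ∈ range (β t + 1),
        (((β t).choose m : ℕ) : ℝ) * p t ^ (β t - m) * A t ^ m := by
      intro t
      rw [add_comm, add_pow]
      refine Finset.sum_congr rfl fun m _ => ?_
      ring
    simp_rw [h2]
    rw [Finset.prod_univ_sum]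
    refine Finset.sum_congr rfl fun γ _ => ?_
    unfold Z8_B
    rw [← Finset.prod_mul_distrib]
  rw [h1]
  refine Finset.sum_subset ?_ ?_
  · intro γ hγ
    rw [Fintype.mem_piFinset] at hγ
    rw [mem_expo] at hβ ⊢
    refine le_trans (Finset.sum_le_sum fun t _ => ?_) hβ
    have := mem_range.1 (hγ t)
    omega
  · intro γ _ hγ
    rw [Fintype.mem_piFinset] at hγ
    push Not at hγ
    obtain ⟨t, ht⟩ := hγ
    rw [mem_range, not_lt] at ht
    rw [Z8_B_zero p β γ ⟨t, by omega⟩, zero_mul]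

private theorem Z8_rel {N e : ℕ} (p A : Fin N → ℝ) (α w : (Fin N → ℕ) → ℝ) (U : ℝ) :
    (∑ β ∈ (expo N e).filter (fun β => ∑ i, β i = e), α β * ∏ t, (p t + A t) ^ β t) * U +
      ∑ β ∈ (expo N e).filter (fun β => ∑ i, β i < e), w β * ∏ t, (p t + A t) ^ β t =
    ∑ γ ∈ expo N e, (∏ t, A t ^ γ t) *
      ((∑ β ∈ (expo N e).filter (fun β => ∑ i, β i = e), α β * Z8_B p β γ) * U +
        ∑ β ∈ (expo N e).filter (fun β => ∑ i, β i < e), w β * Z8_B p β γ) := by
  have h1 : ∀ (s : Finset (Fin N → ℕ)) (hs : s ⊆ expo N e) (c : (Fin N → ℕ) → ℝ),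
      ∑ β ∈ s, c β * ∏ t, (p t + A t) ^ β t =
        ∑ γ ∈ expo N e, (∏ t, A t ^ γ t) * ∑ β ∈ s, c β * Z8_B p β γ := by
    intro s hs c
    have h2 : ∀ β ∈ s, c β * ∏ t, (p t + A t) ^ β t =
        ∑ γ ∈ expo N e, (∏ t, A t ^ γ t) * (c β * Z8_B p β γ) := by
      intro β hβ
      rw [Z8_expand p A β (hs hβ), Finset.mul_sum]
      refine Finset.sum_congr rfl fun γ _ => ?_
      ring
    rw [Finset.sum_congr rfl h2, Finset.sum_comm]
    refine Finset.sum_congr rfl fun γ _ => ?_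
    rw [Finset.mul_sum]
  rw [h1 _ (filter_subset _ _), h1 _ (filter_subset _ _), Finset.sum_mul, ← Finset.sum_add_distrib]
  refine Finset.sum_congr rfl fun γ _ => ?_
  ring

theorem zeroW2 {q n d₁ w T S e N : ℕ} (hq : 1 ≤ q) {I : Finset ℕ} (hI : ∀ x ∈ I, x < q)
    (ks cs : Fin N → ℕ) (hk : ∀ i, 1 ≤ ks i ∧ ks i ≤ w) (hc : ∀ i, cs i < q)
    (hinj : Function.Injective fun i => (ks i, cs i))
    (W : Submodule ℝ ℝ[X]) [Module.Finite ℝ W] (hS : Module.finrank ℝ W ≤ S)
    (hW : ∀ p ∈ W, p.natDegree ≤ d₁) (u : ℝ[X]) (hu : u ∈ W)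
    (w' : ℕ → (Fin N → ℕ) → ℝ[X]) (hw' : ∀ x ∈ I, ∀ β, w' x β ∈ W)
    (α : (Fin N → ℕ) → ℕ → ℝ) (hα : ∀ x ∈ I, ∃ β ∈ expo N e, ∑ i, β i = e ∧ α β x ≠ 0)
    (hrel : ∀ j ∈ P q n I,
      (∑ β ∈ (expo N e).filter (fun β => ∑ i, β i = e),
        α β (j % q) * ∏ i, ps q T (ks i) (j + cs i) ^ β i) * u.eval (j : ℝ) +
      ∑ β ∈ (expo N e).filter (fun β => ∑ i, β i < e),
        (w' (j % q) β).eval (j : ℝ) * ∏ i, ps q T (ks i) (j + cs i) ^ β i = 0)
    (hcount : (expo N e).card * S * (d₁ + e * (w * ((expo N e).card * S) * N)) +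
      I.card * ((expo N e).card * S) < I.card * n) :
    u = 0 := by
  by_contra hu0
  classical
  obtain ⟨S', f, i₀, hS', hlin, hfW, hrep, hfi⟩ := Z8_basis W u hu hu0
  rw [← hS'] at hS
  -- the index set
  set E : Finset ((Fin N → ℕ) × Fin S') :=
    (expo N e ×ˢ (univ : Finset (Fin S'))).filter (fun p => ∑ t, p.1 t < e ∨ p.2 = i₀) with hEdef
  have hmemE : ∀ p : (Fin N → ℕ) × Fin S', p ∈ E ↔ ∑ t, p.1 t ≤ e ∧ (∑ t, p.1 t < e ∨ p.2 = i₀) := by
    intro p
    rw [hEdef, mem_filter, mem_product, mem_expo]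
    simp
  have hEd : ∀ p ∈ E, ∀ γ : Fin N → ℕ, γ ≤ p.1 → (γ, p.2) ∈ E := by
    intro p hp γ hγ
    rw [hmemE] at hp ⊢
    have h1 : ∑ t, γ t ≤ ∑ t, p.1 t := Finset.sum_le_sum fun t _ => hγ t
    refine ⟨h1.trans hp.1, ?_⟩
    rcases hp.2 with h2 | h2
    · exact Or.inl (lt_of_le_of_lt h1 h2)
    · exact Or.inr h2
  have hEe : ∀ p ∈ E, ∑ t, p.1 t ≤ e := fun p hp => ((hmemE p).1 hp).1
  set L := E.card with hL
  have hLS : L ≤ (expo N e).card * S := by
    rw [hL, hEdef]
    refine (card_filter_le _ _).trans ?_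
    rw [card_product, card_univ, Fintype.card_fin]
    exact Nat.mul_le_mul_left _ hS
  set Cs : Finset ℕ := univ.image cs with hCs
  have hCsN : Cs.card ≤ N := by
    refine card_image_le.trans ?_
    simp
  set Δ := DP q T w L Cs with hΔ
  have hg : ∀ t : Fin N, ∀ l : ℕ, ∃ g : ℝ[X], l ≤ L → g.natDegree ≤ w * L * Cs.card ∧
      algebraMap ℝ[X] (FractionRing ℝ[X]) g = algebraMap ℝ[X] (FractionRing ℝ[X]) Δ *
        ∑ l' ∈ range l, 1 / algebraMap ℝ[X] (FractionRing ℝ[X])
          (X + C ((cs t : ℝ) + (q : ℝ) * (T + 1 + l'))) ^ ks t ∧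
      ∀ y : ℝ, 0 ≤ y → g.eval y = Δ.eval y *
          ∑ l' ∈ range l, 1 / (y + ((cs t : ℝ) + (q : ℝ) * (T + 1 + l'))) ^ ks t := by
    intro t l
    by_cases hl : l ≤ L
    · obtain ⟨g, h⟩ := DP_sum (T := T) (k := ks t) (c := cs t) (Cs := Cs) hq (hk t).2 hl
        (mem_image_of_mem cs (mem_univ t))
      exact ⟨g, fun _ => h⟩
    · exact ⟨0, fun h => absurd h hl⟩
  choose g hg using hg
  have hne := Z8_det_ne (T := T) (e := e) hq f hlin ks cs hinj (fun i => (hk i).1) hc E hEd hEe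
    Δ (DP_ne q T w L Cs) g (fun t l hl => (hg t l hl.le).2.1)
  -- the degree
  have hfd : ∀ i, (f i).natDegree ≤ d₁ := fun i => hW _ (hfW i)
  have hdeg : (Z8_M (q : ℝ) e f Δ g E).det.natDegree ≤ L * (d₁ + e * (w * L * Cs.card)) := by
    refine (Z8_det_deg _ (d₁ + e * (w * L * Cs.card)) ?_).trans ?_
    · intro a b
      unfold Z8_M Z8_m
      refine natDegree_mul_le.trans ?_
      rw [natDegree_taylor]
      refine add_le_add (hfd _) ?_
      refine natDegree_mul_le.trans ?_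
      have h1 : (∏ t, g t ((E.equivFin a : Fin E.card) : ℕ) ^ (b : (Fin N → ℕ) × Fin S').1 t).natDegree
          ≤ (∑ t, (b : (Fin N → ℕ) × Fin S').1 t) * (w * L * Cs.card) := by
        refine (natDegree_prod_le _ _).trans ?_
        rw [Finset.sum_mul]
        refine Finset.sum_le_sum fun t _ => ?_
        refine natDegree_pow_le.trans ?_
        exact Nat.mul_le_mul_left _ (hg t _ (E.equivFin a).2.le).1
      have h2 : (Δ ^ (e - ∑ t, (b : (Fin N → ℕ) × Fin S').1 t)).natDegree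
          ≤ (e - ∑ t, (b : (Fin N → ℕ) × Fin S').1 t) * (w * L * Cs.card) := by
        refine natDegree_pow_le.trans ?_
        exact Nat.mul_le_mul_left _ (DP_natDegree q T w L Cs)
      refine (add_le_add h1 h2).trans ?_
      rw [← add_mul, Nat.add_sub_cancel' (hEe _ b.2)]
    · rw [Fintype.card_coe]
  -- the zeros
  apply hne
  apply eq_zero_of_natDegree_lt_card_of_eval_eq_zero' _ ((P q (n - L) I).image (Nat.cast : ℕ → ℝ))
  · intro y hy
    obtain ⟨j, hj, rfl⟩ := mem_image.1 hy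
    have hj' := mem_filter.1 hj
    have hjI : j % q ∈ I := hj'.2
    have hjq : j < q * (n - L) := mem_range.1 hj'.1
    have hj0 : (0 : ℝ) ≤ (j : ℝ) := Nat.cast_nonneg j
    have hmap : eval (j : ℝ) (Z8_M (q : ℝ) e f Δ g E).det =
        ((evalRingHom (j : ℝ)).mapMatrix (Z8_M (q : ℝ) e f Δ g E)).det := by
      rw [← RingHom.map_det]
      rfl
    rw [hmap]
    apply Matrix.exists_mulVec_eq_zero_iff.1
    set x := j % q with hx
    set pp : Fin N → ℝ := fun t => ps q T (ks t) (j + cs t) with hpp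
    set e1 := (expo N e).filter (fun β => ∑ i, β i = e) with he1
    set e2 := (expo N e).filter (fun β => ∑ i, β i < e) with he2
    set z : (Fin N → ℕ) → ℝ[X] := fun γ =>
      (∑ β ∈ e1, α β x * Z8_B pp β γ) • u + ∑ β ∈ e2, Z8_B pp β γ • w' x β with hz
    have hzW : ∀ γ, z γ ∈ W := by
      intro γ
      refine W.add_mem (W.smul_mem _ hu) (W.sum_mem fun β _ => W.smul_mem _ (hw' x hjI β))
    choose ζ hζ using fun γ => hrep (z γ) (hzW γ)
    refine ⟨fun b => if ∑ t, (b : (Fin N → ℕ) × Fin S').1 t < e then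
      ζ (b : (Fin N → ℕ) × Fin S').1 (b : (Fin N → ℕ) × Fin S').2
      else α (b : (Fin N → ℕ) × Fin S').1 x, ?_, ?_⟩
    · obtain ⟨β, hβ, hβe, hβ0⟩ := hα x hjI
      intro h0
      have h1 : (β, i₀) ∈ E := (hmemE _).2 ⟨hβe.le, Or.inr rfl⟩
      have h2 := congrFun h0 ⟨(β, i₀), h1⟩
      simp only [Pi.zero_apply] at h2
      rw [if_neg (by rw [hβe]; exact lt_irrefl e)] at h2
      exact hβ0 h2
    · funext a
      rw [Matrix.mulVec, dotProduct, Pi.zero_apply]
      set l : ℕ := ((E.equivFin a : Fin E.card) : ℕ) with hl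
      have hlL : l < L := (E.equivFin a).2
      have hlq : j + q * l < q * n := by
        have h3 : q * (n - L) + q * l = q * (n - L + l) := by ring
        have h4 : n - L + l ≤ n := by
          have h5 : 0 < n - L := by
            by_contra h6
            have h7 : n - L = 0 := by omega
            rw [h7, mul_zero] at hjq
            omega
          omega
        have h5 : q * (n - L + l) ≤ q * n := Nat.mul_le_mul_left _ h4
        omega
      have hmod : (j + q * l) % q = x := Nat.add_mul_mod_self_left j q l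
      have hmem : j + q * l ∈ P q n I := by
        refine mem_filter.2 ⟨mem_range.2 hlq, ?_⟩
        rw [hmod]
        exact hjI
      have hR := hrel _ hmem
      rw [hmod] at hR
      have hcast : ((j + q * l : ℕ) : ℝ) = (j : ℝ) + (q : ℝ) * l := by push_cast; ring
      rw [hcast] at hR
      set Z : Fin N → ℝ := fun t => ∑ l' ∈ range l,
        1 / ((j : ℝ) + ((cs t : ℝ) + (q : ℝ) * (T + 1 + l'))) ^ ks t with hZ
      have hps : ∀ t : Fin N, ps q T (ks t) (j + q * l + cs t) = pp t + Z t := by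
        intro t
        have h8 : j + q * l + cs t = (j + cs t) + q * l := by ring
        rw [h8, ps_shift hq]
        simp only [hpp, hZ]
        congr 1
        apply Finset.sum_congr rfl
        intro l' _
        push_cast
        rw [add_assoc]
      simp only [hps] at hR
      set y := (j : ℝ) + (q : ℝ) * l with hy'
      rw [Z8_rel pp Z (fun β => α β x) (fun β => (w' x β).eval y) (u.eval y)] at hR
      -- the entries
      have hent : ∀ b : E, ((evalRingHom (j : ℝ)).mapMatrix (Z8_M (q : ℝ) e f Δ g E)) a b =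
          Δ.eval (j : ℝ) ^ e * ((∏ t, Z t ^ (b : (Fin N → ℕ) × Fin S').1 t) *
            (f (b : (Fin N → ℕ) × Fin S').2).eval y) := by
        intro b
        rw [RingHom.mapMatrix_apply, Matrix.map_apply]
        have h1 := Z8_m_alg (q : ℝ) e f Δ g l b (hEe b b.2) (evalRingHom (j : ℝ)) Z
          (fun t => (hg t l hlL.le).2.2 (j : ℝ) hj0)
        have h2 : Z8_M (q : ℝ) e f Δ g E a b = Z8_m (q : ℝ) e f Δ g l b := rfl
        rw [h2, h1]
        simp only [coe_evalRingHom]
        rw [taylor_eval]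
      have hsum1 : ∑ b : E, ((evalRingHom (j : ℝ)).mapMatrix (Z8_M (q : ℝ) e f Δ g E)) a b *
          (if ∑ t, (b : (Fin N → ℕ) × Fin S').1 t < e then
            ζ (b : (Fin N → ℕ) × Fin S').1 (b : (Fin N → ℕ) × Fin S').2
            else α (b : (Fin N → ℕ) × Fin S').1 x) =
          ∑ p ∈ E, Δ.eval (j : ℝ) ^ e * ((∏ t, Z t ^ p.1 t) * (f p.2).eval y) *
            (if ∑ t, p.1 t < e then ζ p.1 p.2 else α p.1 x) := by
        rw [← Finset.sum_coe_sort E]
        refine Finset.sum_congr rfl fun b _ => ?_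
        rw [hent b]
      rw [hsum1, hEdef, Finset.sum_filter, Finset.sum_product]
      have hrow : ∀ γ ∈ expo N e, (∑ i : Fin S', if (∑ t, γ t < e ∨ i = i₀) then
          Δ.eval (j : ℝ) ^ e * ((∏ t, Z t ^ γ t) * (f i).eval y) *
            (if ∑ t, γ t < e then ζ γ i else α γ x) else 0) =
          Δ.eval (j : ℝ) ^ e * ((∏ t, Z t ^ γ t) *
            ((∑ β ∈ e1, α β x * Z8_B pp β γ) * u.eval y +
              ∑ β ∈ e2, (w' x β).eval y * Z8_B pp β γ)) := by
        intro γ hγ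
        rw [mem_expo] at hγ
        by_cases hlt : ∑ t, γ t < e
        · simp only [hlt, true_or, if_true]
          have h1 : (z γ).eval y = (∑ β ∈ e1, α β x * Z8_B pp β γ) * u.eval y +
              ∑ β ∈ e2, (w' x β).eval y * Z8_B pp β γ := by
            simp only [hz]
            rw [eval_add, eval_smul, smul_eq_mul, eval_finsetSum]
            congr 1
            refine Finset.sum_congr rfl fun β _ => ?_
            rw [eval_smul, smul_eq_mul, mul_comm]
          rw [← h1, hζ γ, eval_finsetSum, Finset.mul_sum, Finset.mul_sum]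
          refine Finset.sum_congr rfl fun i _ => ?_
          rw [eval_smul, smul_eq_mul]
          ring
        · have heq : ∑ t, γ t = e := by omega
          simp only [hlt, false_or, if_false]
          rw [Finset.sum_ite_eq' univ i₀, if_pos (mem_univ i₀), hfi]
          have h1 : ∑ β ∈ e1, α β x * Z8_B pp β γ = α γ x := by
            rw [Finset.sum_eq_single_of_mem γ
              (mem_filter.2 ⟨mem_expo.2 hγ, heq⟩)]
            · rw [Z8_B_self, mul_one]
            · intro β hβ hne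
              have h3 := (mem_filter.1 hβ).2
              rw [Z8_B_top pp β γ (by rw [h3, heq]) hne, mul_zero]
          have h2 : ∑ β ∈ e2, (w' x β).eval y * Z8_B pp β γ = 0 := by
            refine Finset.sum_eq_zero fun β hβ => ?_
            have h3 := (mem_filter.1 hβ).2
            have hne : β ≠ γ := by
              rintro rfl
              exact hlt h3
            rw [Z8_B_top pp β γ (by rw [heq]; exact h3.le) hne, mul_zero]
          rw [h1, h2, add_zero]
          ring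
      rw [Finset.sum_congr rfl hrow, ← Finset.mul_sum, hR, mul_zero]
  · rw [card_image_of_injective _ Nat.cast_injective, card_nodes hq hI]
    refine lt_of_le_of_lt hdeg ?_
    have h9 : I.card * L + L * (d₁ + e * (w * L * Cs.card)) < I.card * n := by
      refine lt_of_le_of_lt ?_ hcount
      have h10 : w * L * Cs.card ≤ w * ((expo N e).card * S) * N := by gcongr
      calc I.card * L + L * (d₁ + e * (w * L * Cs.card))
          ≤ I.card * ((expo N e).card * S) +
            (expo N e).card * S * (d₁ + e * (w * ((expo N e).card * S) * N)) := by gcongr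
        _ = (expo N e).card * S * (d₁ + e * (w * ((expo N e).card * S) * N)) +
            I.card * ((expo N e).card * S) := by ring
    rw [Nat.mul_sub]
    omega

end CM68
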