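import Pool.Agent.LibCM2.I3

/-!
# Row Z9a: the window sums times the multiplier (SHORT/MEDIUM; template LibCM68/Z5.lean)

Plan: for every `i` there is a polynomial `h i`, `natDegree ≤ ww * win`, with `h i (j) = Om(j) * pT i (j)` at the nodes (as in
LibCM68/Z5.lean: the factor `taylor c WP` contains `(X + c - q (n+T) + q i')^w`).  For an exponent `κ` with `∑ κ ≤ g`:
`g κ = Om^(g - ∑ κ) * ∏ i, (h i)^(κ i)`.
-/

namespace CM68

open Finset Polynomial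

private noncomputable def Z9a_L (q n T i : ℕ) : ℝ[X] := X + C (-(q : ℝ) * (n + T) + q * i)

private theorem Z9a_WP {q n T w k i : ℕ} (hk : k ≤ w) (hi : i < win n T) :
    ∃ g : ℝ[X], WP q n T w = Z9a_L q n T i ^ k * g := by
  refine ⟨Z9a_L q n T i ^ (w - k) *
    (C (bet q n T) * ∏ i' ∈ (range (win n T)).erase i, Z9a_L q n T i') ^ w, ?_⟩
  have h1 : ∏ i' ∈ range (win n T), Z9a_L q n T i' =
      Z9a_L q n T i * ∏ i' ∈ (range (win n T)).erase i, Z9a_L q n T i' :=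
    (Finset.mul_prod_erase _ _ (Finset.mem_range.2 hi)).symm
  have h2 : WP q n T w = (C (bet q n T) * ∏ i' ∈ range (win n T), Z9a_L q n T i') ^ w := rfl
  have h3 : Z9a_L q n T i ^ w = Z9a_L q n T i ^ k * Z9a_L q n T i ^ (w - k) := by
    rw [← pow_add, Nat.add_sub_cancel' hk]
  rw [h2, h1, mul_left_comm, mul_pow, h3, mul_assoc]

private theorem Z9a_ne {q n T i y : ℕ} (hy : 0 < y % q) :
    (y : ℝ) - (q : ℝ) * (n + T) + q * i ≠ 0 := by
  intro h
  have h1 : (y : ℝ) = (q : ℝ) * ((n : ℝ) + T - i) := by linarith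
  have h2 : (y : ℤ) = (q : ℤ) * ((n : ℤ) + T - i) := by exact_mod_cast h1
  have h3 : (q : ℤ) ∣ (y : ℤ) := ⟨_, h2⟩
  have h4 : q ∣ y := Int.natCast_dvd_natCast.1 h3
  rw [Nat.mod_eq_zero_of_dvd h4] at hy
  exact lt_irrefl 0 hy

private theorem Z9a_Omne (D : Dat2) (n T : ℕ) : D.Om n T ≠ 0 := by
  have hq : 1 ≤ D.q := by
    have := D.hq
    omega
  have h : ∀ c : ℕ, taylor (c : ℝ) (WP D.q n T D.w) ≠ 0 := by
    intro c h
    exact W_ne n T D.w hq ((taylor_injective (c : ℝ)) (by rw [h, map_zero]))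
  unfold Dat2.Om
  exact mul_ne_zero (Finset.prod_ne_zero_iff.2 fun i _ => h _)
    (Finset.prod_ne_zero_iff.2 fun i _ => h _)

private theorem Z9a_one (D : Dat2) (n T : ℕ) (a : Fin D.M) {i : ℕ} (hi : i < win n T) :
    ∃ g : ℝ[X], g.natDegree ≤ D.ww * win n T ∧ ∀ j : ℕ, 0 < (j + D.ct a) % D.q →
      g.eval (j : ℝ) = (D.Om n T).eval (j : ℝ) *
        (1 / (((j + D.ct a : ℕ) : ℝ) - (D.q : ℝ) * (n + T) + D.q * i) ^ D.kt a) := by
  obtain ⟨g, hg⟩ := Z9a_WP (q := D.q) (n := n) (T := T) (D.hkt a).2 hi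
  have h1 : D.Om n T = taylor (D.ct a : ℝ) (Z9a_L D.q n T i) ^ D.kt a *
      (taylor (D.ct a : ℝ) g * ((∏ i, taylor (D.cs i : ℝ) (WP D.q n T D.w)) *
        ∏ i ∈ Finset.univ.erase a, taylor (D.ct i : ℝ) (WP D.q n T D.w))) := by
    have h2 : D.Om n T = (∏ i, taylor (D.cs i : ℝ) (WP D.q n T D.w)) *
        (taylor (D.ct a : ℝ) (WP D.q n T D.w) *
        ∏ i ∈ Finset.univ.erase a, taylor (D.ct i : ℝ) (WP D.q n T D.w)) := by
      rw [Finset.mul_prod_erase Finset.univ (fun i => taylor (D.ct i : ℝ) (WP D.q n T D.w))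
        (Finset.mem_univ a)]
      rfl
    rw [h2, hg, taylor_mul, taylor_pow]
    ring
  refine ⟨taylor (D.ct a : ℝ) g * ((∏ i, taylor (D.cs i : ℝ) (WP D.q n T D.w)) *
        ∏ i ∈ Finset.univ.erase a, taylor (D.ct i : ℝ) (WP D.q n T D.w)), ?_, ?_⟩
  · refine (natDegree_le_of_dvd ⟨taylor (D.ct a : ℝ) (Z9a_L D.q n T i) ^ D.kt a, ?_⟩
      (Z9a_Omne D n T)).trans (Om_natDegree2 D n T)
    rw [h1, mul_comm]
  · intro j hj
    have h3 : (taylor (D.ct a : ℝ) (Z9a_L D.q n T i)).eval (j : ℝ) =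
        ((j + D.ct a : ℕ) : ℝ) - (D.q : ℝ) * (n + T) + D.q * i := by
      rw [taylor_eval, Z9a_L, eval_add, eval_X, eval_C]
      push_cast
      ring
    have h4 : ((j + D.ct a : ℕ) : ℝ) - (D.q : ℝ) * (n + T) + D.q * i ≠ 0 := Z9a_ne hj
    rw [h1, eval_mul (p := taylor (D.ct a : ℝ) (Z9a_L D.q n T i) ^ D.kt a), eval_pow, h3]
    have h5 : (((j + D.ct a : ℕ) : ℝ) - (D.q : ℝ) * (n + T) + D.q * i) ^ D.kt a ≠ 0 :=
      pow_ne_zero _ h4
    field_simp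

private theorem Z9a_rr (D : Dat2) (n T : ℕ) (a : Fin D.M) :
    ∃ g : ℝ[X], g.natDegree ≤ D.ww * win n T ∧ ∀ j : ℕ, 0 < (j + D.ct a) % D.q →
      g.eval (j : ℝ) = (D.Om n T).eval (j : ℝ) * D.pT n T a j := by
  classical
  have h : ∀ i : ℕ, ∃ g : ℝ[X], i < win n T → g.natDegree ≤ D.ww * win n T ∧
      ∀ j : ℕ, 0 < (j + D.ct a) % D.q → g.eval (j : ℝ) = (D.Om n T).eval (j : ℝ) *
        (1 / (((j + D.ct a : ℕ) : ℝ) - (D.q : ℝ) * (n + T) + D.q * i) ^ D.kt a) := by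
    intro i
    by_cases hi : i < win n T
    · obtain ⟨g, hg⟩ := Z9a_one D n T a hi
      exact ⟨g, fun _ => hg⟩
    · exact ⟨0, fun h => absurd h hi⟩
  choose g hg using h
  refine ⟨∑ i ∈ range (win n T), g i, ?_, fun j hj => ?_⟩
  · exact natDegree_sum_le_of_forall_le _ _ fun i hi => (hg i (Finset.mem_range.1 hi)).1
  · rw [eval_finsetSum, Dat2.pT, rr, Finset.mul_sum]
    exact Finset.sum_congr rfl fun i hi => (hg i (Finset.mem_range.1 hi)).2 j hj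

theorem OmT_poly (D : Dat2) (n T : ℕ) {κ : Fin D.M → ℕ} (hκ : ∑ i, κ i ≤ D.g) :
    ∃ g : ℝ[X], g.natDegree ≤ D.g * (D.ww * win n T) ∧ ∀ j ∈ D.Nd n,
      g.eval (j : ℝ) = (D.Om n T).eval (j : ℝ) ^ D.g * ∏ i, D.pT n T i j ^ κ i := by
  classical
  have h := fun a : Fin D.M => Z9a_rr D n T a
  choose h hd he using h
  refine ⟨D.Om n T ^ (D.g - ∑ i, κ i) * ∏ i, h i ^ κ i, ?_, fun j hj => ?_⟩
  · have h1 : (D.Om n T ^ (D.g - ∑ i, κ i)).natDegree ≤ (D.g - ∑ i, κ i) * (D.ww * win n T) :=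
      natDegree_pow_le.trans (Nat.mul_le_mul_left _ (Om_natDegree2 D n T))
    have h2 : (∏ i, h i ^ κ i).natDegree ≤ (∑ i, κ i) * (D.ww * win n T) := by
      refine (natDegree_prod_le _ _).trans ?_
      rw [Finset.sum_mul]
      exact Finset.sum_le_sum fun i _ => natDegree_pow_le.trans (Nat.mul_le_mul_left _ (hd i))
    refine natDegree_mul_le.trans ((add_le_add h1 h2).trans (le_of_eq ?_))
    rw [← add_mul, Nat.sub_add_cancel hκ]
  · have hj1 : j % D.q ∈ D.I := (Finset.mem_filter.1 hj).2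
    have hpos : ∀ i, 0 < (j + D.ct i) % D.q := by
      intro i
      have h1 := D.hxt _ hj1 i
      rwa [Nat.mod_add_mod] at h1
    rw [eval_mul, eval_pow, eval_prod]
    have h3 : ∏ i, (h i ^ κ i).eval (j : ℝ) =
        (D.Om n T).eval (j : ℝ) ^ (∑ i, κ i) * ∏ i, D.pT n T i j ^ κ i := by
      rw [← Finset.prod_pow_eq_pow_sum, ← Finset.prod_mul_distrib]
      refine Finset.prod_congr rfl fun i _ => ?_
      rw [eval_pow, he i j (hpos i), mul_pow]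
    rw [h3, ← mul_assoc, ← pow_add, Nat.sub_add_cancel hκ]

end CM68
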