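import Pool.Agent.LibCM68.D0
import Pool.Agent.LibCM2.Z8
import Pool.Agent.LibCM2.Z9a

/-!
# Row Z9: the rows (iv) are independent modulo the rows (i) (MEDIUM/STRONG; template LibCM68/Z6.lean, proved)

From `hv`: `∑_{ν ∈ Ms} H ν j * R ν (j) = 0` on the nodes, `R 0 = ` the polynomial of `v` (degree `< κ ≤ d`), `R ν` (degree `< d`) for
`ν ≠ 0` minus the polynomials of the coefficients (`choose_comb` with `d ≥ 1`).  Multiply by `Om(j)^g` and expand `H ν`:
`∑_μ co μ x ∑_{ν ≤ μ} bn μ ν * pS^(μ.1 - ν.1) * [Om^g * pT^(μ.2 - ν.2)] * R ν = 0` (for `ν ≤ μ` not true `bn μ ν = 0`).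
With `g κ` from `OmT_poly` the polynomial `X (κ, ν) = g κ * R ν`, `κ ∈ expo M g`, `ν ∈ Ms`, has degree `≤ d₁ = d + g ww win`; `W` = their
span, `finrank ≤ S = card (expo M g) * card Ms`; `u = g 0 * R 0 ∈ W` (so `u(j) = Om(j)^g R 0 (j)`).  Collect the power `pS^β`:
`w' x β = ∑_μ ∑_{ν ≤ μ, μ.1 - ν.1 = β} C (co μ x * bn μ ν) * X (μ.2 - ν.2, ν) ∈ W` for `∑ β < e`; for `∑ β = e` by `hsup` only `μ = (β, 0)`, `ν = 0` occur
(`∑ μ.1 ≤ e` if `co μ x ≠ 0`, so `ν.1 = 0`, `μ.1 = β`, `μ.2 = 0`, `ν.2 = 0`): `α β x * u`, `α β x = co (β, 0) x`; nothing for `∑ β > e`.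
`hα` from `hlead`, `hsup`.  `zeroW2` (with `n - 1` for `n`): `u = 0`, and `Om(j) ≠ 0` at infinitely many.. at the nodes is not enough: `g 0` can be taken
`Om^g` (it is a polynomial with these values: state for `κ = 0` directly `u = Om^g * R 0`), `Om ≠ 0` (`Om_ne2` at one node; or the product
of non-zero polynomials), so `R 0 = 0` and `v = 0`.
-/

namespace CM68

open Finset Polynomial

open Classical in
private noncomputable def Z9_A {N M : ℕ} (g : ℕ) (co : Mon N M → ℝ) (β : Fin N → ℕ) :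
    Finset (Mon N M × Mon N M) :=
  ((monos N M g ×ˢ monos N M g).filter fun p => co p.1 ≠ 0 ∧ bn p.1 p.2 ≠ 0).filter
    fun p => p.1.1 - p.2.1 = β

private theorem Z9_mem {N M g : ℕ} {co : Mon N M → ℝ} {β : Fin N → ℕ} {p : Mon N M × Mon N M} :
    p ∈ Z9_A g co β ↔ p.1 ∈ monos N M g ∧ p.2 ∈ monos N M g ∧ co p.1 ≠ 0 ∧ bn p.1 p.2 ≠ 0 ∧
      p.1.1 - p.2.1 = β := by
  classical
  unfold Z9_A
  rw [Finset.mem_filter, Finset.mem_filter, Finset.mem_product]
  constructor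
  · rintro ⟨⟨⟨h1, h2⟩, h3, h4⟩, h5⟩
    exact ⟨h1, h2, h3, h4, h5⟩
  · rintro ⟨h1, h2, h3, h4, h5⟩
    exact ⟨⟨⟨h1, h2⟩, h3, h4⟩, h5⟩

private theorem Z9_bn {N M : ℕ} {μ ν : Mon N M} (h : bn μ ν ≠ 0) :
    (∀ i, ν.1 i ≤ μ.1 i) ∧ ∀ i, ν.2 i ≤ μ.2 i := by
  unfold bn at h
  constructor
  · intro i
    by_contra hi
    push Not at hi
    refine h ?_
    rw [Finset.prod_eq_zero (Finset.mem_univ i) (Nat.choose_eq_zero_of_lt hi), zero_mul]
  · intro i
    by_contra hi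
    push Not at hi
    refine h ?_
    rw [mul_comm, Finset.prod_eq_zero (Finset.mem_univ i) (Nat.choose_eq_zero_of_lt hi), zero_mul]

private theorem Z9_bn0 {N M : ℕ} (μ : Mon N M) : bn μ 0 = 1 := by
  unfold bn
  simp

private theorem Z9_top {N M g e : ℕ} {co : Mon N M → ℝ}
    (hsup : ∀ μ ∈ monos N M g, co μ ≠ 0 → ∑ i, μ.1 i < e ∨ (∑ i, μ.1 i = e ∧ μ.2 = 0))
    {β : Fin N → ℕ} {p : Mon N M × Mon N M} (hp : p ∈ Z9_A g co β) :
    ∑ i, β i ≤ e ∧ (∑ i, β i = e → p = ((β, 0), 0)) := by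
  obtain ⟨h1, h2, h3, h4, h5⟩ := Z9_mem.1 hp
  obtain ⟨h6, h7⟩ := Z9_bn h4
  have h8 : ∑ i, β i + ∑ i, p.2.1 i = ∑ i, p.1.1 i := by
    rw [← Finset.sum_add_distrib]
    refine Finset.sum_congr rfl fun i _ => ?_
    rw [← h5, Pi.sub_apply]
    exact Nat.sub_add_cancel (h6 i)
  have h9 : ∑ i, p.1.1 i ≤ e := by
    rcases hsup _ h1 h3 with h | h
    · exact h.le
    · exact h.1.le
  refine ⟨by omega, fun h10 => ?_⟩
  have h11 : ∑ i, p.2.1 i = 0 := by omega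
  have h12 : p.2.1 = 0 := by
    funext i
    exact (Finset.sum_eq_zero_iff.1 h11) i (Finset.mem_univ i)
  have h13 : p.1.2 = 0 := by
    rcases hsup _ h1 h3 with h | h
    · omega
    · exact h.2
  have h14 : p.2.2 = 0 := by
    funext i
    have := h7 i
    rw [h13, Pi.zero_apply] at this
    exact Nat.le_zero.1 this
  have h15 : p.1.1 = β := by
    rw [← h5, h12, tsub_zero]
  exact Prod.ext (Prod.ext h15 h13) (Prod.ext h12 h14)

private theorem Z9_group {N M g e : ℕ} (heg : e ≤ g) (co : Mon N M → ℝ)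
    (hsup : ∀ μ ∈ monos N M g, co μ ≠ 0 → ∑ i, μ.1 i < e ∨ (∑ i, μ.1 i = e ∧ μ.2 = 0))
    (s : Fin N → ℝ) (Y : (Fin M → ℕ) → Mon N M → ℝ) :
    ∑ ν ∈ monos N M g, ∑ μ ∈ monos N M g,
      co μ * (bn μ ν : ℝ) * (∏ i, s i ^ (μ.1 i - ν.1 i)) * Y (μ.2 - ν.2) ν =
    (∑ β ∈ (expo N e).filter (fun β => ∑ i, β i = e), co (β, 0) * ∏ i, s i ^ β i) * Y 0 0 +
    ∑ β ∈ (expo N e).filter (fun β => ∑ i, β i < e),
      (∑ p ∈ Z9_A g co β, co p.1 * (bn p.1 p.2 : ℝ) * Y (p.1.2 - p.2.2) p.2) *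
        ∏ i, s i ^ β i := by
  classical
  rw [Finset.sum_comm, ← Finset.sum_product' (monos N M g) (monos N M g)
    (fun μ ν => co μ * (bn μ ν : ℝ) * (∏ i, s i ^ (μ.1 i - ν.1 i)) * Y (μ.2 - ν.2) ν)]
  have h1 : ∑ p ∈ monos N M g ×ˢ monos N M g,
      co p.1 * (bn p.1 p.2 : ℝ) * (∏ i, s i ^ (p.1.1 i - p.2.1 i)) * Y (p.1.2 - p.2.2) p.2 =
      ∑ p ∈ (monos N M g ×ˢ monos N M g).filter (fun p => co p.1 ≠ 0 ∧ bn p.1 p.2 ≠ 0),
        co p.1 * (bn p.1 p.2 : ℝ) * (∏ i, s i ^ (p.1.1 i - p.2.1 i)) *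
          Y (p.1.2 - p.2.2) p.2 := by
    refine (Finset.sum_filter_of_ne fun p _ hp => ?_).symm
    constructor
    · intro h0
      rw [h0, zero_mul, zero_mul, zero_mul] at hp
      exact hp rfl
    · intro h0
      rw [h0, Nat.cast_zero, mul_zero, zero_mul, zero_mul] at hp
      exact hp rfl
  have hA : ∀ β : Fin N → ℕ,
      ((monos N M g ×ˢ monos N M g).filter (fun p => co p.1 ≠ 0 ∧ bn p.1 p.2 ≠ 0)).filter
        (fun p => p.1.1 - p.2.1 = β) = Z9_A g co β := by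
    intro β
    ext p
    rw [Z9_mem, Finset.mem_filter, Finset.mem_filter, Finset.mem_product]
    constructor
    · rintro ⟨⟨⟨h1, h2⟩, h3, h4⟩, h5⟩
      exact ⟨h1, h2, h3, h4, h5⟩
    · rintro ⟨h1, h2, h3, h4, h5⟩
      exact ⟨⟨⟨h1, h2⟩, h3, h4⟩, h5⟩
  have h2 : ∑ p ∈ (monos N M g ×ˢ monos N M g).filter (fun p => co p.1 ≠ 0 ∧ bn p.1 p.2 ≠ 0),
        co p.1 * (bn p.1 p.2 : ℝ) * (∏ i, s i ^ (p.1.1 i - p.2.1 i)) * Y (p.1.2 - p.2.2) p.2 =
      ∑ β ∈ expo N e, ∑ p ∈ Z9_A g co β,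
        co p.1 * (bn p.1 p.2 : ℝ) * (∏ i, s i ^ (p.1.1 i - p.2.1 i)) *
          Y (p.1.2 - p.2.2) p.2 := by
    rw [← Finset.sum_fiberwise_of_maps_to (g := fun p : Mon N M × Mon N M => p.1.1 - p.2.1)
      (t := expo N e)]
    · refine Finset.sum_congr rfl fun β _ => ?_
      rw [hA]
    · intro p hp
      have hp' : p ∈ Z9_A g co (p.1.1 - p.2.1) := by
        rw [← hA, Finset.mem_filter]
        exact ⟨hp, rfl⟩
      exact mem_expo.2 (Z9_top hsup hp').1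
  rw [h1, h2, ← Finset.sum_filter_add_sum_filter_not (expo N e) (fun β => ∑ i, β i = e)]
  congr 1
  · rw [Finset.sum_mul]
    refine Finset.sum_congr rfl fun β hβ => ?_
    rw [Finset.mem_filter] at hβ
    rw [Finset.sum_eq_single (((β, 0), 0) : Mon N M × Mon N M)]
    · rw [Z9_bn0, Nat.cast_one, mul_one]
      simp
    · intro p hp hne
      exact absurd ((Z9_top hsup hp).2 hβ.2) hne
    · intro hn
      have h3 : co (β, 0) = 0 := by
        by_contra h0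
        refine hn (Z9_mem.2 ⟨?_, zero_mem_monos N M g, h0, ?_, ?_⟩)
        · refine mem_monos.2 ?_
          have : ∑ i, β i ≤ g := by rw [hβ.2]; exact heg
          simpa using this
        · rw [Z9_bn0]
          exact one_ne_zero
        · show β - 0 = β
          rw [tsub_zero]
      show co (β, 0) * _ * _ * _ = 0
      rw [h3, zero_mul, zero_mul, zero_mul]
  · have h3 : (expo N e).filter (fun β => ¬ ∑ i, β i = e) =
        (expo N e).filter (fun β => ∑ i, β i < e) := by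
      refine Finset.filter_congr fun β hβ => ?_
      have := mem_expo.1 hβ
      omega
    rw [h3]
    refine Finset.sum_congr rfl fun β _ => ?_
    rw [Finset.sum_mul]
    refine Finset.sum_congr rfl fun p hp => ?_
    have h4 : ∀ i, p.1.1 i - p.2.1 i = β i := by
      intro i
      rw [← (Z9_mem.1 hp).2.2.2.2, Pi.sub_apply]
    have h5 : ∏ i, s i ^ (p.1.1 i - p.2.1 i) = ∏ i, s i ^ β i :=
      Finset.prod_congr rfl fun i _ => by rw [h4]
    rw [h5]
    ring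

private theorem Z9_G (D : Dat2) (n T : ℕ) : ∃ G : (Fin D.M → ℕ) → ℝ[X],
    G 0 = D.Om n T ^ D.g ∧ (∀ κ, (G κ).natDegree ≤ D.g * (D.ww * win n T)) ∧
    ∀ κ, ∑ i, κ i ≤ D.g → ∀ j ∈ D.Nd n,
      (G κ).eval (j : ℝ) = (D.Om n T).eval (j : ℝ) ^ D.g * ∏ i, D.pT n T i j ^ κ i := by
  classical
  choose G hG1 hG2 using fun (κ : {κ : Fin D.M → ℕ // ∑ i, κ i ≤ D.g}) => OmT_poly D n T κ.2
  refine ⟨fun κ => if κ = 0 then D.Om n T ^ D.g else
    if h : ∑ i, κ i ≤ D.g then G ⟨κ, h⟩ else 0, if_pos rfl, fun κ => ?_, fun κ hκ j hj => ?_⟩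
  · show (if κ = 0 then D.Om n T ^ D.g else
      if h : ∑ i, κ i ≤ D.g then G ⟨κ, h⟩ else 0).natDegree ≤ _
    split_ifs with h1 h2
    · exact natDegree_pow_le.trans (Nat.mul_le_mul_left _ (Om_natDegree2 D n T))
    · exact hG1 _
    · rw [natDegree_zero]
      exact Nat.zero_le _
  · show (if κ = 0 then D.Om n T ^ D.g else
      if h : ∑ i, κ i ≤ D.g then G ⟨κ, h⟩ else 0).eval (j : ℝ) = _
    split_ifs with h1
    · rw [h1, eval_pow]
      simp
    · exact hG2 ⟨κ, hκ⟩ j hj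

theorem rows_ind2 (D : Dat2) {n T d κ : ℕ} (hκ1 : 1 ≤ κ) (hκd : κ ≤ d)
    (hdeg : D.c0 * ((d + D.g * (D.ww * win n T)) + D.e * (D.w * D.c0 * D.N)) + D.I.card * D.c0 <
      D.I.card * (n - 1))
    (v : Fin κ → ℝ)
    (hv : (∑ i, v i • fun j : D.Nd n => D.rowB n T i j) ∈ D.rsp n T d) :
    v = 0 := by
  classical
  obtain ⟨e, he⟩ := (Submodule.mem_span_range_iff_exists_fun ℝ).1 hv
  have hd1 : 1 ≤ d := hκ1.trans hκd
  obtain ⟨Q, hQ1, hQ2, hQ3⟩ := choose_comb (K := κ) hκ1 v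
  choose R hR1 hR2 hR3 using fun p : (D.Ms.erase 0 : Finset (Mon D.N D.M)) =>
    choose_comb hd1 fun i => e (p, i)
  obtain ⟨G, hG0, hG1, hG2⟩ := Z9_G D n T
  obtain ⟨Rf, hRf⟩ : ∃ Rf : Mon D.N D.M → ℝ[X],
    Rf = fun ν => if h : ν ∈ D.Ms.erase 0 then -R ⟨ν, h⟩ else Q := ⟨_, rfl⟩
  have hRf0 : Rf 0 = Q := by
    rw [hRf]
    exact dif_neg (Finset.notMem_erase 0 _)
  have hRf1 : ∀ p : (D.Ms.erase 0 : Finset (Mon D.N D.M)), Rf p = -R p := by
    intro p
    rw [hRf]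
    exact dif_pos p.2
  have hRfd : ∀ ν, (Rf ν).natDegree ≤ d := by
    intro ν
    rw [hRf]
    show (if h : ν ∈ D.Ms.erase 0 then -R ⟨ν, h⟩ else Q).natDegree ≤ d
    split_ifs with h
    · rw [natDegree_neg]
      exact (hR1 _).le
    · exact hQ1.le.trans hκd
  -- the relation
  have hrel : ∀ j ∈ D.Nd n, ∑ ν ∈ D.Ms, D.H n T ν j * (Rf ν).eval (j : ℝ) = 0 := by
    intro j hj
    have h1 := congrFun he ⟨j, hj⟩
    simp only [Finset.sum_apply, Pi.smul_apply, smul_eq_mul] at h1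
    have e1 : ∑ a : D.RA2 d, e a * D.rowA n T d a j =
        ∑ p : (D.Ms.erase 0 : Finset (Mon D.N D.M)), D.H n T p j * (R p).eval (j : ℝ) := by
      rw [Fintype.sum_prod_type]
      refine Finset.sum_congr rfl fun p _ => ?_
      rw [hR2, Finset.mul_sum]
      refine Finset.sum_congr rfl fun i _ => ?_
      simp only [Dat2.rowA]
      ring
    have e2 : ∑ i : Fin κ, v i * D.rowB n T i j = D.H n T 0 j * Q.eval (j : ℝ) := by
      rw [hQ2, Finset.mul_sum]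
      refine Finset.sum_congr rfl fun i _ => ?_
      simp only [Dat2.rowB]
      ring
    have e3 : ∑ p : (D.Ms.erase 0 : Finset (Mon D.N D.M)), D.H n T p j * (R p).eval (j : ℝ) =
        D.H n T 0 j * Q.eval (j : ℝ) := by
      rw [← e1, ← e2]
      exact h1
    rw [← Finset.add_sum_erase D.Ms (fun ν => D.H n T ν j * (Rf ν).eval (j : ℝ))
      (zero_mem_monos _ _ _), hRf0, ← Finset.sum_coe_sort (D.Ms.erase 0), ← e3,
      ← Finset.sum_add_distrib]
    refine Finset.sum_eq_zero fun p _ => ?_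
    rw [hRf1, eval_neg]
    ring
  obtain ⟨f, hf⟩ : ∃ f : (expo D.M D.g) × D.Ms → ℝ[X], f = fun p => G p.1 * Rf p.2 := ⟨_, rfl⟩
  obtain ⟨W, hWdef⟩ : ∃ W : Submodule ℝ ℝ[X], W = Submodule.span ℝ (Set.range f) := ⟨_, rfl⟩
  have hmem : ∀ κ ∈ expo D.M D.g, ∀ ν ∈ D.Ms, G κ * Rf ν ∈ W := by
    intro κ hκ ν hν
    rw [hWdef]
    refine Submodule.subset_span ⟨(⟨κ, hκ⟩, ⟨ν, hν⟩), ?_⟩
    rw [hf]
  have hfin : Module.Finite ℝ W := by
    rw [hWdef]
    exact Module.Finite.span_of_finite ℝ (Set.finite_range f)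
  have hS : Module.finrank ℝ W ≤ (expo D.M D.g).card * D.Ms.card := by
    rw [hWdef]
    refine (finrank_range_le_card (R := ℝ) f).trans (le_of_eq ?_)
    simp only [Fintype.card_prod, Fintype.card_coe]
  have hW : ∀ p ∈ W, p.natDegree ≤ d + D.g * (D.ww * win n T) := by
    have h1 : W ≤ degreeLE ℝ ((d + D.g * (D.ww * win n T) : ℕ) : WithBot ℕ) := by
      rw [hWdef, Submodule.span_le]
      rintro _ ⟨z, rfl⟩
      rw [SetLike.mem_coe, mem_degreeLE, ← natDegree_le_iff_degree_le, hf]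
      refine natDegree_mul_le.trans ?_
      have := hG1 z.1
      have := hRfd z.2
      omega
    intro p hp
    have := h1 hp
    rwa [mem_degreeLE, ← natDegree_le_iff_degree_le] at this
  have hzero : (0 : Fin D.M → ℕ) ∈ expo D.M D.g := mem_expo.2 (by simp)
  have hsup : ∀ x ∈ D.I, ∀ μ ∈ monos D.N D.M D.g, ((D.co μ x : ℚ) : ℝ) ≠ 0 →
      ∑ i, μ.1 i < D.e ∨ (∑ i, μ.1 i = D.e ∧ μ.2 = 0) := by
    intro x hx μ hμ h
    exact D.hsup x hx μ hμ (by exact_mod_cast h)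
  have key := zeroW2 (q := D.q) (n := n - 1) (d₁ := d + D.g * (D.ww * win n T)) (w := D.w)
    (T := T) (S := (expo D.M D.g).card * D.Ms.card) (e := D.e) (N := D.N)
    (by have := D.hq; omega) (I := D.I) D.hI D.ks D.cs
    (fun i => ⟨by have := (D.hks i).1; omega, (D.hks i).2⟩) D.hcs D.hinj W hS hW (G 0 * Rf 0)
    (hmem 0 hzero 0 (zero_mem_monos _ _ _))
    (fun x β => ∑ p ∈ Z9_A D.g (fun μ => ((D.co μ x : ℚ) : ℝ)) β,
      C (((D.co p.1 x : ℚ) : ℝ) * (bn p.1 p.2 : ℝ)) * (G (p.1.2 - p.2.2) * Rf p.2))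
    (by
      intro x _ β
      refine W.sum_mem fun p hp => ?_
      obtain ⟨h1, h2, -, -, -⟩ := Z9_mem.1 hp
      rw [C_mul']
      refine W.smul_mem _ (hmem _ (mem_expo.2 ?_) _ h2)
      have h3 := mem_monos.1 h1
      have h4 : ∑ i, (p.1.2 - p.2.2) i ≤ ∑ i, p.1.2 i :=
        Finset.sum_le_sum fun i _ => Nat.sub_le _ _
      omega)
    (fun β x => ((D.co (β, 0) x : ℚ) : ℝ))
    (by
      intro x hx
      obtain ⟨μ, hμ, h1, h2⟩ := D.hlead x hx
      have h3 : μ.2 = 0 := by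
        rcases D.hsup x hx μ hμ h2 with h | h
        · omega
        · exact h.2
      have h4 : ((μ.1, 0) : Mon D.N D.M) = μ := Prod.ext rfl h3.symm
      refine ⟨μ.1, mem_expo.2 h1.le, h1, ?_⟩
      show ((D.co (μ.1, 0) x : ℚ) : ℝ) ≠ 0
      rw [h4]
      exact_mod_cast h2)
    (by
      intro j hj
      have hj' : j ∈ D.Nd n := hj
      have hx : j % D.q ∈ D.I := (Finset.mem_filter.1 hj).2
      have h1 := Z9_group (M := D.M) D.heg (fun μ => ((D.co μ (j % D.q) : ℚ) : ℝ))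
        (hsup _ hx) (fun i => ps D.q T (D.ks i) (j + D.cs i))
        (fun κ ν => (G κ * Rf ν).eval (j : ℝ))
      have h2 : ∑ ν ∈ monos D.N D.M D.g, ∑ μ ∈ monos D.N D.M D.g,
          ((D.co μ (j % D.q) : ℚ) : ℝ) * (bn μ ν : ℝ) *
            (∏ i, ps D.q T (D.ks i) (j + D.cs i) ^ (μ.1 i - ν.1 i)) *
              (G (μ.2 - ν.2) * Rf ν).eval (j : ℝ) =
          (D.Om n T).eval (j : ℝ) ^ D.g *
            ∑ ν ∈ D.Ms, D.H n T ν j * (Rf ν).eval (j : ℝ) := by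
        rw [Finset.mul_sum]
        refine Finset.sum_congr rfl fun ν _ => ?_
        unfold Dat2.H
        rw [Finset.sum_mul, Finset.mul_sum]
        refine Finset.sum_congr rfl fun μ hμ => ?_
        have h3 : ∑ i, (μ.2 - ν.2) i ≤ D.g := by
          have h4 := mem_monos.1 hμ
          have h5 : ∑ i, (μ.2 - ν.2) i ≤ ∑ i, μ.2 i :=
            Finset.sum_le_sum fun i _ => Nat.sub_le _ _
          omega
        rw [eval_mul, hG2 _ h3 j hj']
        simp only [Pi.sub_apply, Dat2.pS]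
        ring
      rw [hrel j hj', mul_zero] at h2
      rw [h2] at h1
      rw [h1]
      congr 1
      refine Finset.sum_congr rfl fun β _ => ?_
      congr 1
      rw [eval_finsetSum]
      refine Finset.sum_congr rfl fun p _ => ?_
      rw [eval_mul, eval_C])
    (by
      have h1 : (expo D.N D.e).card * ((expo D.M D.g).card * D.Ms.card) = D.c0 := rfl
      rw [h1]
      exact hdeg)
  have hQ : Q = 0 := by
    rw [hG0, hRf0] at key
    rcases mul_eq_zero.1 key with h | h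
    · exfalso
      have hpos : 0 < D.I.card * (n - 1) := by omega
      have hI : 0 < D.I.card := Nat.pos_of_mul_pos_right hpos
      have hn : 0 < n - 1 := Nat.pos_of_mul_pos_left hpos
      obtain ⟨x, hx⟩ := Finset.card_pos.1 hI
      have hxq := D.hI x hx
      have hxN : x ∈ D.Nd n := by
        show x ∈ P D.q (n - 1) D.I
        unfold P
        rw [Finset.mem_filter, Finset.mem_range, Nat.mod_eq_of_lt hxq]
        refine ⟨hxq.trans_le (Nat.le_mul_of_pos_right _ hn), hx⟩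
      have h3 := Om_ne2 D (n := n) (T := T) hxN
      have h4 : D.Om n T = 0 :=
        (pow_eq_zero_iff (by have := D.he; have := D.heg; omega)).1 h
      rw [h4, eval_zero] at h3
      exact h3 rfl
    · exact h
  exact hQ3 hQ

end CM68
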