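import Pool.Agent.LibCM68.CORE
import Pool.Agent.LibCM2.I3
import Pool.Agent.LibCM2.S5
import Pool.Agent.LibCM2.SM2
import Pool.Agent.LibCM2.Z9

/-!
# The contradiction (assembly, helper68)
-/

namespace CM68

open Finset Polynomial

/-- the inequality for one `n` -/
theorem core_n2 (D : Dat2) {δ k r Q₁ Q₂ n D₀ W : ℕ} {B : ℝ}
    (hA : Adm2 D.q (D.Ms.erase 0).card (D.g * D.ww) D.c0 D.I.card δ k r Q₁ Q₂) (hD₀ : 1 ≤ D₀)
    (hco : ∀ μ ∈ D.Ms, ∀ x < D.q, ∃ m : ℤ, (D₀ : ℚ) * D.co μ x = m) (hB1 : 1 ≤ B)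
    (hB : ∀ ν ∈ D.Ms, ∀ x < D.q, ∑ μ ∈ D.Ms, |(D.co μ x : ℝ)| * (bn μ ν : ℝ) ≤ B) (hW1 : 1 ≤ W)
    (hW : Wb D.q n (r * n) (D.g * D.ww) ≤ W)
    (hn : D.c0 * (D.e * (D.w * D.c0 * D.N)) + D.I.card * D.c0 + D.I.card + 1 ≤ n) :
    1 ≤ ((D₀ : ℝ) * W) ^ (Fintype.card (D.RA2 (δ * n)) + Fintype.card (Fin (k * n))) *
      (Fintype.card (D.RA2 (δ * n)) + Fintype.card (Fin (k * n))).factorial *
      (∏ a, UA2 D (δ * n) Q₁ (B * (win n (r * n) : ℝ) ^ D.g) a) *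
      ∏ p : Fin (k * n), EB2 r (δ * n) (k * n) Q₂ D.ec
        (D.Ms.card * (B * (win n (r * n) : ℝ) ^ D.g) * (D.Kc * ce D.ec)) p := by
  classical
  obtain ⟨hk, hr, hδ, hQ₁, hQ₂, hZE, -⟩ := hA
  have hn1 : 1 ≤ n := by omega
  have hq2 := D.hq
  set d := δ * n with hd
  set κ := k * n with hκ
  have h0Ms : (0 : Mon D.N D.M) ∈ D.Ms := zero_mem_monos _ _ _
  have hwin : D.g * (D.ww * win n (r * n)) ≤ D.g * D.ww * (2 * r + 2) * n := by
    rw [mul_assoc (D.g * D.ww), ← mul_assoc]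
    refine Nat.mul_le_mul_left _ ?_
    unfold win
    have h0 : (2 * r + 2) * n = 2 * (r * n) + n + n := by ring
    omega
  have hκd : κ < d := Nat.mul_lt_mul_of_pos_right hδ hn1
  have hκ1 : 1 ≤ κ := Nat.mul_pos hk hn1
  have hdeg : D.c0 * ((d + D.g * (D.ww * win n (r * n))) + D.e * (D.w * D.c0 * D.N)) +
      D.I.card * D.c0 < D.I.card * (n - 1) := by
    have h1 : (D.c0 * (δ + D.g * D.ww * (2 * r + 2)) + 1) * n ≤ D.I.card * n :=
      Nat.mul_le_mul_right n hZE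
    have h2 : (D.c0 * (δ + D.g * D.ww * (2 * r + 2)) + 1) * n =
        D.c0 * (d + D.g * D.ww * (2 * r + 2) * n) + n := by
      rw [hd]
      ring
    have h3 : D.I.card * (n - 1) + D.I.card = D.I.card * n := by
      rw [← Nat.mul_succ]
      congr 1
      omega
    have h4 : D.c0 * ((d + D.g * (D.ww * win n (r * n))) + D.e * (D.w * D.c0 * D.N)) ≤
        D.c0 * (d + D.g * D.ww * (2 * r + 2) * n) + D.c0 * (D.e * (D.w * D.c0 * D.N)) := by
      rw [← mul_add]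
      refine Nat.mul_le_mul_left _ ?_
      omega
    omega
  have hQ1 : D.q * n ≤ Q₁ * d := by
    rw [hd, ← mul_assoc]
    exact Nat.mul_le_mul_right n hQ₁
  have hQ2 : D.q * n ≤ Q₂ * κ := by
    rw [hκ, ← mul_assoc]
    exact Nat.mul_le_mul_right n hQ₂
  have hQ11 : 1 ≤ Q₁ := by
    rcases Nat.eq_zero_or_pos Q₁ with h0 | h0
    · rw [h0] at hQ₁
      omega
    · exact h0
  have hj : ∀ j ∈ D.Nd n, j < D.q * (n - 1) := fun j hj => by
    unfold Dat2.Nd P at hj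
    exact mem_range.1 (mem_filter.1 hj).1
  have hwin1 : (1 : ℝ) ≤ (win n (r * n) : ℝ) ^ D.g := by
    refine one_le_pow₀ ?_
    have : 1 ≤ win n (r * n) := by unfold win; omega
    exact_mod_cast this
  have hBw : 1 ≤ B * (win n (r * n) : ℝ) ^ D.g := by nlinarith
  have hsm := fun p : Fin κ => rows_small2 D (n := n) (r := r) (d := d) (i := p) hn1 hr
    (p.2.trans hκd) hB
  choose v' hv'1 hv'2 using hsm
  refine det_ineq (J := D.Nd n) (fun (a : D.RA2 d) (j : D.Nd n) => D.rowA n (r * n) d a j)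
    (fun (p : Fin κ) (j : D.Nd n) => D.rowB n (r * n) p j) v' (fun j => D.wt n (r * n) j) ?_ ?_ ?_ ?_
    hD₀ hW1 ?_ ?_ ?_ ?_ ?_
  · intro c hc
    exact rows_ind2 D hκ1 hκd.le hdeg c hc
  · exact hv'1
  · rintro a ⟨j, hjm⟩
    obtain ⟨z, hz⟩ := H_int D (T := r * n) hco (mem_of_mem_erase a.1.2) hjm
    refine ⟨z * (j.choose a.2 : ℕ), ?_⟩
    push_cast
    rw [← hz]
    unfold Dat2.rowA
    ring
  · rintro p ⟨j, hjm⟩
    obtain ⟨z, hz⟩ := H_int D (T := r * n) hco h0Ms hjm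
    refine ⟨z * (j.choose p : ℕ), ?_⟩
    push_cast
    rw [← hz]
    unfold Dat2.rowB
    ring
  · rintro ⟨j, hjm⟩
    exact wt_pos D hjm
  · rintro ⟨j, hjm⟩
    have := (wt_le D (T := r * n) hjm).trans hW
    exact_mod_cast this
  · rintro a ⟨j, hjm⟩
    unfold Dat2.rowA UA2
    rw [abs_mul]
    have h1 := H_le D (T := r * n) hB hjm (mem_of_mem_erase a.1.2)
    have h2 : |((j.choose a.2 : ℕ) : ℝ)| ≤ Real.exp d * (Q₁ : ℝ) ^ (a.2 : ℕ) := by
      rw [abs_of_nonneg (by positivity)]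
      refine ch_le (((hj j hjm).le.trans ?_).trans hQ1)
      exact Nat.mul_le_mul_left _ (Nat.sub_le _ _)
    exact mul_le_mul h1 h2 (abs_nonneg _) (zero_le_one.trans hBw)
  · intro a
    exact UA2_one D hQ11 hBw a
  · rintro p ⟨j, hjm⟩
    refine (hv'2 p ⟨j, hjm⟩).trans ?_
    have h3 : (j.choose p : ℝ) ≤ Real.exp κ * (Q₂ : ℝ) ^ (p : ℕ) := by
      refine ch_le (((hj j hjm).le.trans ?_).trans hQ2)
      exact Nat.mul_le_mul_left _ (Nat.sub_le _ _)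
    unfold EB2
    refine mul_le_mul_of_nonneg_left h3 ?_
    have h5 : 0 ≤ D.Kc * ce D.ec := mul_nonneg (by unfold Dat2.Kc; positivity)
      (zero_le_one.trans (ce_pos _))
    have h6 : (0 : ℝ) ≤ D.Ms.card * (B * (win n (r * n) : ℝ) ^ D.g) := by positivity
    positivity

/-- the logarithm of the bound for the multiplier -/
theorem Wb_log {q n T w : ℕ} (hq : 2 ≤ q) :
    Real.log (Wb q n T w) ≤ 13 * (w * win n T) * Real.log q := by
  have hq2 : (2 : ℝ) ≤ q := by exact_mod_cast hq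
  have hlog2 : Real.log 2 ≤ Real.log q := Real.log_le_log (by norm_num) hq2
  have h2 := Real.log_two_gt_d9
  unfold Wb
  rw [Real.log_pow, Real.log_mul (by positivity) (by positivity),
    Real.log_mul (by positivity) (by positivity), Real.log_pow, Real.log_pow, Real.log_exp]
  push_cast
  have hw : (0 : ℝ) ≤ (w : ℝ) * win n T := by positivity
  have h3 : (w : ℝ) * (2 * win n T * Real.log q + 8 * win n T * Real.log 2 + win n T) =
      (w : ℝ) * win n T * (2 * Real.log q + 8 * Real.log 2 + 1) := by ring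
  have h4 : (13 : ℝ) * (w * win n T) * Real.log q = (w : ℝ) * win n T * (13 * Real.log q) := by ring
  rw [h3, h4]
  exact mul_le_mul_of_nonneg_left (by linarith) hw

theorem Wb_one {q n T w : ℕ} (hq : 1 ≤ q) : 1 ≤ Wb q n T w := by
  have hq2 : (1 : ℝ) ≤ q := by exact_mod_cast hq
  unfold Wb
  refine one_le_pow₀ ?_
  have h1 : (1 : ℝ) ≤ (q : ℝ) ^ (2 * win n T) := one_le_pow₀ hq2
  have h2 : (1 : ℝ) ≤ 2 ^ (8 * win n T) := one_le_pow₀ (by norm_num)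
  have h3 : (1 : ℝ) ≤ Real.exp (win n T) := Real.one_le_exp (Nat.cast_nonneg _)
  exact one_le_mul_of_one_le_of_one_le (one_le_mul_of_one_le_of_one_le h1 h2) h3

theorem core2 (D : Dat2) {δ k r Q₁ Q₂ : ℕ}
    (hA : Adm2 D.q (D.Ms.erase 0).card (D.g * D.ww) D.c0 D.I.card δ k r Q₁ Q₂) : False := by
  classical
  obtain ⟨hk, hr, hδ, hQ₁, hQ₂, hZE, hIN⟩ := id hA
  have hq2 := D.hq
  have hQ11 : 1 ≤ Q₁ := by
    rcases Nat.eq_zero_or_pos Q₁ with h0 | h0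
    · rw [h0] at hQ₁
      omega
    · exact h0
  have hQ21 : 1 ≤ Q₂ := by
    rcases Nat.eq_zero_or_pos Q₂ with h0 | h0
    · rw [h0] at hQ₂
      omega
    · exact h0
  -- the denominator and the bounds
  obtain ⟨D₀, hD₀, hden⟩ := exists_den (D.Ms ×ˢ range D.q) (fun t => D.co t.1 t.2)
  have hco : ∀ μ ∈ D.Ms, ∀ x < D.q, ∃ m : ℤ, (D₀ : ℚ) * D.co μ x = m := fun μ hμ x hx =>
    hden (μ, x) (mem_product.2 ⟨hμ, mem_range.2 hx⟩)
  obtain ⟨B, hB1, hB⟩ : ∃ B : ℝ, 1 ≤ B ∧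
      ∀ ν ∈ D.Ms, ∀ x < D.q, ∑ μ ∈ D.Ms, |(D.co μ x : ℝ)| * (bn μ ν : ℝ) ≤ B := by
    refine ⟨1 + ∑ ν ∈ D.Ms, ∑ x ∈ range D.q, ∑ μ ∈ D.Ms, |(D.co μ x : ℝ)| * (bn μ ν : ℝ), ?_,
      fun ν hν x hx => ?_⟩
    · have : 0 ≤ ∑ ν ∈ D.Ms, ∑ x ∈ range D.q, ∑ μ ∈ D.Ms, |(D.co μ x : ℝ)| * (bn μ ν : ℝ) :=
        sum_nonneg fun _ _ => sum_nonneg fun _ _ => sum_nonneg fun _ _ => by positivity
      linarith
    · have h1 : ∑ μ ∈ D.Ms, |(D.co μ x : ℝ)| * (bn μ ν : ℝ) ≤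
          ∑ x ∈ range D.q, ∑ μ ∈ D.Ms, |(D.co μ x : ℝ)| * (bn μ ν : ℝ) :=
        single_le_sum (f := fun x => ∑ μ ∈ D.Ms, |(D.co μ x : ℝ)| * (bn μ ν : ℝ))
          (fun _ _ => sum_nonneg fun _ _ => by positivity) (mem_range.2 hx)
      have h2 : ∑ x ∈ range D.q, ∑ μ ∈ D.Ms, |(D.co μ x : ℝ)| * (bn μ ν : ℝ) ≤
          ∑ ν ∈ D.Ms, ∑ x ∈ range D.q, ∑ μ ∈ D.Ms, |(D.co μ x : ℝ)| * (bn μ ν : ℝ) :=
        single_le_sum (f := fun ν => ∑ x ∈ range D.q, ∑ μ ∈ D.Ms, |(D.co μ x : ℝ)| * (bn μ ν : ℝ))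
          (fun _ _ => sum_nonneg fun _ _ => sum_nonneg fun _ _ => by positivity) hν
      linarith
  -- the constants
  have hq1 : (1 : ℝ) ≤ D.q := by exact_mod_cast (by omega : 1 ≤ D.q)
  have hlogq : 0 ≤ Real.log D.q := Real.log_nonneg hq1
  have hδ0 : (0 : ℝ) < δ := by exact_mod_cast (by omega : 0 < δ)
  obtain ⟨F, hF⟩ : ∃ F : ℕ, F = (D.Ms.erase 0).card := ⟨_, rfl⟩
  obtain ⟨w, hw⟩ : ∃ w : ℕ, w = D.g * D.ww := ⟨_, rfl⟩
  obtain ⟨G, hG⟩ : ∃ G : ℕ, G = w * (2 * r + 2) := ⟨_, rfl⟩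
  obtain ⟨ρ, hρ⟩ : ∃ ρ : ℕ, ρ = F * δ + k := ⟨_, rfl⟩
  have hρ1 : 1 ≤ ρ := by omega
  have hGR : (G : ℝ) = w * (2 * r + 2) := by rw [hG]; push_cast; ring
  have hρR : (ρ : ℝ) = F * δ + k := by rw [hρ]; push_cast; ring
  rw [← hF, ← hw, ← hGR] at hIN
  obtain ⟨E, hE⟩ : ∃ E : ℝ, E = ((2 * (δ : ℝ) * k - (k : ℝ) ^ 2) * Real.log (2 * r + 1) -
      (F * (δ : ℝ) ^ 2 * (Real.log Q₁ + 2) + (k : ℝ) ^ 2 * (Real.log Q₂ + 2) +
      26 * ((F : ℝ) * δ + k) * G * Real.log D.q)) / 2 := ⟨_, rfl⟩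
  have hE0 : 0 < E := by
    rw [hE]
    linarith
  obtain ⟨M, hM⟩ : ∃ M : ℝ, M = D.Ms.card * B * (D.Kc * ce D.ec) := ⟨_, rfl⟩
  have hMs1 : (1 : ℝ) ≤ D.Ms.card := by
    have : 0 < D.Ms.card := card_pos.2 ⟨0, zero_mem_monos _ _ _⟩
    exact_mod_cast this
  have hKc1 : 1 ≤ D.Kc * ce D.ec :=
    one_le_mul_of_one_le_of_one_le (by unfold Dat2.Kc; exact one_le_pow₀ (by norm_num)) (ce_pos _)
  have hM1 : 1 ≤ M := by
    rw [hM]
    exact one_le_mul_of_one_le_of_one_le (one_le_mul_of_one_le_of_one_le hMs1 hB1) hKc1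
  obtain ⟨g, hg⟩ : ∃ g : ℕ, g = D.g := ⟨_, rfl⟩
  refine lim_contra (E := E) (a := ρ * (Real.log D₀ + Real.log 2) +
      F * δ * (Real.log B + g * Real.log (2 * r + 2)) + k * (Real.log M + g * Real.log (2 * r + 2)))
    (R₁ := ρ) (c := F * δ * g + k * (g + D.ec)) (δ := δ) hE0 (by exact_mod_cast hρ1) hδ0
    (D.c0 * (D.e * (D.w * D.c0 * D.N)) + D.I.card * D.c0 + D.I.card + 1) ?_
  intro n hn
  have hn1 : 1 ≤ n := by omega
  obtain ⟨W, hWdef⟩ : ∃ W : ℕ, W = ⌈Wb D.q n (r * n) (D.g * D.ww)⌉₊ := ⟨_, rfl⟩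
  have hWb1 : 1 ≤ Wb D.q n (r * n) (D.g * D.ww) := Wb_one (by omega)
  have hW : Wb D.q n (r * n) (D.g * D.ww) ≤ W := by
    rw [hWdef]
    exact Nat.le_ceil _
  have hW1 : 1 ≤ W := by
    have : (1 : ℝ) ≤ W := hWb1.trans hW
    exact_mod_cast this
  have hW2 : (W : ℝ) ≤ 2 * Wb D.q n (r * n) (D.g * D.ww) := by
    have := Nat.ceil_lt_add_one (zero_le_one.trans hWb1)
    rw [← hWdef] at this
    linarith
  have h := core_n2 D hA hD₀ hco hB1 hB hW1 hW hn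
  have hcard : Fintype.card (D.RA2 (δ * n)) + Fintype.card (Fin (k * n)) = ρ * n := by
    simp only [Dat2.RA2, Fintype.card_prod, Fintype.card_fin, Fintype.card_coe]
    rw [hρ, hF]
    ring
  rw [hcard] at h
  have hwin0 : 1 ≤ win n (r * n) := by unfold win; omega
  have hwinR : (1 : ℝ) ≤ (win n (r * n) : ℝ) := by exact_mod_cast hwin0
  have hwin1 : (1 : ℝ) ≤ (win n (r * n) : ℝ) ^ D.g := one_le_pow₀ hwinR
  have hBw : 1 ≤ B * (win n (r * n) : ℝ) ^ D.g := one_le_mul_of_one_le_of_one_le hB1 hwin1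
  have hM' : 1 ≤ D.Ms.card * (B * (win n (r * n) : ℝ) ^ D.g) * (D.Kc * ce D.ec) :=
    one_le_mul_of_one_le_of_one_le (one_le_mul_of_one_le_of_one_le hMs1 hBw) hKc1
  have hUpos : 0 < ∏ a, UA2 D (δ * n) Q₁ (B * (win n (r * n) : ℝ) ^ D.g) a :=
    prod_pos fun a _ => zero_lt_one.trans_le (UA2_one D hQ11 hBw a)
  have hEpos : 0 < ∏ p : Fin (k * n), EB2 r (δ * n) (k * n) Q₂ D.ec
      (D.Ms.card * (B * (win n (r * n) : ℝ) ^ D.g) * (D.Kc * ce D.ec)) p :=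
    prod_pos fun p _ => EB2_pos hQ21 hM' p
  have hUlog := UA2_prod D (d := δ * n) hQ11 hBw
  have hElog := EB2_prod (r := r) (d := δ * n) (K := k * n) (Q₂ := Q₂) (ec := D.ec) hQ21 hM'
    (Nat.mul_le_mul_right n hδ.le)
  obtain ⟨Up, hUp⟩ : ∃ Up, Up = ∏ a, UA2 D (δ * n) Q₁ (B * (win n (r * n) : ℝ) ^ D.g) a := ⟨_, rfl⟩
  obtain ⟨Ep, hEp⟩ : ∃ Ep, Ep = ∏ p : Fin (k * n), EB2 r (δ * n) (k * n) Q₂ D.ec
      (D.Ms.card * (B * (win n (r * n) : ℝ) ^ D.g) * (D.Kc * ce D.ec)) p := ⟨_, rfl⟩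
  rw [← hUp] at h hUpos hUlog
  rw [← hEp] at h hEpos hElog
  obtain ⟨R, hR⟩ : ∃ R, R = ρ * n := ⟨_, rfl⟩
  rw [← hR] at h
  have hR1 : 1 ≤ R := by
    rw [hR]
    exact Nat.mul_pos hρ1 hn1
  have hD0 : (0 : ℝ) < D₀ := by exact_mod_cast hD₀
  have hW0 : (0 : ℝ) < W := by exact_mod_cast hW1
  have hlog := Real.log_nonneg h
  rw [Real.log_mul (by positivity) hEpos.ne', Real.log_mul (by positivity) hUpos.ne',
    Real.log_mul (by positivity) (by positivity), Real.log_pow,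
    Real.log_mul (by positivity) (by positivity)] at hlog
  have hfac : Real.log ((R.factorial : ℕ) : ℝ) ≤ R * Real.log R := by
    rw [← Real.log_pow]
    refine Real.log_le_log (by exact_mod_cast R.factorial_pos) ?_
    exact_mod_cast R.factorial_le_pow
  have hRn : (R : ℝ) = ρ * n := by
    rw [hR]
    push_cast
    ring
  have hn0 : (0 : ℝ) ≤ n := Nat.cast_nonneg n
  have hn1' : (1 : ℝ) ≤ n := by exact_mod_cast hn1
  have hdn : (0 : ℝ) ≤ δ * n := by positivity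
  obtain ⟨L, hL⟩ : ∃ L, L = Real.log (200 * ((δ : ℝ) * n + 2) ^ 2) := ⟨_, rfl⟩
  rw [← hL]
  -- the multiplier
  have hGn : w * win n (r * n) ≤ G * n := by
    rw [hG, mul_assoc]
    refine Nat.mul_le_mul_left _ ?_
    unfold win
    have h0 : (2 * r + 2) * n = 2 * (r * n) + n + n := by ring
    omega
  have hGnR : (w : ℝ) * win n (r * n) ≤ G * n := by exact_mod_cast hGn
  have hlogW : Real.log W ≤ Real.log 2 + 13 * (G * n) * Real.log D.q := by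
    have h1 : Real.log W ≤ Real.log (2 * Wb D.q n (r * n) (D.g * D.ww)) :=
      Real.log_le_log hW0 hW2
    rw [Real.log_mul (by norm_num) (by positivity)] at h1
    have h2 := Wb_log (q := D.q) (n := n) (T := r * n) (w := D.g * D.ww) hq2
    rw [← hw] at h2 h1
    have h3 : 13 * ((w : ℝ) * win n (r * n)) * Real.log D.q ≤ 13 * (G * n) * Real.log D.q := by
      gcongr
    linarith
  -- the windows
  have hlogwin : Real.log (win n (r * n)) ≤ Real.log (2 * r + 2) + L := by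
    rw [hL, ← Real.log_mul (by positivity) (by positivity)]
    refine Real.log_le_log (by positivity) ?_
    have h1 : (win n (r * n) : ℝ) ≤ (2 * r + 2) * n := by
      have : win n (r * n) ≤ (2 * r + 2) * n := by
        unfold win
        have h0 : (2 * r + 2) * n = 2 * (r * n) + n + n := by ring
        omega
      exact_mod_cast this
    refine h1.trans (mul_le_mul_of_nonneg_left ?_ (by positivity))
    have h2 : (n : ℝ) ≤ δ * n := by
      have : (1 : ℝ) ≤ δ := by exact_mod_cast (by omega : 1 ≤ δ)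
      nlinarith
    have h4 : 200 * ((δ : ℝ) * n + 2) ^ 2 = 200 * ((δ : ℝ) * n) ^ 2 + 800 * (δ * n) + 800 := by ring
    rw [h4]
    have h3 : 0 ≤ ((δ : ℝ) * n) ^ 2 := by positivity
    linarith
  have hlogd : Real.log ((((δ * n : ℕ) : ℝ)) + 1) ≤ L := by
    rw [hL]
    push_cast
    refine Real.log_le_log (by positivity) ?_
    have h3 : 0 ≤ ((δ : ℝ) * n) ^ 2 := by positivity
    have h4 : 200 * ((δ : ℝ) * n + 2) ^ 2 = 200 * ((δ : ℝ) * n) ^ 2 + 800 * (δ * n) + 800 := by ring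
    rw [h4]
    linarith
  have hBlog : Real.log (B * (win n (r * n) : ℝ) ^ D.g) ≤
      Real.log B + g * (Real.log (2 * r + 2) + L) := by
    rw [Real.log_mul (by positivity) (by positivity), Real.log_pow, ← hg]
    have := mul_le_mul_of_nonneg_left hlogwin (Nat.cast_nonneg (α := ℝ) g)
    linarith
  have hMlog : Real.log (D.Ms.card * (B * (win n (r * n) : ℝ) ^ D.g) * (D.Kc * ce D.ec)) ≤
      Real.log M + g * (Real.log (2 * r + 2) + L) := by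
    have e1 : D.Ms.card * (B * (win n (r * n) : ℝ) ^ D.g) * (D.Kc * ce D.ec) =
        M * (win n (r * n) : ℝ) ^ D.g := by
      rw [hM]
      ring
    rw [e1, Real.log_mul (by positivity) (by positivity), Real.log_pow, ← hg]
    have := mul_le_mul_of_nonneg_left hlogwin (Nat.cast_nonneg (α := ℝ) g)
    linarith
  rw [← hF] at hUlog
  push_cast at hUlog hElog hlogd
  have t1 := mul_le_mul_of_nonneg_left hBlog (by positivity : (0 : ℝ) ≤ F * (δ * n))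
  have t2 := mul_le_mul_of_nonneg_left hMlog (by positivity : (0 : ℝ) ≤ k * n)
  have t3 := mul_le_mul_of_nonneg_left hlogd (by positivity : (0 : ℝ) ≤ k * n * D.ec)
  have t4 := mul_le_mul_of_nonneg_left hlogW (by positivity : (0 : ℝ) ≤ ρ * n)
  rw [hRn] at hlog hfac
  rw [hE, ← hρR]
  linarith [hlog, hfac, hUlog, hElog, t1, t2, t3, t4]

end CM68
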