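import Pool.Agent.LibCM68.Defs

/-!
# CM2: polynomial relations of bounded degree between the `ζ(k, x/q)`: definitions
-/

namespace CM68

open Finset Polynomial

/-- the exponents of total degree `≤ g` in `N` variables -/
def expo (N g : ℕ) : Finset (Fin N → ℕ) :=
  (Fintype.piFinset fun _ : Fin N => range (g + 1)).filter fun β => ∑ i, β i ≤ g

/-- the exponents in `N + M` variables -/
abbrev Mon (N M : ℕ) : Type := (Fin N → ℕ) × (Fin M → ℕ)

/-- the exponents of total degree `≤ g` in `N + M` variables -/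
def monos (N M g : ℕ) : Finset (Mon N M) :=
  (expo N g ×ˢ expo M g).filter fun μ => ∑ i, μ.1 i + ∑ i, μ.2 i ≤ g

/-- the product of the binomial coefficients -/
def bn {N M : ℕ} (μ ν : Mon N M) : ℕ :=
  (∏ i, (μ.1 i).choose (ν.1 i)) * ∏ i, (μ.2 i).choose (ν.2 i)

/-- The data: level `q`; `N` variables `s_k((x + c) mod q)` (`k = ks i`, `c = cs i`), `M` variables
`T_k(y) = s_k(y) + (-1)^k s_k(q - y)`, `y = (x + c) mod q` (`k = kt i`, `c = ct i`); for `x ∈ I` a rational polynomial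
of degree `≤ g` with coefficients `co μ x`, of degree `e ≥ 1` in the first variables, whose leading form in them
has no `T`; it vanishes at the point. -/
structure Dat2 where
  q : ℕ
  w : ℕ
  g : ℕ
  e : ℕ
  N : ℕ
  M : ℕ
  ks : Fin N → ℕ
  cs : Fin N → ℕ
  kt : Fin M → ℕ
  ct : Fin M → ℕ
  I : Finset ℕ
  co : Mon N M → ℕ → ℚ
  hq : 2 ≤ q
  hks : ∀ i, 2 ≤ ks i ∧ ks i ≤ w
  hkt : ∀ i, 2 ≤ kt i ∧ kt i ≤ w
  hcs : ∀ i, cs i < q
  hct : ∀ i, ct i < q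
  hinj : Function.Injective fun i => (ks i, cs i)
  hI : ∀ x ∈ I, x < q
  hxs : ∀ x ∈ I, ∀ i, 0 < (x + cs i) % q
  hxt : ∀ x ∈ I, ∀ i, 0 < (x + ct i) % q
  he : 1 ≤ e
  heg : e ≤ g
  hsup : ∀ x ∈ I, ∀ μ ∈ monos N M g, co μ x ≠ 0 →
    ∑ i, μ.1 i < e ∨ (∑ i, μ.1 i = e ∧ μ.2 = 0)
  hlead : ∀ x ∈ I, ∃ μ ∈ monos N M g, ∑ i, μ.1 i = e ∧ co μ x ≠ 0
  hrel : ∀ x ∈ I, ∑ μ ∈ monos N M g, (co μ x : ℝ) *
    ((∏ i, sk q (ks i) (((x + cs i) % q : ℕ) : ℝ) ^ μ.1 i) *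
      ∏ i, (sk q (kt i) (((x + ct i) % q : ℕ) : ℝ) +
        (-1) ^ kt i * sk q (kt i) ((q : ℝ) - (((x + ct i) % q : ℕ) : ℝ))) ^ μ.2 i) = 0

namespace Dat2

variable (D : Dat2)

/-- the nodes `j`; all `j + c` are less than `q n` -/
def Nd (n : ℕ) : Finset ℕ := P D.q (n - 1) D.I

/-- the exponents -/
def Ms : Finset (Mon D.N D.M) := monos D.N D.M D.g

/-- `w` times the number of variables -/
def ww : ℕ := D.w * (D.N + D.M)

/-- the partial sums of the first variables -/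
noncomputable def pS (T : ℕ) (i : Fin D.N) (j : ℕ) : ℝ := ps D.q T (D.ks i) (j + D.cs i)

/-- the window sums of the second variables -/
noncomputable def pT (n T : ℕ) (i : Fin D.M) (j : ℕ) : ℝ :=
  rr D.q n T (D.kt i) ((j + D.ct i : ℕ) : ℝ)

/-- the tails of the first variables -/
noncomputable def aS (T : ℕ) (i : Fin D.N) (j : ℕ) : ℝ :=
  tl D.q (D.ks i) T ((j + D.cs i : ℕ) : ℝ)

/-- the tails of the second variables -/
noncomputable def aT (n T : ℕ) (i : Fin D.M) (j : ℕ) : ℝ :=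
  tl D.q (D.kt i) T ((j + D.ct i : ℕ) : ℝ) +
    (-1) ^ D.kt i * tl D.q (D.kt i) T ((D.q : ℝ) * n - ((j + D.ct i : ℕ) : ℝ))

/-- the monomials in the tails -/
noncomputable def Av (n T : ℕ) (ν : Mon D.N D.M) (j : ℕ) : ℝ :=
  (∏ i, D.aS T i j ^ ν.1 i) * ∏ i, D.aT n T i j ^ ν.2 i

/-- the Taylor coefficients at the partial sums -/
noncomputable def H (n T : ℕ) (ν : Mon D.N D.M) (j : ℕ) : ℝ :=
  ∑ μ ∈ D.Ms, (D.co μ (j % D.q) : ℝ) * (bn μ ν : ℝ) *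
    ((∏ i, D.pS T i j ^ (μ.1 i - ν.1 i)) * ∏ i, D.pT n T i j ^ (μ.2 i - ν.2 i))

/-- the index set of the rows (i) -/
abbrev RA2 (d : ℕ) : Type := (D.Ms.erase 0) × Fin d

/-- the rows (i) -/
noncomputable def rowA (n T d : ℕ) (a : D.RA2 d) (j : ℕ) : ℝ := D.H n T a.1 j * (j.choose a.2 : ℝ)

/-- the rows (iv) -/
noncomputable def rowB (n T i j : ℕ) : ℝ := D.H n T 0 j * (j.choose i : ℝ)

/-- the span of the rows (i), as functions on the nodes -/
noncomputable def rsp (n T d : ℕ) : Submodule ℝ (D.Nd n → ℝ) :=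
  Submodule.span ℝ (Set.range fun (a : D.RA2 d) (j : D.Nd n) => D.rowA n T d a j)

/-- the multiplier -/
noncomputable def Om (n T : ℕ) : ℝ[X] :=
  (∏ i, taylor (D.cs i : ℝ) (WP D.q n T D.w)) * ∏ i, taylor (D.ct i : ℝ) (WP D.q n T D.w)

/-- the column factors `|Om(j)|^g` -/
noncomputable def wt (n T j : ℕ) : ℕ := ⌊|(D.Om n T).eval (j : ℝ)|⌋₊ ^ D.g

/-- the constant of the zero estimate -/
def c0 : ℕ := (expo D.N D.e).card * ((expo D.M D.g).card * (D.Ms).card)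

end Dat2

/-- admissible parameters: `nf` families, `w` = total exponent of the multiplier, `m` = number of classes -/
structure Adm2 (q nf w c₀ m δ k r Q₁ Q₂ : ℕ) : Prop where
  hk : 1 ≤ k
  hr : 1 ≤ r
  hδ : k < δ
  hQ₁ : q ≤ Q₁ * δ
  hQ₂ : q ≤ Q₂ * k
  hZE : c₀ * (δ + w * (2 * r + 2)) < m
  hIN : nf * (δ : ℝ) ^ 2 * (Real.log Q₁ + 2) + (k : ℝ) ^ 2 * (Real.log Q₂ + 2) +
      26 * ((nf : ℝ) * δ + k) * (w * (2 * r + 2)) * Real.log q <
    (2 * (δ : ℝ) * k - (k : ℝ) ^ 2) * Real.log (2 * r + 1)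

end CM68
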