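import Mathlib

/-!
# Row MO: roots under a rational Möbius map (SHORT/MEDIUM, ONLY MATHLIB)

Plan: `Q = ∑ i ∈ range (g + 1), C (P.coeff i) * (C d * X - C b) ^ i * (C a - C c * X) ^ (g - i)`, of degree `≤ g`
(`natDegree_sum_le_of_forall_le`, each factor has degree `≤ 1`).  For a real `t` with `a - c t ≠ 0` and
`u = (d t - b) / (a - c t)`: `aeval t Q = (a - c t)^g * aeval u P` (`aeval_eq_sum_range' (natDegree < g + 1)`, termwise).
With `t = (a ρ + b) / (c ρ + d)`: `a - c t = (a d - b c) / (c ρ + d) ≠ 0`, `u = ρ`.  If `Q = 0` then `P` vanishes at all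
`u(t)`, `t` rational (or real) with `a - c t ≠ 0`; every `u ≠ -d/c` is a value (`t = (a u + b) / (c u + d)`), so `P` has infinitely many
roots and `P = 0` (`Polynomial.eq_zero_of_infinite_isRoot`, for `P.map (algebraMap ℚ ℝ)` or for `P` with rational `u`; the set
`{u | c * u + d ≠ 0}` is infinite: the complement has at most one element, or is empty if `c = 0`, `d ≠ 0`).
`root_rel`: `Q.natDegree = e ≥ 1` (a non-zero constant has no root), `b i = Q.coeff i`, multiply by `T^e`.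
-/

namespace CM68

open Finset Polynomial

/-- the numerator of `P` at the inverse Möbius map -/
noncomputable def MO_Q (g : ℕ) (P : ℚ[X]) (a b c d : ℚ) : ℚ[X] :=
  ∑ i ∈ range (g + 1), C (P.coeff i) * (C d * X - C b) ^ i * (C a - C c * X) ^ (g - i)

theorem MO_eval {K : Type*} [Field K] (φ : ℚ →+* K) {g : ℕ} {P : ℚ[X]} (hg : P.natDegree ≤ g)
    (a b c d : ℚ) (u : K) (hw : φ c * u + φ d ≠ 0) :
    (MO_Q g P a b c d).eval₂ φ ((φ a * u + φ b) / (φ c * u + φ d)) =
      ((φ a * φ d - φ b * φ c) / (φ c * u + φ d)) ^ g * P.eval₂ φ u := by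
  unfold MO_Q
  rw [eval₂_finsetSum, eval₂_eq_sum_range' φ (Nat.lt_succ_of_le hg) u, mul_sum]
  refine sum_congr rfl fun i hi => ?_
  have hig : i ≤ g := Nat.lt_succ_iff.1 (mem_range.1 hi)
  rw [eval₂_mul, eval₂_mul, eval₂_pow, eval₂_pow, eval₂_sub, eval₂_sub, eval₂_mul, eval₂_mul,
    eval₂_C, eval₂_C, eval₂_C, eval₂_C, eval₂_C, eval₂_X]
  have h1 : φ d * ((φ a * u + φ b) / (φ c * u + φ d)) - φ b =
      (φ a * φ d - φ b * φ c) / (φ c * u + φ d) * u := by
    rw [div_mul_eq_mul_div, eq_div_iff hw, sub_mul, mul_assoc, div_mul_cancel₀ _ hw]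
    ring
  have h2 : φ a - φ c * ((φ a * u + φ b) / (φ c * u + φ d)) =
      (φ a * φ d - φ b * φ c) / (φ c * u + φ d) := by
    rw [eq_div_iff hw, sub_mul, mul_assoc, div_mul_cancel₀ _ hw]
    ring
  rw [h1, h2, mul_pow]
  obtain ⟨m, rfl⟩ := Nat.exists_eq_add_of_le hig
  rw [Nat.add_sub_cancel_left, pow_add]
  ring

theorem MO_deg (g : ℕ) (P : ℚ[X]) (a b c d : ℚ) : (MO_Q g P a b c d).natDegree ≤ g := by
  unfold MO_Q
  refine natDegree_sum_le_of_forall_le _ _ fun i hi => ?_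
  have hig : i ≤ g := Nat.lt_succ_iff.1 (mem_range.1 hi)
  have h1 : (C d * X - C b : ℚ[X]).natDegree ≤ 1 := by
    refine (natDegree_sub_le _ _).trans (max_le ?_ ?_)
    · exact (natDegree_C_mul_le _ _).trans natDegree_X_le
    · rw [natDegree_C]
      exact Nat.zero_le _
  have h2 : (C a - C c * X : ℚ[X]).natDegree ≤ 1 := by
    refine (natDegree_sub_le _ _).trans (max_le ?_ ?_)
    · rw [natDegree_C]
      exact Nat.zero_le _
    · exact (natDegree_C_mul_le _ _).trans natDegree_X_le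
  have h3 : ((C d * X - C b : ℚ[X]) ^ i).natDegree ≤ i := by
    refine natDegree_pow_le.trans ?_
    calc i * _ ≤ i * 1 := Nat.mul_le_mul_left _ h1
      _ = i := mul_one _
  have h4 : ((C a - C c * X : ℚ[X]) ^ (g - i)).natDegree ≤ g - i := by
    refine natDegree_pow_le.trans ?_
    calc (g - i) * _ ≤ (g - i) * 1 := Nat.mul_le_mul_left _ h2
      _ = g - i := mul_one _
  refine natDegree_mul_le.trans ?_
  have h5 : (C (P.coeff i) * (C d * X - C b) ^ i : ℚ[X]).natDegree ≤ i := by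
    refine natDegree_mul_le.trans ?_
    rw [natDegree_C, zero_add]
    exact h3
  omega

theorem MO_ne {g : ℕ} {P : ℚ[X]} (hP : P ≠ 0) (hg : P.natDegree ≤ g) {a b c d : ℚ}
    (hdet : a * d - b * c ≠ 0) : MO_Q g P a b c d ≠ 0 := by
  intro hQ
  apply hP
  have hfin : {u : ℚ | c * u + d = 0}.Finite := by
    by_cases hc : c = 0
    · have hd : d ≠ 0 := by
        rintro rfl
        apply hdet
        rw [hc]
        ring
      have : {u : ℚ | c * u + d = 0} = ∅ := by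
        ext u
        simp [hc, hd]
      rw [this]
      exact Set.finite_empty
    · refine Set.Subsingleton.finite ?_
      intro u hu w hw
      have h1 : c * u + d = 0 := hu
      have h2 : c * w + d = 0 := hw
      have h3 : c * u = c * w := by linarith
      exact mul_left_cancel₀ hc h3
  refine eq_zero_of_infinite_isRoot P ?_
  refine hfin.infinite_compl.mono ?_
  intro u hu
  have hw : c * u + d ≠ 0 := hu
  have h1 := MO_eval (RingHom.id ℚ) hg a b c d u hw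
  rw [hQ, eval₂_zero] at h1
  have h2 : ((a * d - b * c) / (c * u + d)) ^ g ≠ 0 := pow_ne_zero _ (div_ne_zero hdet hw)
  have h3 := (mul_eq_zero.1 h1.symm).resolve_left h2
  exact h3

theorem mobius_root {g : ℕ} {P : ℚ[X]} (hP : P ≠ 0) (hg : P.natDegree ≤ g) {ρ : ℝ}
    (hρ : aeval ρ P = 0) {a b c d : ℚ} (hdet : a * d - b * c ≠ 0) (hden : (c : ℝ) * ρ + d ≠ 0) :
    ∃ Q : ℚ[X], Q ≠ 0 ∧ Q.natDegree ≤ g ∧ aeval (((a : ℝ) * ρ + b) / ((c : ℝ) * ρ + d)) Q = 0 := by
  refine ⟨MO_Q g P a b c d, MO_ne hP hg hdet, MO_deg g P a b c d, ?_⟩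
  have hφ : ∀ q : ℚ, algebraMap ℚ ℝ q = (q : ℝ) := fun q => eq_ratCast _ q
  have h1 := MO_eval (algebraMap ℚ ℝ) hg a b c d ρ (by rw [hφ, hφ]; exact hden)
  rw [hφ, hφ, hφ, hφ] at h1
  rw [aeval_def] at hρ ⊢
  rw [h1, hρ, mul_zero]

theorem root_rel {g : ℕ} {Q : ℚ[X]} (hQ : Q ≠ 0) (hg : Q.natDegree ≤ g) {s T : ℝ} (hT : T ≠ 0)
    (h : aeval (s / T) Q = 0) :
    ∃ (e : ℕ) (b : ℕ → ℚ), 1 ≤ e ∧ e ≤ g ∧ b e ≠ 0 ∧
      ∑ i ∈ range (e + 1), (b i : ℝ) * s ^ i * T ^ (e - i) = 0 := by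
  refine ⟨Q.natDegree, Q.coeff, ?_, hg, leadingCoeff_ne_zero.2 hQ, ?_⟩
  · by_contra hcon
    have h0 : Q.natDegree = 0 := by omega
    rw [eq_C_of_natDegree_eq_zero h0, aeval_C, eq_ratCast] at h
    have h1 : Q.coeff 0 = 0 := by exact_mod_cast h
    apply hQ
    rw [eq_C_of_natDegree_eq_zero h0, h1, C_0]
  · rw [aeval_eq_sum_range] at h
    have h1 : ∑ i ∈ range (Q.natDegree + 1), (Q.coeff i : ℝ) * s ^ i * T ^ (Q.natDegree - i) =
        T ^ Q.natDegree * ∑ i ∈ range (Q.natDegree + 1), Q.coeff i • (s / T) ^ i := by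
      rw [mul_sum]
      refine sum_congr rfl fun i hi => ?_
      have hi' : i ≤ Q.natDegree := Nat.lt_succ_iff.1 (mem_range.1 hi)
      obtain ⟨m, hm⟩ := Nat.exists_eq_add_of_le hi'
      rw [Rat.smul_def, hm, Nat.add_sub_cancel_left, pow_add, div_pow]
      field_simp
    rw [h1, h, mul_zero]

end CM68
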