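import Pool.Agent.LibCM68.A1
import Pool.Agent.LibCM68.REP
import Pool.Agent.LibCM2.Defs
import Pool.Agent.LibCM2.MO

/-!
# Row FB: from the ratio to a relation between `s_k(x)` and `T_k(x)` (SHORT/MEDIUM)

Plan: `s = sk q k x > 0`, `s' = sk q k (q - x) > 0` (all terms positive, summable: `summ`, LibCM68/A1), `T = s + (-1)^k s'`.
`Tk_ne`: `k` even: `T > 0`.  `k` odd: `T = s - s'`, and `x < q - x` (or `>`) gives `s' < s` (or `>`) termwise
(`Summable.tsum_lt_tsum`, see LibCM68/T4a.lean).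
`relB_of`: the ratio is `ρ = s / s'` (`hz_scale`, `1 - x / q = (q - x) / q`, `q^k` cancels); `s / T = (1 * ρ + 0) / (1 * ρ + (-1)^k)`, so
`mobius_root` with `a = 1, b = 0, c = 1, d = (-1)^k` (`ρ + (-1)^k = T / s' ≠ 0`) and `root_rel`.
-/

namespace CM68

open Finset Polynomial

/-- the ratio `ζ(k, x/q) / ζ(k, 1 - x/q)` is a root of a nonzero rational polynomial of degree `≤ g` -/
def RatB (k g q x : ℕ) : Prop :=
  ∃ P : ℚ[X], P ≠ 0 ∧ P.natDegree ≤ g ∧ aeval (hz k ((x : ℝ) / q) / hz k (1 - (x : ℝ) / q)) P = 0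

/-- a relation of degree `e` between `s_k(x)` and `T_k(x)` -/
def RelB (k e q x : ℕ) (b : ℕ → ℚ) : Prop :=
  b e ≠ 0 ∧ ∑ i ∈ range (e + 1), (b i : ℝ) * sk q k x ^ i *
    (sk q k x + (-1) ^ k * sk q k ((q : ℝ) - x)) ^ (e - i) = 0

private theorem sk_summ {q k : ℕ} (hq : 1 ≤ q) (hk : 2 ≤ k) {x : ℝ} (hx : 0 < x) :
    Summable fun m : ℕ => 1 / ((q : ℝ) * m + x) ^ k := by
  have hqR : (0 : ℝ) < q := by exact_mod_cast hq
  exact (summ hx hqR hk).congr fun m => by rw [add_comm]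

private theorem sk_lt {q k : ℕ} (hq : 1 ≤ q) (hk : 2 ≤ k) {a b : ℝ} (ha : 0 < a) (hab : a < b) :
    sk q k b < sk q k a := by
  have hlt : ∀ m : ℕ, 1 / ((q : ℝ) * m + b) ^ k < 1 / ((q : ℝ) * m + a) ^ k := by
    intro m
    have h0 : (0 : ℝ) ≤ (q : ℝ) * m := by positivity
    apply one_div_lt_one_div_of_lt (by positivity)
    apply pow_lt_pow_left₀ (by linarith) (by linarith) (by omega)
  exact Summable.tsum_lt_tsum (i := 0) (fun m => (hlt m).le) (hlt 0) (sk_summ hq hk (ha.trans hab))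
    (sk_summ hq hk ha)

theorem sk_pos {q k : ℕ} (hq : 1 ≤ q) (hk : 2 ≤ k) {x : ℝ} (hx : 0 < x) : 0 < sk q k x := by
  have h0 : ∀ m : ℕ, 0 < 1 / ((q : ℝ) * m + x) ^ k := fun m => by
    have h1 : (0 : ℝ) ≤ (q : ℝ) * m := by positivity
    positivity
  exact (sk_summ hq hk hx).tsum_pos (fun m => (h0 m).le) 0 (h0 0)

theorem Tk_ne {q k x : ℕ} (hq : 2 ≤ q) (hk : 2 ≤ k) (hx : 0 < x) (hxq : x < q) (h2 : 2 * x ≠ q) :
    sk q k x + (-1) ^ k * sk q k ((q : ℝ) - x) ≠ 0 := by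
  have hq1 : 1 ≤ q := by omega
  have hxR : (0 : ℝ) < x := by exact_mod_cast hx
  have hyR : (0 : ℝ) < (q : ℝ) - x := by
    have : (x : ℝ) < q := by exact_mod_cast hxq
    linarith
  have p1 := sk_pos hq1 hk hxR
  have p2 := sk_pos hq1 hk hyR
  rcases Nat.even_or_odd k with he | ho
  · rw [he.neg_one_pow]
    linarith
  · rw [ho.neg_one_pow]
    rcases lt_trichotomy (x : ℝ) ((q : ℝ) - x) with h | h | h
    · have := sk_lt hq1 hk hxR h
      intro h3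
      linarith
    · exfalso
      apply h2
      have h3 : (2 : ℝ) * x = q := by linarith
      exact_mod_cast h3
    · have := sk_lt hq1 hk hyR h
      intro h3
      linarith

theorem relB_of {q k g x : ℕ} (hq : 2 ≤ q) (hk : 2 ≤ k) (hx : 0 < x) (hxq : x < q)
    (h2 : 2 * x ≠ q) (h : RatB k g q x) :
    ∃ e : ℕ, 1 ≤ e ∧ e ≤ g ∧ ∃ b : ℕ → ℚ, RelB k e q x b := by
  obtain ⟨P, hP, hPg, hroot⟩ := h
  have hq1 : 1 ≤ q := by omega
  have hqR : (q : ℝ) ≠ 0 := by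
    have : (0 : ℝ) < q := by exact_mod_cast hq1
    exact this.ne'
  have hyR : (0 : ℝ) < (q : ℝ) - x := by
    have : (x : ℝ) < q := by exact_mod_cast hxq
    linarith
  have p2 := sk_pos hq1 hk hyR
  have hT := Tk_ne hq hk hx hxq h2
  have e1 : (1 : ℝ) - (x : ℝ) / q = ((q : ℝ) - x) / q := by
    field_simp
  have hρ : hz k ((x : ℝ) / q) / hz k (1 - (x : ℝ) / q) = sk q k x / sk q k ((q : ℝ) - x) := by
    rw [e1, hz_scale hq1, hz_scale hq1]
    exact mul_div_mul_left _ _ (pow_ne_zero _ hqR)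
  rw [hρ] at hroot
  have hsp : sk q k x / sk q k ((q : ℝ) - x) + (-1) ^ k =
      (sk q k x + (-1) ^ k * sk q k ((q : ℝ) - x)) / sk q k ((q : ℝ) - x) := by
    rw [add_div, mul_div_assoc, div_self p2.ne', mul_one]
  have hden : (((1 : ℚ) : ℚ) : ℝ) * (sk q k x / sk q k ((q : ℝ) - x)) + (((-1) ^ k : ℚ) : ℝ) ≠ 0 := by
    push_cast
    rw [one_mul, hsp]
    exact div_ne_zero hT p2.ne'
  have hdet : (1 : ℚ) * (-1) ^ k - 0 * 1 ≠ 0 := by
    rw [one_mul, zero_mul, sub_zero]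
    exact pow_ne_zero _ (by norm_num)
  obtain ⟨Q, hQ, hQg, hQr⟩ := mobius_root hP hPg hroot (a := 1) (b := 0) (c := 1) (d := (-1) ^ k)
    hdet hden
  have e2 : (((1 : ℚ) : ℝ) * (sk q k x / sk q k ((q : ℝ) - x)) + ((0 : ℚ) : ℝ)) /
      (((1 : ℚ) : ℝ) * (sk q k x / sk q k ((q : ℝ) - x)) + (((-1) ^ k : ℚ) : ℝ)) =
      sk q k x / (sk q k x + (-1) ^ k * sk q k ((q : ℝ) - x)) := by
    push_cast
    rw [one_mul, add_zero, hsp, div_div_div_cancel_right₀ p2.ne']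
  rw [e2] at hQr
  obtain ⟨e, b, he1, he2, hb, hrel⟩ := root_rel hQ hQg hT hQr
  exact ⟨e, he1, he2, b, hb, hrel⟩

end CM68
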