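import Pool.Agent.LibCM2.Defs

/-!
# Row PAR2: admissible parameters (STRONG; template LibCM68/PAR.lean, proved)

Put `F = nf + 1`, `C₃ = 416 (nf + 2)² (w + 1)`, `C₁ = c₀ (nf + 2) + 1`, `C = 2 C₁ C₃ e^A'` with `A'` large (below); `ℓ = log q`.
Choose `k' = m / C₁` (natural division), `k = nf k'`, `δ = F k'`, `r = k' / C₃`, `Q₁ = Q₂ = q / k' + 1`.  `λ = log k'`.
* `m ≥ C q^θ ≥ C`, so `k' ≥ m / (2 C₁) ≥ C₃ e^A' q^θ`, `r ≥ 1`, `θ = 1 - 1/(nf + 2) = F / (F + 1)`, `λ ≥ θ ℓ + log C₃ + A'`, `λ ≤ ℓ`.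
* `q ≤ Q k'`, `Q ≤ 2 q / k'`, `log Q ≤ ℓ - λ + 1`.  `w (2 r + 2) ≤ 4 w r ≤ 4 w k' / C₃ ≤ k'`; `hZE`: `c₀ (F + 1) k' < C₁ k' ≤ m`.
* `2 r + 1 ≥ k' / C₃`, `log (2 r + 1) ≥ λ - log C₃ ≥ 0`; `2 δ k - k² = A k'²`, `A = nf² + 2 nf`.  With `B = nf F² + nf²` the left side of `hIN` is at
  most `k'² [B (ℓ - λ + 3) + (26 (nf F + nf) 4 w / C₃) ℓ]`, and `104 nf (F + 1) w / C₃ ≤ nf / (4 (nf + 2)) = σ / 4`,
  `σ := (A F - B) / (F + 1) = nf / (nf + 2)` (`A F - B = nf`).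
* So it suffices that `A λ - B (ℓ - λ) > A log C₃ + 3 B + (σ/4) ℓ`; `(A + B) λ - B ℓ ≥ σ ℓ + (A + B) (log C₃ + A')`; so `A' = 3` is enough
  (`(A + B) * 3 ≥ 3 B`, `A > 0`, `(A+B) log C₃ ≥ A log C₃`), take `A' = 4`.
-/

namespace CM68

/-- the scalar inequality -/
private theorem PAR2_scalar {N F A B lC L l σ : ℝ} (hN : 1 ≤ N) (hF : F = N + 1)
    (hA : A = N ^ 2 + 2 * N) (hB : B = N * F ^ 2 + N ^ 2) (hσ : σ = N / (N + 2)) (hlC : 0 ≤ lC)
    (hl0 : 0 ≤ L) (hl : F / (F + 1) * L + lC + 4 ≤ l) :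
    B * (L - l + 3) + σ / 4 * L < A * (l - lC) := by
  have hN0 : 0 < N := by linarith
  have hF1 : 0 < F + 1 := by rw [hF]; linarith
  have hBpos : 0 < B := by
    rw [hB]
    positivity
  have hApos : 0 < A := by
    rw [hA]
    positivity
  have hABF : A * F - B = N := by
    rw [hA, hB, hF]
    ring
  have hθ : (A + B) * (F / (F + 1)) - B = σ := by
    have h1 : N + 2 = F + 1 := by rw [hF]; ring
    rw [hσ, h1]
    field_simp
    linarith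
  have hσ0 : 0 ≤ σ := by rw [hσ]; positivity
  have h6 : (A + B) * (F / (F + 1) * L + lC + 4) ≤ (A + B) * l :=
    mul_le_mul_of_nonneg_left hl (by linarith)
  have h7 : (A + B) * (F / (F + 1) * L + lC + 4) = (σ + B) * L + (A + B) * (lC + 4) := by
    rw [← hθ]
    ring
  have h9 : 0 ≤ B * lC := mul_nonneg hBpos.le hlC
  have h10 : 0 ≤ σ * L := mul_nonneg hσ0 hl0
  nlinarith

/-- the constant, explicit -/
noncomputable def Cpar (nf w c₀ : ℕ) : ℝ :=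
  2 * ((c₀ * (nf + 2) + 1 : ℕ) : ℝ) * ((416 * (nf + 2) ^ 2 * (w + 1) : ℕ) : ℝ) * Real.exp 4

theorem Cpar_pos (nf w c₀ : ℕ) : 0 < Cpar nf w c₀ := by
  unfold Cpar
  have h1 : 0 < c₀ * (nf + 2) + 1 := by positivity
  have h2 : 0 < 416 * (nf + 2) ^ 2 * (w + 1) := by positivity
  have h3 : (0 : ℝ) < ((c₀ * (nf + 2) + 1 : ℕ) : ℝ) := by exact_mod_cast h1
  have h4 : (0 : ℝ) < ((416 * (nf + 2) ^ 2 * (w + 1) : ℕ) : ℝ) := by exact_mod_cast h2
  positivity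

theorem par2x (nf w c₀ : ℕ) (hnf : 1 ≤ nf) : ∀ q m : ℕ, 2 ≤ q → m ≤ q →
    Cpar nf w c₀ * (q : ℝ) ^ (1 - 1 / ((nf : ℝ) + 2)) ≤ m →
      ∃ δ k r Q₁ Q₂ : ℕ, Adm2 q nf w c₀ m δ k r Q₁ Q₂ := by
  unfold Cpar
  obtain ⟨F, hF⟩ : ∃ F : ℕ, F = nf + 1 := ⟨_, rfl⟩
  obtain ⟨C₃, hC₃⟩ : ∃ C₃ : ℕ, C₃ = 416 * (nf + 2) ^ 2 * (w + 1) := ⟨_, rfl⟩
  obtain ⟨C₁, hC₁⟩ : ∃ C₁ : ℕ, C₁ = c₀ * (nf + 2) + 1 := ⟨_, rfl⟩
  have hC₁pos : 0 < C₁ := by rw [hC₁]; positivity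
  have hC₃pos : 0 < C₃ := by rw [hC₃]; positivity
  have hC₃w : 4 * w ≤ C₃ := by
    rw [hC₃]
    have h1 : 1 ≤ (nf + 2) ^ 2 := Nat.one_le_pow _ _ (by omega)
    nlinarith
  have hC₁R : (0 : ℝ) < C₁ := by exact_mod_cast hC₁pos
  have hC₃R : (0 : ℝ) < C₃ := by exact_mod_cast hC₃pos
  have hC₃1 : (1 : ℝ) ≤ C₃ := by exact_mod_cast hC₃pos
  intro q m hq hmq hm
  rw [← hC₁, ← hC₃] at hm
  have hq1 : (1 : ℝ) ≤ q := by exact_mod_cast (by omega : 1 ≤ q)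
  have hqpos : (0 : ℝ) < q := by linarith
  have hFpos : 0 < F := by omega
  have hFR : (0 : ℝ) < F := by exact_mod_cast hFpos
  have hFeq : (F : ℝ) = nf + 1 := by rw [hF]; push_cast; ring
  have hθ : (1 - 1 / ((nf : ℝ) + 2)) = (F : ℝ) / (F + 1) := by
    have h1 : (nf : ℝ) + 2 = F + 1 := by rw [hFeq]; ring
    rw [h1]
    field_simp
    ring
  rw [hθ] at hm
  have hqθ : 1 ≤ (q : ℝ) ^ ((F : ℝ) / (F + 1)) := Real.one_le_rpow hq1 (by positivity)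
  have hqθ0 : 0 < (q : ℝ) ^ ((F : ℝ) / (F + 1)) := by linarith
  have he4 : 1 ≤ Real.exp 4 := Real.one_le_exp (by norm_num)
  have he4' : 0 < Real.exp 4 := Real.exp_pos _
  -- k'
  obtain ⟨k', hk'⟩ : ∃ k' : ℕ, k' = m / C₁ := ⟨_, rfl⟩
  have hk'le : C₁ * k' ≤ m := by rw [hk']; exact Nat.mul_div_le m C₁
  have hk'lt : m < C₁ * (k' + 1) := by
    rw [hk']
    exact Nat.lt_mul_div_succ m hC₁pos
  have hk'ltR : (m : ℝ) < C₁ * (k' + 1) := by exact_mod_cast hk'lt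
  have hKlow : C₃ * Real.exp 4 * (q : ℝ) ^ ((F : ℝ) / (F + 1)) ≤ k' := by
    have h1 : 2 * (C₃ * Real.exp 4 * (q : ℝ) ^ ((F : ℝ) / (F + 1))) < k' + 1 := by
      have h2 : (C₁ : ℝ) * (2 * (C₃ * Real.exp 4 * (q : ℝ) ^ ((F : ℝ) / (F + 1)))) <
          C₁ * (k' + 1) := by
        calc (C₁ : ℝ) * (2 * (C₃ * Real.exp 4 * (q : ℝ) ^ ((F : ℝ) / (F + 1)))) =
            2 * C₁ * C₃ * Real.exp 4 * (q : ℝ) ^ ((F : ℝ) / (F + 1)) := by ring
          _ ≤ m := hm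
          _ < _ := hk'ltR
      exact lt_of_mul_lt_mul_left h2 hC₁R.le
    have h3 : 1 ≤ C₃ * Real.exp 4 * (q : ℝ) ^ ((F : ℝ) / (F + 1)) := by
      have h4 : 1 ≤ (C₃ : ℝ) * Real.exp 4 := by nlinarith
      nlinarith
    linarith
  have hKC₃ : (C₃ : ℝ) ≤ k' := by
    have h4 : (C₃ : ℝ) ≤ C₃ * Real.exp 4 := by nlinarith
    have h5 : (C₃ : ℝ) * Real.exp 4 ≤ C₃ * Real.exp 4 * (q : ℝ) ^ ((F : ℝ) / (F + 1)) := by
      have : 0 ≤ (C₃ : ℝ) * Real.exp 4 := by positivity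
      nlinarith
    linarith
  have hKC₃' : C₃ ≤ k' := by exact_mod_cast hKC₃
  have hk'pos : 0 < k' := by omega
  have hKR : (0 : ℝ) < k' := by exact_mod_cast hk'pos
  have hk'm : k' ≤ m := by
    calc k' = 1 * k' := (one_mul _).symm
      _ ≤ C₁ * k' := Nat.mul_le_mul_right _ hC₁pos
      _ ≤ m := hk'le
  have hk'q : k' ≤ q := hk'm.trans hmq
  have hKq : (k' : ℝ) ≤ q := by exact_mod_cast hk'q
  -- r
  obtain ⟨r, hr⟩ : ∃ r : ℕ, r = k' / C₃ := ⟨_, rfl⟩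
  have hrle : C₃ * r ≤ k' := by rw [hr]; exact Nat.mul_div_le k' C₃
  have hrlt : k' < C₃ * (r + 1) := by rw [hr]; exact Nat.lt_mul_div_succ k' hC₃pos
  have hr1 : 1 ≤ r := by
    rw [hr]
    exact (Nat.one_le_div_iff hC₃pos).2 hKC₃'
  -- Q
  obtain ⟨Q, hQ⟩ : ∃ Q : ℕ, Q = q / k' + 1 := ⟨_, rfl⟩
  have hQk : q ≤ Q * k' := by
    rw [hQ, mul_comm]
    exact (Nat.lt_mul_div_succ q hk'pos).le
  have hQ1 : 1 ≤ Q := by rw [hQ]; exact Nat.succ_le_succ (Nat.zero_le _)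
  have hg4 : w * (2 * r + 2) ≤ 4 * w * r := by nlinarith
  have hg4' : w * (2 * r + 2) ≤ k' := by
    calc w * (2 * r + 2) ≤ 4 * w * r := hg4
      _ ≤ C₃ * r := Nat.mul_le_mul_right _ hC₃w
      _ ≤ k' := hrle
  refine ⟨F * k', nf * k', r, Q, Q, ?_, hr1, ?_, ?_, ?_, ?_, ?_⟩
  · exact Nat.mul_pos hnf hk'pos
  · rw [hF, add_mul, one_mul]
    exact Nat.lt_add_of_pos_right hk'pos
  · calc q ≤ Q * k' := hQk
      _ ≤ Q * (F * k') := by
        apply Nat.mul_le_mul_left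
        exact Nat.le_mul_of_pos_left _ hFpos
  · calc q ≤ Q * k' := hQk
      _ ≤ Q * (nf * k') := by
        apply Nat.mul_le_mul_left
        exact Nat.le_mul_of_pos_left _ (by omega)
  · calc c₀ * (F * k' + w * (2 * r + 2)) ≤ c₀ * (F * k' + k') :=
        Nat.mul_le_mul_left _ (Nat.add_le_add_left hg4' _)
      _ = c₀ * (nf + 2) * k' := by rw [hF]; ring
      _ < C₁ * k' := by
        apply Nat.mul_lt_mul_of_pos_right _ hk'pos
        rw [hC₁]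
        omega
      _ ≤ m := hk'le
  · -- hIN
    obtain ⟨K, hKdef⟩ : ∃ K : ℝ, K = (k' : ℝ) := ⟨_, rfl⟩
    obtain ⟨g, hgdef⟩ : ∃ g : ℝ, g = (w : ℝ) * (2 * r + 2) := ⟨_, rfl⟩
    obtain ⟨N, hNdef⟩ : ∃ N : ℝ, N = (nf : ℝ) := ⟨_, rfl⟩
    have hN1 : (1 : ℝ) ≤ N := by rw [hNdef]; exact_mod_cast hnf
    have hrR : (1 : ℝ) ≤ r := by exact_mod_cast hr1
    have hg0 : 0 ≤ g := by rw [hgdef]; positivity
    have hK0 : 0 < K := by rw [hKdef]; exact hKR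
    have hw0 : (0 : ℝ) ≤ w := Nat.cast_nonneg w
    have hC₃eq : (C₃ : ℝ) = 416 * (N + 2) ^ 2 * (w + 1) := by rw [hC₃, hNdef]; push_cast; ring
    have hFN : (F : ℝ) = N + 1 := by rw [hFeq, hNdef]
    obtain ⟨σ, hσ⟩ : ∃ σ : ℝ, σ = N / (N + 2) := ⟨_, rfl⟩
    -- g bounds
    have hCg : (C₃ : ℝ) * g ≤ 4 * w * K := by
      have h1 : (C₃ : ℝ) * r ≤ K := by rw [hKdef]; exact_mod_cast hrle
      have h2 : g ≤ 4 * w * r := by rw [hgdef]; nlinarith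
      calc (C₃ : ℝ) * g ≤ C₃ * (4 * w * r) := mul_le_mul_of_nonneg_left h2 hC₃R.le
        _ = 4 * w * (C₃ * r) := by ring
        _ ≤ 4 * w * K := mul_le_mul_of_nonneg_left h1 (by positivity)
    have hNg : 26 * (N * (N + 2)) * g ≤ σ / 4 * K := by
      have h1 : 26 * (N * (N + 2)) * g * C₃ ≤ 104 * (N * (N + 2)) * (w + 1) * K := by
        have h2 : 26 * (N * (N + 2)) * g * C₃ = 26 * (N * (N + 2)) * (C₃ * g) := by ring
        rw [h2]
        have h3 : 26 * (N * (N + 2)) * (C₃ * g) ≤ 26 * (N * (N + 2)) * (4 * w * K) :=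
          mul_le_mul_of_nonneg_left hCg (by positivity)
        have h4 : 0 ≤ N * (N + 2) * K := by positivity
        nlinarith
      have h2 : σ / 4 * K * C₃ = 104 * (N * (N + 2)) * (w + 1) * K := by
        rw [hσ, hC₃eq]
        have : N + 2 ≠ 0 := by positivity
        field_simp
        ring
      rw [← h2] at h1
      exact le_of_mul_le_mul_right h1 hC₃R
    -- logs
    obtain ⟨L, hL⟩ : ∃ L : ℝ, L = Real.log q := ⟨_, rfl⟩
    obtain ⟨l, hl⟩ : ∃ l : ℝ, l = Real.log K := ⟨_, rfl⟩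
    obtain ⟨lC, hlC⟩ : ∃ lC : ℝ, lC = Real.log C₃ := ⟨_, rfl⟩
    have hL0 : 0 ≤ L := by rw [hL]; exact Real.log_nonneg hq1
    have hlC0 : 0 ≤ lC := by rw [hlC]; exact Real.log_nonneg hC₃1
    have hlL : l ≤ L := by
      rw [hl, hL, hKdef]
      exact Real.log_le_log hKR hKq
    have hllow : (F : ℝ) / (F + 1) * L + lC + 4 ≤ l := by
      have h1 : Real.log (C₃ * Real.exp 4 * (q : ℝ) ^ ((F : ℝ) / (F + 1))) ≤ Real.log K := by
        apply Real.log_le_log (by positivity)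
        rw [hKdef]
        exact hKlow
      rw [Real.log_mul (by positivity) (by positivity), Real.log_mul (by positivity) (by positivity),
        Real.log_exp, Real.log_rpow hqpos] at h1
      rw [hl, hlC, hL]
      linarith
    have hlogQ : Real.log Q ≤ L - l + 1 := by
      have h1 : (Q : ℝ) ≤ 2 * q / K := by
        rw [le_div_iff₀ hK0, hKdef]
        have h2 : k' * (q / k') ≤ q := Nat.mul_div_le q k'
        have h3 : Q * k' ≤ 2 * q := by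
          rw [hQ, add_mul, one_mul, mul_comm (q / k') k']
          omega
        exact_mod_cast h3
      have hQR : (0 : ℝ) < Q := by exact_mod_cast hQ1
      have h4 : Real.log Q ≤ Real.log (2 * q / K) := Real.log_le_log hQR h1
      rw [Real.log_div (by positivity) (by positivity),
        Real.log_mul (by norm_num) (by positivity)] at h4
      have h5 : Real.log 2 ≤ 1 := by
        have := Real.log_two_lt_d9
        linarith
      rw [hL, hl]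
      linarith
    have hlogr : l - lC ≤ Real.log (2 * (r : ℝ) + 1) := by
      rw [hl, hlC, ← Real.log_div (by positivity) (by positivity)]
      apply Real.log_le_log (by positivity)
      rw [div_le_iff₀ hC₃R]
      have h1 : K < C₃ * (r + 1) := by rw [hKdef]; exact_mod_cast hrlt
      nlinarith
    have hscal := PAR2_scalar (N := N) (F := (F : ℝ)) hN1 hFN rfl rfl hσ hlC0 hL0 hllow
    have hkc : ((nf * k' : ℕ) : ℝ) = N * K := by rw [hKdef, hNdef]; push_cast; ring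
    have hδc : ((F * k' : ℕ) : ℝ) = F * K := by rw [hKdef]; push_cast; ring
    rw [hkc, hδc, ← hgdef, ← hL, ← hNdef]
    have hlogQ' : Real.log Q + 2 ≤ L - l + 3 := by linarith
    have hl4 : 0 ≤ l - lC := by
      have : 0 ≤ (F : ℝ) / (F + 1) * L := by positivity
      linarith
    -- the left side
    have hA1 : N * (F * K) ^ 2 * (Real.log Q + 2) ≤ N * F ^ 2 * (L - l + 3) * K ^ 2 := by
      have h1 : N * (F * K) ^ 2 * (Real.log Q + 2) ≤ N * (F * K) ^ 2 * (L - l + 3) :=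
        mul_le_mul_of_nonneg_left hlogQ' (by positivity)
      calc _ ≤ _ := h1
        _ = _ := by ring
    have hA2 : (N * K) ^ 2 * (Real.log Q + 2) ≤ N ^ 2 * (L - l + 3) * K ^ 2 := by
      have h1 : (N * K) ^ 2 * (Real.log Q + 2) ≤ (N * K) ^ 2 * (L - l + 3) :=
        mul_le_mul_of_nonneg_left hlogQ' (by positivity)
      calc _ ≤ _ := h1
        _ = _ := by ring
    have hA3 : 26 * (N * (F * K) + N * K) * g * L ≤ σ / 4 * L * K ^ 2 := by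
      have h1 : 26 * (N * (F * K) + N * K) * g * L = 26 * (N * (N + 2)) * g * (K * L) := by
        rw [hFN]
        ring
      rw [h1]
      calc _ ≤ σ / 4 * K * (K * L) := mul_le_mul_of_nonneg_right hNg (by positivity)
        _ = _ := by ring
    -- the right side
    have hB2 : (N ^ 2 + 2 * N) * (l - lC) * K ^ 2 ≤
        (2 * (F * K) * (N * K) - (N * K) ^ 2) * Real.log (2 * (r : ℝ) + 1) := by
      have h1 : 2 * (F * K) * (N * K) - (N * K) ^ 2 = (N ^ 2 + 2 * N) * K ^ 2 := by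
        rw [hFN]
        ring
      rw [h1]
      calc (N ^ 2 + 2 * N) * (l - lC) * K ^ 2 = (N ^ 2 + 2 * N) * K ^ 2 * (l - lC) := by ring
        _ ≤ _ := mul_le_mul_of_nonneg_left hlogr (by positivity)
    have hK2 : 0 < K ^ 2 := by positivity
    have hfin := mul_lt_mul_of_pos_right hscal hK2
    nlinarith

theorem par2 (nf w c₀ : ℕ) (hnf : 1 ≤ nf) : ∃ C : ℝ, 0 < C ∧ ∀ q m : ℕ, 2 ≤ q → m ≤ q →
    C * (q : ℝ) ^ (1 - 1 / ((nf : ℝ) + 2)) ≤ m →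
      ∃ δ k r Q₁ Q₂ : ℕ, Adm2 q nf w c₀ m δ k r Q₁ Q₂ :=
  ⟨Cpar nf w c₀, Cpar_pos nf w c₀, par2x nf w c₀ hnf⟩

end CM68
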