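import Pool.Agent.LibCM68.Q1
import Pool.Agent.LibCM2.MO

/-!
# Row QD: the question as the member `y = 1/4` (SHORT/MEDIUM)

Plan: `z = ζ(3) / π^3`, `A = hz 3 (1/4)`, `B = hz 3 (1 - 1/4) = hz 3 (3/4) > 0`; `A + B = 56 ζ(3)`, `A - B = 2 π^3` (see LibCM68/Q1.lean), so
`A = π^3 (28 z + 1)`, `B = π^3 (28 z - 1)`, `A / B = (28 z + 1) / (28 z + (-1))`, `28 z - 1 ≠ 0`, and
`z = (1 * (A/B) + 1) / (28 * (A/B) + (-28))`, `A / B ≠ 1`.  `mobius_root` both ways.
-/

namespace CM68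

open Finset Polynomial

private theorem QD_pos : 0 < hz 3 (3 / 4) := by
  have hs : Summable fun n : ℕ => 1 / ((n : ℝ) + 3 / 4) ^ 3 := by
    have h := (summable_nat_add_iff 1).2 (Real.summable_one_div_nat_pow.2 (by norm_num : 1 < 3))
    refine Summable.of_nonneg_of_le (fun n => by positivity) (fun n => ?_)
      (h.mul_left ((4 / 3 : ℝ) ^ 3))
    have e : (4 / 3 : ℝ) ^ 3 * (1 / (((n + 1 : ℕ) : ℝ)) ^ 3) = 1 / (3 / 4 * ((n : ℝ) + 1)) ^ 3 := by
      have h0 : (n : ℝ) + 1 ≠ 0 := by positivity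
      push_cast
      field_simp
    rw [e]
    apply one_div_le_one_div_of_le (by positivity)
    apply pow_le_pow_left₀ (by positivity)
    have : (0 : ℝ) ≤ n := Nat.cast_nonneg n
    linarith
  rw [hz]
  exact hs.tsum_pos (fun n => by positivity) 0 (by norm_num)

theorem qd (g : ℕ) :
    (∃ P : ℚ[X], P ≠ 0 ∧ P.natDegree ≤ g ∧
      aeval ((∑' n : ℕ, 1 / ((n : ℝ) + 1) ^ 3) / Real.pi ^ 3) P = 0) ↔
    ∃ P : ℚ[X], P ≠ 0 ∧ P.natDegree ≤ g ∧ aeval (hz 3 (1 / 4) / hz 3 (1 - 1 / 4)) P = 0 := by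
  have hs := hz_sum
  have hd := hz_diff
  have hpi : Real.pi ^ 3 ≠ 0 := pow_ne_zero 3 Real.pi_ne_zero
  have hpi0 : 0 < Real.pi ^ 3 := pow_pos Real.pi_pos 3
  have hB := QD_pos
  rw [show (1 : ℝ) - 1 / 4 = 3 / 4 by norm_num]
  set A := hz 3 (1 / 4) with hA
  set B := hz 3 (3 / 4) with hB'
  set S := ∑' n : ℕ, 1 / ((n : ℝ) + 1) ^ 3 with hS
  set p := Real.pi ^ 3 with hp
  have hAe : A = 28 * S + p := by linarith
  have hBe : B = 28 * S - p := by linarith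
  have hne : 28 * S - p ≠ 0 := by
    rw [← hBe]
    exact hB.ne'
  constructor
  · rintro ⟨P, hP, hg, h⟩
    have hden : (((28 : ℚ) : ℝ)) * (S / p) + ((-1 : ℚ) : ℝ) ≠ 0 := by
      intro h0
      apply hne
      push_cast at h0
      have h1 : 28 * (S / p) = 1 := by linarith
      have h2 : 28 * S = p := by
        field_simp at h1
        exact h1
      linarith
    obtain ⟨Q, hQ, hQg, hQr⟩ := mobius_root hP hg h (a := 28) (b := 1) (c := 28) (d := -1)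
      (by norm_num) hden
    refine ⟨Q, hQ, hQg, ?_⟩
    have e : (((28 : ℚ) : ℝ) * (S / p) + ((1 : ℚ) : ℝ)) /
        (((28 : ℚ) : ℝ) * (S / p) + ((-1 : ℚ) : ℝ)) = A / B := by
      rw [div_eq_div_iff hden hB.ne', hAe, hBe]
      push_cast
      field_simp
      ring
    rwa [e] at hQr
  · rintro ⟨P, hP, hg, h⟩
    have hden : (((28 : ℚ) : ℝ)) * (A / B) + ((-28 : ℚ) : ℝ) ≠ 0 := by
      intro h0
      push_cast at h0
      have h1 : A / B = 1 := by linarith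
      rw [div_eq_one_iff_eq hB.ne'] at h1
      linarith
    obtain ⟨Q, hQ, hQg, hQr⟩ := mobius_root hP hg h (a := 1) (b := 1) (c := 28) (d := -28)
      (by norm_num) hden
    refine ⟨Q, hQ, hQg, ?_⟩
    have e : (((1 : ℚ) : ℝ) * (A / B) + ((1 : ℚ) : ℝ)) /
        (((28 : ℚ) : ℝ) * (A / B) + ((-28 : ℚ) : ℝ)) = S / p := by
      rw [div_eq_div_iff hden hpi]
      have hB0 : B ≠ 0 := hB.ne'
      push_cast
      field_simp
      rw [hAe, hBe]
      ring
    rwa [e] at hQr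

end CM68
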