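import Pool.Agent.LibCM68.REP
import Pool.Agent.LibCM2.C1

/-!
# Row RA: the data of a set of exceptional points, all polynomial relations (MEDIUM)

Plan: `ι = ↥(J ×ˢ Cs)`, `φ : ι ≃ Fin N`, `N = (J ×ˢ Cs).card` (`Finset.equivFin`), `M = 0`; `ks i = (φ.symm i).1.1`, `cs i = (φ.symm i).1.2`,
`kt, ct` from `Fin 0` (`Fin.elim0`).  `P x` chosen for `x ∈ I`.  `co μ x = (P x).coeff (m μ) * q^(∑ i, ks i * μ.1 i)`, `m μ : ι →₀ ℕ` the exponent
`p ↦ μ.1 (φ p)` (`Finsupp.equivFunOnFinite.symm`).  `hz k (y/q) = q^k * sk q k y` (`hz_scale`).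
`hrel`: `MvPolynomial.aeval_def`, `eval₂_eq'` (sum over the support of `∏ i, x i ^ m i`); the support is contained in the image of
`monos N 0 g` (`le_totalDegree`, `∑ m p ≤ e ≤ g`), the other coefficients are `0` (`Finset.sum_subset`, `sum_nbij'`); reindex the product by
`φ` (`Fintype.prod_equiv`).  `hsup`: `coeff ≠ 0` gives `∑ ≤ totalDegree = e` (`MvPolynomial.le_totalDegree`, `mem_support_iff`), `μ.2 = 0`
(`Fin 0`).  `hlead`: some `m` in the support has `∑ m = totalDegree` (`MvPolynomial.totalDegree`, `Finset.exists_mem_eq_sup`, the support is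
not empty since `e ≥ 1`).
-/

namespace CM68

open Finset

/-- a polynomial relation of degree `e` between the numbers `ζ(k, ((x + c) mod q) / q)`, `k ∈ J`, `c ∈ Cs` -/
def RelA (J Cs : Finset ℕ) (e q x : ℕ) (P : MvPolynomial (J ×ˢ Cs : Finset (ℕ × ℕ)) ℚ) : Prop :=
  P.totalDegree = e ∧ MvPolynomial.aeval (fun p : (J ×ˢ Cs : Finset (ℕ × ℕ)) =>
    hz (p : ℕ × ℕ).1 ((((x + (p : ℕ × ℕ).2) % q : ℕ) : ℝ) / q)) P = 0

/-- the exponent of `MvPolynomial` -/
private noncomputable def RA_mo {ι : Type*} [Fintype ι] {N : ℕ} (φ : ι ≃ Fin N) (μ : Mon N 0) : ι →₀ ℕ :=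
  Finsupp.equivFunOnFinite.symm (fun p => μ.1 (φ p))

private theorem RA_mo_apply {ι : Type*} [Fintype ι] {N : ℕ} (φ : ι ≃ Fin N) (μ : Mon N 0) (p : ι) :
    RA_mo φ μ p = μ.1 (φ p) := rfl

private theorem RA_mo_inj {ι : Type*} [Fintype ι] {N : ℕ} (φ : ι ≃ Fin N) :
    Function.Injective (RA_mo φ) := by
  intro μ ν h
  refine Prod.ext ?_ (Subsingleton.elim _ _)
  funext i
  have h1 := DFunLike.congr_fun h (φ.symm i)
  rw [RA_mo_apply, RA_mo_apply, Equiv.apply_symm_apply] at h1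
  exact h1

private theorem RA_mo_surj {ι : Type*} [Fintype ι] {N : ℕ} (φ : ι ≃ Fin N) (m : ι →₀ ℕ) :
    RA_mo φ (fun i => m (φ.symm i), 0) = m := by
  ext p
  rw [RA_mo_apply]
  simp

private theorem RA_mo_sum {ι : Type*} [Fintype ι] {N : ℕ} (φ : ι ≃ Fin N) (μ : Mon N 0) :
    ((RA_mo φ μ).sum fun _ e => e) = ∑ i, μ.1 i := by
  rw [Finsupp.sum_fintype _ _ (fun _ => rfl)]
  simp only [RA_mo_apply]
  exact Equiv.sum_comp φ (fun i => μ.1 i)

private theorem RA_rel {ι : Type*} [Fintype ι] {N g e : ℕ} (φ : ι ≃ Fin N)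
    (P : MvPolynomial ι ℚ) (f : ι → ℝ) (he : P.totalDegree = e) (heg : e ≤ g)
    (h : MvPolynomial.aeval f P = 0) :
    ∑ μ ∈ monos N 0 g, ((P.coeff (RA_mo φ μ) : ℚ) : ℝ) * ∏ i, f (φ.symm i) ^ μ.1 i = 0 := by
  classical
  rw [MvPolynomial.aeval_def, MvPolynomial.eval₂_eq'] at h
  rw [← h]
  have h1 : ∀ μ : Mon N 0, ((P.coeff (RA_mo φ μ) : ℚ) : ℝ) * ∏ i, f (φ.symm i) ^ μ.1 i =
      (fun m : ι →₀ ℕ => (algebraMap ℚ ℝ) (P.coeff m) * ∏ p, f p ^ m p) (RA_mo φ μ) := by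
    intro μ
    simp only [RA_mo_apply]
    have h2 : ∏ i, f (φ.symm i) ^ μ.1 i = ∏ p, f p ^ μ.1 (φ p) := by
      rw [← Equiv.prod_comp φ (fun i => f (φ.symm i) ^ μ.1 i)]
      refine Finset.prod_congr rfl fun p _ => ?_
      rw [Equiv.symm_apply_apply]
    rw [h2]
    rfl
  have h3 : ∑ μ ∈ monos N 0 g,
      (fun m : ι →₀ ℕ => (algebraMap ℚ ℝ) (P.coeff m) * ∏ p, f p ^ m p) (RA_mo φ μ) =
      ∑ m ∈ (monos N 0 g).image (RA_mo φ),
        (fun m : ι →₀ ℕ => (algebraMap ℚ ℝ) (P.coeff m) * ∏ p, f p ^ m p) m := by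
    generalize (fun m : ι →₀ ℕ => (algebraMap ℚ ℝ) (P.coeff m) * ∏ p, f p ^ m p) = G
    rw [Finset.sum_image]
    exact (RA_mo_inj φ).injOn
  rw [Finset.sum_congr rfl fun μ _ => h1 μ, h3]
  symm
  refine Finset.sum_subset ?_ ?_
  · intro m hm
    refine mem_image.2 ⟨(fun i => m (φ.symm i), 0), ?_, RA_mo_surj φ m⟩
    rw [mem_monos]
    have h2 := MvPolynomial.le_totalDegree hm
    rw [← RA_mo_surj φ m, RA_mo_sum, he] at h2
    simp only [Finset.univ_eq_empty, Finset.sum_empty, add_zero]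
    exact h2.trans heg
  · intro m _ hm
    rw [MvPolynomial.notMem_support_iff] at hm
    rw [hm, map_zero, zero_mul]

theorem repA {q w g e : ℕ} {J Cs I : Finset ℕ} (hq : 2 ≤ q) (hJ : ∀ k ∈ J, 2 ≤ k ∧ k ≤ w)
    (hC : ∀ c ∈ Cs, c < q) (he : 1 ≤ e) (heg : e ≤ g)
    (hI : ∀ x ∈ I, x < q ∧ (∀ c ∈ Cs, 0 < (x + c) % q) ∧ ∃ P, RelA J Cs e q x P) :
    ∃ D : Dat2, D.q = q ∧ D.w = w ∧ D.g = g ∧ D.e = e ∧ D.N = (J ×ˢ Cs).card ∧ D.M = 0 ∧ D.I = I := by
  classical
  set N := (J ×ˢ Cs).card with hN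
  set φ := (J ×ˢ Cs).equivFin with hφ
  have hex : ∀ x, ∃ P : MvPolynomial (J ×ˢ Cs : Finset (ℕ × ℕ)) ℚ, x ∈ I → RelA J Cs e q x P := by
    intro x
    by_cases hx : x ∈ I
    · obtain ⟨P, hP⟩ := (hI x hx).2.2
      exact ⟨P, fun _ => hP⟩
    · exact ⟨0, fun h => absurd h hx⟩
  choose P hP using hex
  have hq1 : 1 ≤ q := by omega
  have hmem : ∀ i : Fin N, (φ.symm i : ℕ × ℕ).1 ∈ J ∧ (φ.symm i : ℕ × ℕ).2 ∈ Cs := fun i =>
    mem_product.1 (φ.symm i).2
  have hqQ : (q : ℚ) ≠ 0 := by exact_mod_cast (by omega : q ≠ 0)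
  have hco : ∀ (μ : Mon N 0) (x : ℕ), (P x).coeff (RA_mo φ μ) *
      (q : ℚ) ^ (∑ i, (φ.symm i : ℕ × ℕ).1 * μ.1 i) ≠ 0 → RA_mo φ μ ∈ (P x).support := by
    intro μ x h
    rw [MvPolynomial.mem_support_iff]
    exact left_ne_zero_of_mul h
  refine ⟨{ q := q, w := w, g := g, e := e, N := N, M := 0
            ks := fun i => (φ.symm i : ℕ × ℕ).1
            cs := fun i => (φ.symm i : ℕ × ℕ).2
            kt := fun i => i.elim0
            ct := fun i => i.elim0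
            I := I
            co := fun μ x => (P x).coeff (RA_mo φ μ) *
              (q : ℚ) ^ (∑ i, (φ.symm i : ℕ × ℕ).1 * μ.1 i)
            hq := hq
            hks := fun i => hJ _ (hmem i).1
            hkt := fun i => i.elim0
            hcs := fun i => hC _ (hmem i).2
            hct := fun i => i.elim0
            hinj := fun a b hab => φ.symm.injective (Subtype.ext (by simpa using hab))
            hI := fun x hx => (hI x hx).1
            hxs := fun x hx i => (hI x hx).2.1 _ (hmem i).2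
            hxt := fun x hx i => i.elim0
            he := he
            heg := heg
            hsup := ?_, hlead := ?_, hrel := ?_ }, rfl, rfl, rfl, rfl, rfl, rfl, rfl⟩
  · intro x hx μ _ h
    have h1 := MvPolynomial.le_totalDegree (hco μ x h)
    rw [RA_mo_sum, (hP x hx).1] at h1
    rcases Nat.lt_or_ge (∑ i, μ.1 i) e with h2 | h2
    · exact Or.inl h2
    · exact Or.inr ⟨le_antisymm h1 h2, Subsingleton.elim _ _⟩
  · intro x hx
    have hP0 : P x ≠ 0 := by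
      intro h0
      have h1 := (hP x hx).1
      rw [h0, MvPolynomial.totalDegree_zero] at h1
      omega
    have hne : (P x).support.Nonempty := by
      rw [Finset.nonempty_iff_ne_empty, Ne, MvPolynomial.support_eq_empty]
      exact hP0
    obtain ⟨m, hm, hm2⟩ := Finset.exists_mem_eq_sup (P x).support hne
      (fun s : (J ×ˢ Cs : Finset (ℕ × ℕ)) →₀ ℕ => s.sum fun _ e => e)
    have h2 : (m.sum fun _ e => e) = e := by
      rw [← (hP x hx).1]
      exact hm2.symm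
    have h3 : ∑ i, ((fun i => m (φ.symm i), 0) : Mon N 0).1 i = e := by
      rw [← h2, ← RA_mo_sum φ, RA_mo_surj]
    refine ⟨(fun i => m (φ.symm i), 0), ?_, h3, ?_⟩
    · rw [mem_monos, h3]
      simp only [Finset.univ_eq_empty, Finset.sum_empty, add_zero]
      exact heg
    · rw [RA_mo_surj]
      exact mul_ne_zero (MvPolynomial.mem_support_iff.1 hm) (pow_ne_zero _ hqQ)
  · intro x hx
    rw [← RA_rel φ (P x) _ (hP x hx).1 heg (hP x hx).2]
    refine Finset.sum_congr rfl fun μ _ => ?_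
    rw [Finset.univ_eq_empty (α := Fin 0), Finset.prod_empty, mul_one, Rat.cast_mul, mul_assoc]
    congr 1
    rw [Rat.cast_pow, Rat.cast_natCast, ← Finset.prod_pow_eq_pow_sum, ← Finset.prod_mul_distrib]
    refine Finset.prod_congr rfl fun i _ => ?_
    rw [hz_scale hq1, mul_pow, pow_mul]

end CM68
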