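import Pool.Agent.LibCM2.C1
import Pool.Agent.LibCM2.FB

/-!
# Row RB: the data of a set of exceptional points, the ratio (MEDIUM)

Plan: `N = M = 1`, `w = k`, `ks = kt = fun _ => k`, `cs = ct = fun _ => 0`, `co μ x = if μ.1 0 + μ.2 0 = e then b x (μ.1 0) else 0`
(`b x` chosen for `x ∈ I`, e.g. `Classical.choose`, `0` outside `I`).  `(x + 0) % q = x`.  `hsup`: `μ.1 0 + μ.2 0 = e` gives `μ.1 0 < e` or (`μ.1 0 = e`
and `μ.2 0 = 0`, `funext`, `Fin 1`).  `hlead`: `μ = (fun _ => e, fun _ => 0)`.  `hrel`: `Finset.sum_ite`/`sum_filter`, then the filter of `monos 1 1 g`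
by `μ.1 0 + μ.2 0 = e` is the image of `range (e + 1)` under `i ↦ (fun _ => i, fun _ => e - i)` (`Finset.sum_nbij'`, `mem_monos`,
`Fin.sum_univ_one`, `Fin.prod_univ_one`).
-/

namespace CM68

open Finset Polynomial

private theorem RB_sum {g e : ℕ} (heg : e ≤ g) (b : ℕ → ℚ) (s T : ℝ)
    (h : ∑ i ∈ range (e + 1), (b i : ℝ) * s ^ i * T ^ (e - i) = 0) :
    ∑ μ ∈ monos 1 1 g, (((if μ.1 0 + μ.2 0 = e then b (μ.1 0) else 0 : ℚ)) : ℝ) *
      (s ^ μ.1 0 * T ^ μ.2 0) = 0 := by
  rw [← h]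
  symm
  refine Finset.sum_of_injOn (fun i => ((fun _ => i, fun _ => e - i) : Mon 1 1)) ?_ ?_ ?_ ?_
  · intro i _ j _ hij
    have h1 := congrArg (fun μ : Mon 1 1 => μ.1 0) hij
    exact h1
  · intro i hi
    have hi' : i < e + 1 := Finset.mem_range.1 (Finset.mem_coe.1 hi)
    rw [Finset.mem_coe, mem_monos]
    simp only [Finset.univ_unique, Finset.sum_const, Finset.card_singleton, one_smul]
    omega
  · intro μ _ hμ
    rw [if_neg, Rat.cast_zero, zero_mul]
    intro h1
    apply hμ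
    refine ⟨μ.1 0, ?_, ?_⟩
    · rw [Finset.mem_coe, Finset.mem_range]
      omega
    · refine Prod.ext (funext fun a => ?_) (funext fun a => ?_)
      · show μ.1 0 = μ.1 a
        rw [Subsingleton.elim a 0]
      · show e - μ.1 0 = μ.2 a
        rw [Subsingleton.elim a 0]
        omega
  · intro i hi
    have hi' : i < e + 1 := Finset.mem_range.1 hi
    have h1 : i + (e - i) = e := by omega
    simp only [h1, if_true]
    ring

theorem repB {q k g e : ℕ} {I : Finset ℕ} (hq : 2 ≤ q) (hk : 2 ≤ k) (he : 1 ≤ e) (heg : e ≤ g)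
    (hI : ∀ x ∈ I, 0 < x ∧ x < q ∧ ∃ b : ℕ → ℚ, RelB k e q x b) :
    ∃ D : Dat2, D.q = q ∧ D.w = k ∧ D.g = g ∧ D.e = e ∧ D.N = 1 ∧ D.M = 1 ∧ D.I = I := by
  classical
  have hb : ∃ b : ℕ → ℕ → ℚ, ∀ x ∈ I, RelB k e q x (b x) := by
    choose! hx0 hxq b hb using hI
    exact ⟨b, hb⟩
  obtain ⟨b, hb⟩ := hb
  have hmod : ∀ x ∈ I, (x + 0) % q = x := by
    intro x hx
    rw [add_zero, Nat.mod_eq_of_lt (hI x hx).2.1]
  refine ⟨{ q := q, w := k, g := g, e := e, N := 1, M := 1, ks := fun _ => k, cs := fun _ => 0, kt := fun _ => k,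
            ct := fun _ => 0, I := I, co := fun μ x => if μ.1 0 + μ.2 0 = e then b x (μ.1 0) else 0,
            hq := hq, hks := fun _ => ⟨hk, le_refl _⟩, hkt := fun _ => ⟨hk, le_refl _⟩, hcs := fun _ => by omega,
            hct := fun _ => by omega, hinj := fun a b _ => Subsingleton.elim a b, hI := fun x hx => (hI x hx).2.1,
            hxs := fun x hx _ => ?_, hxt := fun x hx _ => ?_, he := he, heg := heg, hsup := ?_, hlead := ?_, hrel := ?_ },
    rfl, rfl, rfl, rfl, rfl, rfl, rfl⟩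
  · rw [hmod x hx]
    exact (hI x hx).1
  · rw [hmod x hx]
    exact (hI x hx).1
  · intro x _ μ _ hμ
    have h1 : μ.1 0 + μ.2 0 = e := by
      by_contra h
      exact hμ (if_neg h)
    have e1 : ∑ i, μ.1 i = μ.1 0 := by simp
    rw [e1]
    rcases Nat.eq_zero_or_pos (μ.2 0) with h2 | h2
    · right
      refine ⟨by omega, funext fun a => ?_⟩
      rw [Subsingleton.elim a 0]
      exact h2
    · left
      omega
  · intro x hx
    refine ⟨(fun _ => e, fun _ => 0), ?_, ?_, ?_⟩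
    · rw [mem_monos]
      simp only [Finset.univ_unique, Finset.sum_const, Finset.card_singleton, one_smul]
      omega
    · simp
    · show (if e + 0 = e then b x e else 0) ≠ 0
      rw [if_pos (add_zero e)]
      exact (hb x hx).1
  · intro x hx
    have h1 := RB_sum (g := g) heg (b x) (sk q k x) (sk q k x + (-1) ^ k * sk q k ((q : ℝ) - x)) (hb x hx).2
    refine Eq.trans (Finset.sum_congr rfl fun μ _ => ?_) h1
    simp only [Finset.univ_unique, Finset.prod_singleton, hmod x hx]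
    rfl

end CM68
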