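import Pool.Agent.LibCM2.CORE2
import Pool.Agent.LibCM2.PAR2
import Pool.Agent.LibCM2.RA

/-!
# The count for all polynomial relations, with an explicit constant (helper68; row TA typed by the CM2 typists)
-/

namespace CM68

open Finset

theorem exp_four_le : Real.exp 4 ≤ 55 := by
  have h1 : Real.exp 4 = Real.exp 1 ^ 4 := by
    rw [← Real.exp_nat_mul]
    norm_num
  have h2 := Real.exp_one_lt_d9
  have h3 := Real.exp_pos 1
  rw [h1]
  calc Real.exp 1 ^ 4 ≤ 2.7182818286 ^ 4 := by gcongr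
    _ ≤ 55 := by norm_num

theorem expo_card_le_monos {N M g e : ℕ} (he : e ≤ g) :
    (expo N e).card ≤ (monos N M g).card := by
  refine card_le_card_of_injOn (fun β => (β, 0)) ?_ ?_
  · intro β hβ
    have hβ' := mem_expo.1 (mem_coe.1 hβ)
    refine mem_coe.2 (mem_monos.2 ?_)
    simp only [Pi.zero_apply, sum_const_zero, add_zero]
    omega
  · intro β _ γ _ h
    exact congrArg Prod.fst h

/-- the constant for one `e` -/
theorem CA_le {N w g b c₀ nf : ℕ} (hN : 1 ≤ N) (hg : 1 ≤ g) (hw : 2 ≤ w) (hb : b = nf + 1) (hb2 : 2 ≤ b)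
    (hc : c₀ ≤ b ^ 2) :
    Cpar nf (g * (w * N)) c₀ ≤ 400000 * (w * N) * g * (b : ℝ) ^ 5 := by
  have h1 : c₀ * (nf + 2) + 1 ≤ 2 * b ^ 3 := by
    have e1 : nf + 2 = b + 1 := by omega
    rw [e1]
    have e2 : c₀ * (b + 1) ≤ b ^ 2 * (b + 1) := Nat.mul_le_mul_right _ hc
    have e3 : b ^ 2 + 1 ≤ b ^ 3 := by
      have : b ^ 3 = b ^ 2 * b := by ring
      rw [this]
      nlinarith [Nat.one_le_pow 2 b (by omega)]
    have e4 : b ^ 2 * (b + 1) = b ^ 3 + b ^ 2 := by ring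
    omega
  have h2 : 4 * (nf + 2) ^ 2 ≤ 9 * b ^ 2 := by
    have e1 : nf + 2 = b + 1 := by omega
    rw [e1]
    nlinarith
  have h3 : 2 * (g * (w * N) + 1) ≤ 3 * (g * (w * N)) := by
    have e1 : 1 * (2 * 1) ≤ g * (w * N) := Nat.mul_le_mul hg (Nat.mul_le_mul hw hN)
    omega
  have h4 := exp_four_le
  have h1' : ((c₀ * (nf + 2) + 1 : ℕ) : ℝ) ≤ 2 * (b : ℝ) ^ 3 := by exact_mod_cast h1
  have h2' : 4 * ((nf : ℝ) + 2) ^ 2 ≤ 9 * (b : ℝ) ^ 2 := by exact_mod_cast h2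
  have h3' : 2 * ((g : ℝ) * (w * N) + 1) ≤ 3 * (g * (w * N)) := by exact_mod_cast h3
  have h5 : ((416 * (nf + 2) ^ 2 * (g * (w * N) + 1) : ℕ) : ℝ) ≤ 1404 * (b : ℝ) ^ 2 * (g * (w * N)) := by
    push_cast
    have e1 : (4 * ((nf : ℝ) + 2) ^ 2) * (2 * ((g : ℝ) * (w * N) + 1)) ≤
        (9 * (b : ℝ) ^ 2) * (3 * (g * (w * N))) := by gcongr
    linarith
  unfold Cpar
  calc 2 * ((c₀ * (nf + 2) + 1 : ℕ) : ℝ) * ((416 * (nf + 2) ^ 2 * (g * (w * N) + 1) : ℕ) : ℝ) *
        Real.exp 4 ≤ 2 * (2 * (b : ℝ) ^ 3) * (1404 * (b : ℝ) ^ 2 * (g * (w * N))) * 55 := by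
        gcongr
    _ = 308880 * ((w : ℝ) * N) * g * (b : ℝ) ^ 5 := by ring
    _ ≤ 400000 * (w * N) * g * (b : ℝ) ^ 5 := by gcongr; norm_num

theorem degree_count {J : Finset ℕ} (hne : J.Nonempty) {w : ℕ} (h2 : ∀ k ∈ J, 2 ≤ k ∧ k ≤ w) {r g : ℕ}
    (hr : 1 ≤ r) (hg : 1 ≤ g) {q : ℕ} (hq : 2 ≤ q) {Cs : Finset ℕ} (hcard : Cs.card = r)
    (hCs : ∀ c ∈ Cs, c < q) :
      ({x : ℕ | x < q ∧ (∀ c ∈ Cs, 0 < (x + c) % q) ∧
        ∃ P : MvPolynomial (J ×ˢ Cs : Finset (ℕ × ℕ)) ℚ, P ≠ 0 ∧ P.totalDegree ≤ g ∧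
          MvPolynomial.aeval (fun p : (J ×ˢ Cs : Finset (ℕ × ℕ)) =>
            hz (p : ℕ × ℕ).1 ((((x + (p : ℕ × ℕ).2) % q : ℕ) : ℝ) / q)) P = 0}.ncard : ℝ) ≤
        400000 * (w * (J.card * r)) * (g : ℝ) ^ 2 * ((J.card * r + g).choose g : ℝ) ^ 5 *
          (q : ℝ) ^ (1 - 1 / (((J.card * r + g).choose g : ℝ) + 1)) := by
  classical
  have hJ1 : 1 ≤ J.card := hne.card_pos
  have hN1 : 1 ≤ J.card * r := Nat.one_le_iff_ne_zero.2 (by positivity)
  have hch : 2 ≤ (J.card * r + g).choose g := by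
    have h1 : (1 + g).choose g ≤ (J.card * r + g).choose g := Nat.choose_le_choose g (by omega)
    have h3 : (1 + g).choose g = g + 1 := by
      rw [add_comm 1 g, Nat.choose_succ_self_right]
    omega
  obtain ⟨nf, hnf⟩ : ∃ nf, (J.card * r + g).choose g = nf + 1 :=
    ⟨(J.card * r + g).choose g - 1, by omega⟩
  have hnf1 : 1 ≤ nf := by omega
  have hw2 : 2 ≤ w := by
    obtain ⟨k, hk⟩ := hne
    exact (h2 k hk).1.trans (h2 k hk).2
  set Cf : ℕ → ℝ := fun e => Cpar nf (g * (w * (J.card * r)))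
    ((expo (J.card * r) e).card * ((expo 0 g).card * (monos (J.card * r) 0 g).card)) with hCfdef
  have hCf := fun e : ℕ => par2x nf (g * (w * (J.card * r)))
    ((expo (J.card * r) e).card * ((expo 0 g).card * (monos (J.card * r) 0 g).card)) hnf1
  have hexp : (1 : ℝ) - 1 / (((J.card * r + g).choose g : ℝ) + 1) = 1 - 1 / ((nf : ℝ) + 2) := by
    rw [hnf]
    push_cast
    ring_nf
  rw [hexp]
  set θ : ℝ := 1 - 1 / ((nf : ℝ) + 2) with hθ
  have hqθ : 0 ≤ (q : ℝ) ^ θ := Real.rpow_nonneg (Nat.cast_nonneg q) θ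
  set I : ℕ → Finset ℕ := fun e => (range q).filter fun x => (∀ c ∈ Cs, 0 < (x + c) % q) ∧
    ∃ P, RelA J Cs e q x P with hIdef
  have hIcard : ∀ e, 1 ≤ e → e ≤ g → ((I e).card : ℝ) ≤ Cf e * (q : ℝ) ^ θ := by
    intro e he heg
    by_contra hcon
    push Not at hcon
    have hIq : (I e).card ≤ q := by
      calc (I e).card ≤ (range q).card := card_le_card (filter_subset _ _)
        _ = q := card_range q
    obtain ⟨δ, k, r', Q₁, Q₂, hA⟩ := hCf e q (I e).card hq hIq hcon.le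
    obtain ⟨D, e1, e2, e3, e4, e5, e6, e7⟩ := repA (q := q) (w := w) (g := g) (e := e)
      (J := J) (Cs := Cs) (I := I e) hq h2 hCs
      he heg (by
        intro x hx
        rw [hIdef, mem_filter, mem_range] at hx
        exact ⟨hx.1, hx.2.1, hx.2.2⟩)
    have eN : D.N = J.card * r := by rw [e5, card_product, hcard]
    have eMs : D.Ms.card = (J.card * r + g).choose g := by
      unfold Dat2.Ms
      rw [card_monos, eN, e6, e3, add_zero]
    have eMs' : (D.Ms.erase 0).card = nf := by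
      have hz0 : (0 : Mon D.N D.M) ∈ D.Ms := zero_mem_monos _ _ _
      rw [card_erase_of_mem hz0, eMs, hnf, Nat.add_sub_cancel]
    have eww : D.g * D.ww = g * (w * (J.card * r)) := by
      unfold Dat2.ww
      rw [e3, e2, eN, e6, add_zero]
    have ec0 : D.c0 = (expo (J.card * r) e).card *
        ((expo 0 g).card * (monos (J.card * r) 0 g).card) := by
      unfold Dat2.c0 Dat2.Ms
      rw [eN, e6, e3, e4]
    refine core2 D (δ := δ) (k := k) (r := r') (Q₁ := Q₁) (Q₂ := Q₂) ?_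
    rw [eMs', eww, ec0, e1, e7]
    exact hA
  have hsub : {x : ℕ | x < q ∧ (∀ c ∈ Cs, 0 < (x + c) % q) ∧
      ∃ P : MvPolynomial (J ×ˢ Cs : Finset (ℕ × ℕ)) ℚ, P ≠ 0 ∧ P.totalDegree ≤ g ∧
        MvPolynomial.aeval (fun p : (J ×ˢ Cs : Finset (ℕ × ℕ)) =>
          hz (p : ℕ × ℕ).1 ((((x + (p : ℕ × ℕ).2) % q : ℕ) : ℝ) / q)) P = 0} ⊆
      (((Icc 1 g).biUnion I : Finset ℕ) : Set ℕ) := by
    rintro x ⟨hx1, hx2, P, hP, hPg, hP0⟩
    rw [mem_coe, mem_biUnion]
    refine ⟨P.totalDegree, ?_, ?_⟩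
    · rw [mem_Icc]
      refine ⟨?_, hPg⟩
      by_contra hcon
      have h0 : P.totalDegree = 0 := by omega
      rw [MvPolynomial.totalDegree_eq_zero_iff_eq_C] at h0
      rw [h0, MvPolynomial.aeval_C] at hP0
      have h3 : MvPolynomial.coeff 0 P = 0 := by
        have h4 : (algebraMap ℚ ℝ) (MvPolynomial.coeff 0 P) = 0 := hP0
        exact (map_eq_zero (algebraMap ℚ ℝ)).1 h4
      rw [h3, MvPolynomial.C_0] at h0
      exact hP h0
    · rw [hIdef, mem_filter, mem_range]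
      exact ⟨hx1, hx2, P, rfl, hP0⟩
  have hfin := Set.ncard_le_ncard hsub (Finset.finite_toSet _)
  rw [Set.ncard_coe_finset] at hfin
  refine le_trans (Nat.cast_le.2 hfin) ?_
  have hCe : ∀ e, e ≤ g → Cf e ≤ 400000 * (w * (J.card * r)) * g *
      (((J.card * r + g).choose g : ℕ) : ℝ) ^ 5 := by
    intro e heg
    have hm : (monos (J.card * r) 0 g).card = (J.card * r + g).choose g := by
      rw [card_monos, add_zero]
    have hc : (expo (J.card * r) e).card * ((expo 0 g).card * (monos (J.card * r) 0 g).card) ≤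
        ((J.card * r + g).choose g) ^ 2 := by
      have e1 : (expo (J.card * r) e).card ≤ (J.card * r + g).choose g :=
        hm ▸ expo_card_le_monos heg
      have e2 : (expo 0 g).card ≤ 1 := card_expo_le 0 g
      calc _ ≤ (J.card * r + g).choose g * (1 * (J.card * r + g).choose g) := by
            rw [hm]
            exact Nat.mul_le_mul e1 (Nat.mul_le_mul_right _ e2)
        _ = _ := by ring
    have := CA_le (N := J.card * r) (w := w) (g := g) (b := (J.card * r + g).choose g) hN1 hg hw2 hnf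
      hch hc
    rw [hCfdef]
    push_cast at this ⊢
    exact this
  calc (((Icc 1 g).biUnion I).card : ℝ) ≤ ((∑ e ∈ Icc 1 g, (I e).card : ℕ) : ℝ) :=
        Nat.cast_le.2 card_biUnion_le
    _ = ∑ e ∈ Icc 1 g, ((I e).card : ℝ) := by push_cast; rfl
    _ ≤ ∑ e ∈ Icc 1 g, Cf e * (q : ℝ) ^ θ := by
        refine Finset.sum_le_sum fun e he => ?_
        rw [mem_Icc] at he
        exact hIcard e he.1 he.2
    _ ≤ ∑ e ∈ Icc 1 g, 400000 * (w * (J.card * r)) * g *
          (((J.card * r + g).choose g : ℕ) : ℝ) ^ 5 * (q : ℝ) ^ θ := by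
        refine Finset.sum_le_sum fun e he => ?_
        rw [mem_Icc] at he
        exact mul_le_mul_of_nonneg_right (hCe e he.2) hqθ
    _ = 400000 * (w * (J.card * r)) * (g : ℝ) ^ 2 * (((J.card * r + g).choose g : ℕ) : ℝ) ^ 5 *
          (q : ℝ) ^ θ := by
        rw [Finset.sum_const, Nat.card_Icc, nsmul_eq_mul]
        push_cast
        ring

end CM68
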