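import Pool.Agent.LibCM2.TAx
import Pool.Agent.LibCM2.RB

/-!
# The count for the ratio, with an explicit constant (helper68; row TB typed by the CM2 typists)
-/

namespace CM68

open Finset Polynomial

/-- the number of families as a real number -/
theorem TB_nf (g : ℕ) : (((2 + g).choose g - 1 : ℕ) : ℝ) + 2 = ((g : ℝ) ^ 2 + 3 * g + 4) / 2 := by
  have h1 : (2 + g).choose g = (g + 2).choose 2 := by
    rw [add_comm 2 g]
    exact Nat.choose_symm_add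
  have hpos : 1 ≤ (2 + g).choose g := Nat.choose_pos (by omega)
  have h2 : (((2 + g).choose g - 1 : ℕ) : ℝ) = ((g + 2).choose 2 : ℕ) - 1 := by
    rw [Nat.cast_sub hpos, h1]
    simp
  rw [h2, Nat.cast_choose_two]
  push_cast
  ring

theorem TB_theta (g : ℕ) : 1 - 1 / ((((2 + g).choose g - 1 : ℕ) : ℝ) + 2)
    = 1 - 2 / ((g : ℝ) ^ 2 + 3 * g + 4) := by
  rw [TB_nf, one_div_div]

/-- the exceptional points with a relation of degree `e` -/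
theorem TB_count {k g e : ℕ} (hk : 2 ≤ k) (he : 1 ≤ e) (heg : e ≤ g) {C : ℝ}
    (hC : ∀ q m : ℕ, 2 ≤ q → m ≤ q →
      C * (q : ℝ) ^ (1 - 1 / ((((2 + g).choose g - 1 : ℕ) : ℝ) + 2)) ≤ m →
      ∃ δ k' r Q₁ Q₂ : ℕ, Adm2 q ((2 + g).choose g - 1) (g * (k * 2))
        ((expo 1 e).card * ((expo 1 g).card * (monos 1 1 g).card)) m δ k' r Q₁ Q₂)
    {q : ℕ} (hq : 2 ≤ q) {I : Finset ℕ}
    (hI : ∀ x ∈ I, 0 < x ∧ x < q ∧ ∃ b : ℕ → ℚ, RelB k e q x b) :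
    (I.card : ℝ) ≤ C * (q : ℝ) ^ (1 - 2 / ((g : ℝ) ^ 2 + 3 * g + 4)) := by
  by_contra hcon
  push Not at hcon
  have hIq : I.card ≤ q := by
    calc I.card ≤ (range q).card := card_le_card (fun x hx => mem_range.2 (hI x hx).2.1)
      _ = q := card_range q
  obtain ⟨δ, k', r, Q₁, Q₂, hA⟩ := hC q I.card hq hIq (by rw [TB_theta]; exact hcon.le)
  obtain ⟨D, e1, e2, e3, e4, e5, e6, e7⟩ := repB hq hk he heg hI
  have h1 : (D.Ms.erase 0).card = (2 + g).choose g - 1 := by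
    rw [card_erase_of_mem (by unfold Dat2.Ms; exact zero_mem_monos _ _ _)]
    unfold Dat2.Ms
    rw [card_monos, e3, e5, e6]
  have h2 : D.g * D.ww = g * (k * 2) := by
    unfold Dat2.ww
    rw [e2, e3, e5, e6]
  have h3 : D.c0 = (expo 1 e).card * ((expo 1 g).card * (monos 1 1 g).card) := by
    unfold Dat2.c0 Dat2.Ms
    rw [e3, e4, e5, e6]
  refine core2 D (δ := δ) (k := k') (r := r) (Q₁ := Q₁) (Q₂ := Q₂) ?_
  rw [h1, h2, h3, e1, e7]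
  exact hA

/-- the constant for one `e` -/
theorem CB_le {k g c₀ : ℕ} (hk : 1 ≤ k) (hg : 1 ≤ g)
    (hc : c₀ ≤ (g + 1) * ((g + 1) * (2 + g).choose g)) :
    Cpar ((2 + g).choose g - 1) (g * (k * 2)) c₀ ≤ 91520 * k * ((g : ℝ) + 1) ^ 11 := by
  obtain ⟨a, ha⟩ : ∃ a : ℕ, a = g + 1 := ⟨_, rfl⟩
  obtain ⟨b, hb⟩ : ∃ b : ℕ, b = (2 + g).choose g := ⟨_, rfl⟩
  have hb2 : 2 * b = a * (a + 1) := by
    have h1 : (2 + g).choose g = (g + 2).choose 2 := by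
      rw [add_comm 2 g]
      exact Nat.choose_symm_add
    rw [hb, h1, Nat.choose_two_right, ha]
    have h2 : 2 ∣ (g + 2) * (g + 2 - 1) := by
      have : (g + 2) * (g + 2 - 1) = (g + 1) * (g + 1 + 1) := by
        rw [mul_comm]
        rfl
      rw [this]
      exact (Nat.even_mul_succ_self (g + 1)).two_dvd
    rw [Nat.mul_div_cancel' h2, mul_comm]
    rfl
  have ha2 : 2 ≤ a := by omega
  have hb1 : 1 ≤ b := by nlinarith
  have hnf : b - 1 + 2 = b + 1 := by omega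
  have h1 : b + 1 ≤ a ^ 2 := by nlinarith
  have h4b : 4 * b ≤ 3 * a ^ 2 := by nlinarith
  rw [← hb, ← ha] at hc
  have h2 : c₀ * (b - 1 + 2) + 1 ≤ a ^ 6 := by
    rw [hnf]
    have e1 : c₀ * (b + 1) ≤ (a * (a * b)) * a ^ 2 := Nat.mul_le_mul hc h1
    have e2 : (a * (a * b)) * a ^ 2 = b * a ^ 4 := by ring
    have e3 : (4 * b) * a ^ 4 ≤ (3 * a ^ 2) * a ^ 4 := Nat.mul_le_mul_right _ h4b
    have e4 : (3 * a ^ 2) * a ^ 4 = 3 * a ^ 6 := by ring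
    have e5 : 2 ^ 6 ≤ a ^ 6 := Nat.pow_le_pow_left ha2 6
    have e6 : (4 * b) * a ^ 4 = 4 * (b * a ^ 4) := by ring
    omega
  have h3 : g * (k * 2) + 1 ≤ 2 * k * a := by
    rw [ha]
    nlinarith
  have h5 : 416 * (b - 1 + 2) ^ 2 * (g * (k * 2) + 1) ≤ 832 * k * a ^ 5 := by
    rw [hnf]
    calc 416 * (b + 1) ^ 2 * (g * (k * 2) + 1) ≤ 416 * (a ^ 2) ^ 2 * (2 * k * a) := by gcongr
      _ = 832 * k * a ^ 5 := by ring
  have h4 := exp_four_le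
  have h2' : ((c₀ * (b - 1 + 2) + 1 : ℕ) : ℝ) ≤ (a : ℝ) ^ 6 := by exact_mod_cast h2
  have h5' : ((416 * (b - 1 + 2) ^ 2 * (g * (k * 2) + 1) : ℕ) : ℝ) ≤ 832 * k * (a : ℝ) ^ 5 := by
    exact_mod_cast h5
  have haR : (g : ℝ) + 1 = a := by rw [ha]; push_cast; ring
  rw [haR]
  unfold Cpar
  rw [← hb]
  calc 2 * ((c₀ * (b - 1 + 2) + 1 : ℕ) : ℝ) * ((416 * (b - 1 + 2) ^ 2 * (g * (k * 2) + 1) : ℕ) : ℝ) *
        Real.exp 4 ≤ 2 * (a : ℝ) ^ 6 * (832 * k * (a : ℝ) ^ 5) * 55 := by gcongr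
    _ = 91520 * k * (a : ℝ) ^ 11 := by ring

theorem ratio_degree {k g q : ℕ} (hk : 2 ≤ k) (hg : 1 ≤ g) (hq : 2 ≤ q) :
    ({x : ℕ | 0 < x ∧ x < q ∧ RatB k g q x}.ncard : ℝ) ≤
      100000 * k * ((g : ℝ) + 1) ^ 12 * (q : ℝ) ^ (1 - 2 / ((g : ℝ) ^ 2 + 3 * g + 4)) := by
  classical
  have hnf : 1 ≤ (2 + g).choose g - 1 := by
    have h1 := TB_nf g
    have h2 : (1 : ℝ) ≤ g := by exact_mod_cast hg
    have h3 : (1 : ℝ) ≤ (((2 + g).choose g - 1 : ℕ) : ℝ) := by nlinarith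
    exact_mod_cast h3
  set Cf : ℕ → ℝ := fun e => Cpar ((2 + g).choose g - 1) (g * (k * 2))
    ((expo 1 e).card * ((expo 1 g).card * (monos 1 1 g).card)) with hCfdef
  have hCf := fun e : ℕ => par2x ((2 + g).choose g - 1) (g * (k * 2))
    ((expo 1 e).card * ((expo 1 g).card * (monos 1 1 g).card)) hnf
  have hq1 : (1 : ℝ) ≤ q := by exact_mod_cast (by omega : 1 ≤ q)
  obtain ⟨I, hIdef⟩ : ∃ I : ℕ → Finset ℕ, ∀ e, I e = (range q).filter fun x =>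
    0 < x ∧ ∃ b : ℕ → ℚ, RelB k e q x b := ⟨_, fun _ => rfl⟩
  have hIcard : ∀ e ∈ Icc 1 g, ((I e).card : ℝ) ≤
      Cf e * (q : ℝ) ^ (1 - 2 / ((g : ℝ) ^ 2 + 3 * g + 4)) := by
    intro e he
    rw [mem_Icc] at he
    refine TB_count hk he.1 he.2 (hCf e) hq ?_
    intro x hx
    rw [hIdef, mem_filter, mem_range] at hx
    exact ⟨hx.2.1, hx.1, hx.2.2⟩
  have hsub : {x : ℕ | 0 < x ∧ x < q ∧ RatB k g q x} ⊆
      (((Icc 1 g).biUnion I ∪ {q / 2} : Finset ℕ) : Set ℕ) := by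
    intro x hx
    obtain ⟨hx0, hxq, hR⟩ := hx
    rw [mem_coe, mem_union, mem_biUnion, mem_singleton]
    by_cases h2 : 2 * x = q
    · right
      omega
    · left
      obtain ⟨e, he1, heg, b, hb⟩ := relB_of hq hk hx0 hxq h2 hR
      refine ⟨e, mem_Icc.2 ⟨he1, heg⟩, ?_⟩
      rw [hIdef, mem_filter, mem_range]
      exact ⟨hxq, hx0, b, hb⟩
  have h1 : ({x : ℕ | 0 < x ∧ x < q ∧ RatB k g q x}.ncard : ℝ) ≤
      ∑ e ∈ Icc 1 g, ((I e).card : ℝ) + 1 := by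
    have h2 := Set.ncard_le_ncard hsub (Finset.finite_toSet _)
    rw [Set.ncard_coe_finset] at h2
    have h3 : ((Icc 1 g).biUnion I ∪ {q / 2}).card ≤ ∑ e ∈ Icc 1 g, (I e).card + 1 := by
      refine (card_union_le _ _).trans ?_
      rw [card_singleton]
      exact Nat.add_le_add_right card_biUnion_le 1
    exact_mod_cast h2.trans h3
  have hθ : (0 : ℝ) ≤ 1 - 2 / ((g : ℝ) ^ 2 + 3 * g + 4) := by
    have : 2 / ((g : ℝ) ^ 2 + 3 * g + 4) ≤ 1 := by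
      rw [div_le_one (by positivity)]
      have : (0 : ℝ) ≤ (g : ℝ) ^ 2 + 3 * g := by positivity
      linarith
    linarith
  have hq2 : (1 : ℝ) ≤ (q : ℝ) ^ (1 - 2 / ((g : ℝ) ^ 2 + 3 * g + 4)) := Real.one_le_rpow hq1 hθ
  have h4 : ∑ e ∈ Icc 1 g, ((I e).card : ℝ) ≤
      ∑ e ∈ Icc 1 g, Cf e * (q : ℝ) ^ (1 - 2 / ((g : ℝ) ^ 2 + 3 * g + 4)) := sum_le_sum hIcard
  have hCe : ∀ e ∈ Icc 1 g, Cf e ≤ 91520 * k * ((g : ℝ) + 1) ^ 11 := by
    intro e he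
    rw [mem_Icc] at he
    refine CB_le (by omega) hg ?_
    have e1 : (expo 1 e).card ≤ g + 1 := by
      have := card_expo_le 1 e
      rw [pow_one] at this
      omega
    have e2 : (expo 1 g).card ≤ g + 1 := by
      have := card_expo_le 1 g
      rwa [pow_one] at this
    have e3 : (monos 1 1 g).card = (2 + g).choose g := by
      rw [card_monos]
    rw [e3]
    exact Nat.mul_le_mul e1 (Nat.mul_le_mul_right _ e2)
  obtain ⟨X, hX⟩ : ∃ X : ℝ, X = (q : ℝ) ^ (1 - 2 / ((g : ℝ) ^ 2 + 3 * g + 4)) := ⟨_, rfl⟩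
  rw [← hX] at h4 hq2 ⊢
  have h5 : ∑ e ∈ Icc 1 g, Cf e * X ≤ ∑ e ∈ Icc 1 g, 91520 * k * ((g : ℝ) + 1) ^ 11 * X :=
    sum_le_sum fun e he => mul_le_mul_of_nonneg_right (hCe e he) (by linarith)
  rw [Finset.sum_const, Nat.card_Icc, nsmul_eq_mul, Nat.add_sub_cancel] at h5
  have hg0 : (0 : ℝ) ≤ g := Nat.cast_nonneg g
  have hk0 : (1 : ℝ) ≤ k := by exact_mod_cast (by omega : 1 ≤ k)
  have h6 : (1 : ℝ) ≤ ((g : ℝ) + 1) ^ 11 := one_le_pow₀ (by linarith)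
  have h7 : (1 : ℝ) ≤ k * ((g : ℝ) + 1) ^ 11 * X :=
    one_le_mul_of_one_le_of_one_le (one_le_mul_of_one_le_of_one_le hk0 h6) hq2
  have h8 : 0 ≤ (g : ℝ) * (k * ((g : ℝ) + 1) ^ 11 * X) := by positivity
  have h9 : 100000 * k * ((g : ℝ) + 1) ^ 12 * X = 100000 * ((g : ℝ) * (k * ((g : ℝ) + 1) ^ 11 * X)) +
      100000 * (k * ((g : ℝ) + 1) ^ 11 * X) := by ring
  have h10 : (g : ℝ) * (91520 * k * ((g : ℝ) + 1) ^ 11 * X) =
      91520 * ((g : ℝ) * (k * ((g : ℝ) + 1) ^ 11 * X)) := by ring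
  rw [h9]
  rw [h10] at h5
  linarith

end CM68
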