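import Pool.Agent.LibCM2.TBx

/-!
# Counting by height, and degrees that tend to infinity (helper68; row TH typed by the CM2 typists)
-/

namespace CM68

open Finset Polynomial

theorem ratio_height {k g Q : ℕ} (hk : 2 ≤ k) (hg : 1 ≤ g) (hQ : 1 ≤ Q) :
    ({y : ℚ | 0 < y ∧ y < 1 ∧ y.den ≤ Q ∧ ∃ P : ℚ[X], P ≠ 0 ∧ P.natDegree ≤ g ∧
      aeval (hz k (y : ℝ) / hz k (1 - (y : ℝ))) P = 0}.ncard : ℝ) ≤
      100000 * k * ((g : ℝ) + 1) ^ 12 * (Q : ℝ) ^ (2 - 2 / ((g : ℝ) ^ 2 + 3 * g + 4)) := by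
  classical
  obtain ⟨C, hCdef⟩ : ∃ C : ℝ, C = 100000 * k * ((g : ℝ) + 1) ^ 12 := ⟨_, rfl⟩
  have hC0 : 0 < C := by
    have : (0 : ℝ) < k := by exact_mod_cast (by omega : 0 < k)
    rw [hCdef]
    positivity
  have hC : ∀ q : ℕ, 2 ≤ q → ({x : ℕ | 0 < x ∧ x < q ∧ RatB k g q x}.ncard : ℝ) ≤
      C * (q : ℝ) ^ (1 - 2 / ((g : ℝ) ^ 2 + 3 * g + 4)) := fun q hq => by
    rw [hCdef]
    exact ratio_degree hk hg hq
  rw [← hCdef]
  set S : ℕ → Finset ℕ := fun q => (range q).filter fun x => 0 < x ∧ RatB k g q x with hS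
  have hSset : ∀ q, {x : ℕ | 0 < x ∧ x < q ∧ RatB k g q x} = (S q : Set ℕ) := by
    intro q
    ext x
    simp only [Set.mem_setOf_eq, hS, coe_filter, mem_range]
    tauto
  set U : Finset ℚ := (Icc 2 Q).biUnion fun q => (S q).image fun x : ℕ => (x : ℚ) / (q : ℚ) with hU
  have hsub : {y : ℚ | 0 < y ∧ y < 1 ∧ y.den ≤ Q ∧ ∃ P : ℚ[X], P ≠ 0 ∧ P.natDegree ≤ g ∧
      aeval (hz k (y : ℝ) / hz k (1 - (y : ℝ))) P = 0} ⊆ (U : Set ℚ) := by
    rintro y ⟨hy0, hy1, hyQ, P, hP0, hPd, hP⟩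
    have hnum0 : 0 < y.num := Rat.num_pos.2 hy0
    have hlt : y.num < y.den := by
      have h := hy1
      rw [Rat.lt_iff] at h
      simpa using h
    have hden0 : 0 < y.den := y.den_pos
    obtain ⟨x, hx⟩ : ∃ x : ℕ, y.num = x := ⟨y.num.toNat, by rw [Int.toNat_of_nonneg hnum0.le]⟩
    have hx0 : 0 < x := by exact_mod_cast hx ▸ hnum0
    have hxq : x < y.den := by exact_mod_cast hx ▸ hlt
    have hyx : y = (x : ℚ) / (y.den : ℚ) := by
      conv_lhs => rw [← Rat.num_div_den y, hx]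
      simp
    have hyR : (y : ℝ) = (x : ℝ) / (y.den : ℝ) := by
      conv_lhs => rw [hyx]
      push_cast
      rfl
    rw [hU, mem_coe, mem_biUnion]
    refine ⟨y.den, mem_Icc.2 ⟨by omega, hyQ⟩, mem_image.2 ⟨x, ?_, hyx.symm⟩⟩
    rw [hS]
    simp only [mem_filter, mem_range]
    refine ⟨hxq, hx0, P, hP0, hPd, ?_⟩
    rw [← hyR]
    exact hP
  have hcard : (({y : ℚ | 0 < y ∧ y < 1 ∧ y.den ≤ Q ∧ ∃ P : ℚ[X], P ≠ 0 ∧ P.natDegree ≤ g ∧
      aeval (hz k (y : ℝ) / hz k (1 - (y : ℝ))) P = 0}.ncard : ℕ) : ℝ) ≤ U.card := by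
    have h := Set.ncard_le_ncard hsub (finite_toSet U)
    rw [Set.ncard_coe_finset] at h
    exact_mod_cast h
  refine hcard.trans ?_
  have hθ : 0 ≤ 1 - 2 / ((g : ℝ) ^ 2 + 3 * g + 4) := by
    have : 2 / ((g : ℝ) ^ 2 + 3 * g + 4) ≤ 1 := by
      rw [div_le_one (by positivity)]
      have : (0 : ℝ) ≤ (g : ℝ) ^ 2 + 3 * g := by positivity
      linarith
    linarith
  have hQ0 : (0 : ℝ) < Q := by exact_mod_cast (by omega : 0 < Q)
  have hterm : ∀ q ∈ Icc 2 Q, (((S q).image fun x : ℕ => (x : ℚ) / (q : ℚ)).card : ℝ) ≤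
      C * (Q : ℝ) ^ (1 - 2 / ((g : ℝ) ^ 2 + 3 * g + 4)) := by
    intro q hq
    rw [mem_Icc] at hq
    have h := hC q hq.1
    rw [hSset q, Set.ncard_coe_finset] at h
    have hi : (((S q).image fun x : ℕ => (x : ℚ) / (q : ℚ)).card : ℝ) ≤ (S q).card := by
      exact_mod_cast card_image_le
    refine hi.trans (h.trans ?_)
    refine mul_le_mul_of_nonneg_left ?_ hC0.le
    exact Real.rpow_le_rpow (by positivity) (by exact_mod_cast hq.2) hθ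
  calc (U.card : ℝ) ≤ ∑ q ∈ Icc 2 Q, (((S q).image fun x : ℕ => (x : ℚ) / (q : ℚ)).card : ℝ) := by
        rw [hU]
        exact_mod_cast card_biUnion_le
    _ ≤ ∑ _q ∈ Icc 2 Q, C * (Q : ℝ) ^ (1 - 2 / ((g : ℝ) ^ 2 + 3 * g + 4)) := sum_le_sum hterm
    _ = ((Icc 2 Q).card : ℝ) * (C * (Q : ℝ) ^ (1 - 2 / ((g : ℝ) ^ 2 + 3 * g + 4))) := by
        rw [sum_const, nsmul_eq_mul]
    _ ≤ (Q : ℝ) * (C * (Q : ℝ) ^ (1 - 2 / ((g : ℝ) ^ 2 + 3 * g + 4))) := by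
        refine mul_le_mul_of_nonneg_right ?_ (by positivity)
        rw [Nat.card_Icc]
        exact_mod_cast (by omega : Q + 1 - 2 ≤ Q)
    _ = C * (Q : ℝ) ^ (2 - 2 / ((g : ℝ) ^ 2 + 3 * g + 4)) := by
        have : (Q : ℝ) ^ (2 - 2 / ((g : ℝ) ^ 2 + 3 * g + 4)) =
            (Q : ℝ) * (Q : ℝ) ^ (1 - 2 / ((g : ℝ) ^ 2 + 3 * g + 4)) := by
          rw [show (2 - 2 / ((g : ℝ) ^ 2 + 3 * g + 4)) = 1 + (1 - 2 / ((g : ℝ) ^ 2 + 3 * g + 4)) by ring,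
            Real.rpow_add hQ0, Real.rpow_one]
        rw [this]; ring

/-- degrees that tend to infinity with `q` -/
theorem ratio_growing {k g q : ℕ} (hk : 2 ≤ k) (hg : 1 ≤ g) (hq : 3 ≤ q)
    (h : 12 * ((g : ℝ) + 2) ^ 2 * Real.log (Real.log q) ≤ Real.log q) :
    ({x : ℕ | 0 < x ∧ x < q ∧ RatB k g q x}.ncard : ℝ) ≤ 100000 * k * q / Real.log q ^ 18 := by
  obtain ⟨l, hl⟩ : ∃ l : ℝ, l = Real.log q := ⟨_, rfl⟩
  obtain ⟨u, hu⟩ : ∃ u : ℝ, u = Real.log l := ⟨_, rfl⟩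
  rw [← hl, ← hu] at h
  rw [← hl]
  have hq3 : (3 : ℝ) ≤ q := by exact_mod_cast hq
  have hq0 : (0 : ℝ) < q := by linarith
  have hl1 : 12 / 11 ≤ l := by
    have h1 : Real.log 3 ≤ l := by
      rw [hl]
      exact Real.log_le_log (by norm_num) hq3
    have h2 : (12 / 11 : ℝ) ≤ Real.log 3 := by
      rw [Real.le_log_iff_exp_le (by norm_num)]
      have h3 : Real.exp (12 / 11) = Real.exp 1 * Real.exp (1 / 11) := by
        rw [← Real.exp_add]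
        norm_num
      have h4 := Real.exp_one_lt_d9
      have h5 : Real.exp (1 / 11) ≤ 11 / 10 := by
        have h6 := Real.add_one_le_exp (-(1 / 11) : ℝ)
        have h7 : Real.exp (1 / 11) * Real.exp (-(1 / 11)) = 1 := by
          rw [← Real.exp_add]
          norm_num
        have h8 := Real.exp_pos (1 / 11)
        nlinarith
      rw [h3]
      have h9 : (0 : ℝ) < Real.exp (1 / 11) := Real.exp_pos _
      calc Real.exp 1 * Real.exp (1 / 11) ≤ 2.7182818286 * (11 / 10) := by gcongr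
        _ ≤ 3 := by norm_num
    linarith
  have hl0 : 0 < l := by linarith
  have hu1 : 1 ≤ 12 * u := by
    have h2 : (1 : ℝ) / 12 ≤ u := by
      rw [hu, Real.le_log_iff_exp_le hl0]
      have h6 := Real.add_one_le_exp (-(1 / 12) : ℝ)
      have h7 : Real.exp (1 / 12) * Real.exp (-(1 / 12)) = 1 := by
        rw [← Real.exp_add]
        norm_num
      have h8 := Real.exp_pos (1 / 12)
      nlinarith
    linarith
  have hg0 : (0 : ℝ) ≤ g := Nat.cast_nonneg g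
  have hG : ((g : ℝ) + 2) ^ 2 ≤ l := by
    have h1 : 0 ≤ ((g : ℝ) + 2) ^ 2 := by positivity
    nlinarith
  have hmain := ratio_degree (k := k) (g := g) (q := q) hk hg (by omega)
  have hexp : (q : ℝ) ^ (1 - 2 / ((g : ℝ) ^ 2 + 3 * g + 4)) ≤ q / l ^ 24 := by
    have h1 : (q : ℝ) ^ (1 - 2 / ((g : ℝ) ^ 2 + 3 * g + 4)) =
        q * (q : ℝ) ^ (-(2 / ((g : ℝ) ^ 2 + 3 * g + 4))) := by
      rw [sub_eq_add_neg, Real.rpow_add hq0, Real.rpow_one]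
    rw [h1, show (q : ℝ) / l ^ 24 = q * (l ^ 24)⁻¹ from div_eq_mul_inv _ _]
    refine mul_le_mul_of_nonneg_left ?_ hq0.le
    rw [Real.rpow_def_of_pos hq0, ← hl]
    have h2 : (l ^ 24)⁻¹ = Real.exp (-(24 * u)) := by
      rw [Real.exp_neg, hu]
      congr 1
      rw [mul_comm, Real.exp_mul, Real.exp_log hl0]
      norm_cast
    rw [h2]
    apply Real.exp_le_exp.2
    have h3 : 24 * u ≤ l * (2 / ((g : ℝ) ^ 2 + 3 * g + 4)) := by
      rw [mul_div_assoc', le_div_iff₀ (by positivity)]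
      have h4 : (g : ℝ) ^ 2 + 3 * g + 4 ≤ ((g : ℝ) + 2) ^ 2 := by nlinarith
      have h5 : 0 ≤ u := by linarith
      nlinarith [mul_le_mul_of_nonneg_left h4 h5]
    rw [mul_neg]
    exact neg_le_neg h3
  have hg12 : ((g : ℝ) + 1) ^ 12 ≤ l ^ 6 := by
    calc ((g : ℝ) + 1) ^ 12 ≤ ((g : ℝ) + 2) ^ 12 := by gcongr; norm_num
      _ = (((g : ℝ) + 2) ^ 2) ^ 6 := by ring
      _ ≤ l ^ 6 := by gcongr
  refine hmain.trans ?_
  calc 100000 * k * ((g : ℝ) + 1) ^ 12 * (q : ℝ) ^ (1 - 2 / ((g : ℝ) ^ 2 + 3 * g + 4)) ≤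
      100000 * k * l ^ 6 * (q / l ^ 24) := by gcongr
    _ = 100000 * k * q / l ^ 18 := by
      field_simp

end CM68
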